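import Pool.Agent.Run7.h875.TS.StmA

/-!
# Simultaneous twists: the final count
-/

set_option autoImplicit false
set_option linter.all false

open Polynomial
open scoped Classical

namespace Run7.h875.TS

section prd

variable {k : Type} [Field k]

theorem mem_prD {D P : k[X]} (hD : D ≠ 0) : P ∈ prD D ↔ P.Monic ∧ Irreducible P ∧ P ∣ D := by
  unfold prD
  rw [Multiset.mem_toFinset, UniqueFactorizationMonoid.mem_normalizedFactors_iff' hD]
  constructor
  · rintro ⟨h1, h2, h3⟩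
    refine ⟨?_, h1, h3⟩
    rw [← h2]
    exact monic_normalize h1.ne_zero
  · rintro ⟨h1, h2, h3⟩
    exact ⟨h2, h1.normalize_eq_self, h3⟩

theorem eq_of_dvd {P Q : k[X]} (hP : P.Monic) (hPi : Irreducible P) (hQ : Q.Monic)
    (hQi : Irreducible Q) (h : P ∣ Q) : P = Q :=
  eq_of_monic_of_associated hP hQ (hPi.associated_of_dvd hQi h)

theorem prD_mul {D Q : k[X]} (hD : D ≠ 0) (hQ : Q.Monic) (hQi : Irreducible Q) :
    prD (D * Q) = insert Q (prD D) := by
  ext P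
  rw [mem_prD (mul_ne_zero hD hQi.ne_zero), Finset.mem_insert, mem_prD hD]
  constructor
  · rintro ⟨h1, h2, h3⟩
    rcases h2.prime.dvd_or_dvd h3 with h | h
    · exact Or.inr ⟨h1, h2, h⟩
    · exact Or.inl (eq_of_dvd h1 h2 hQ hQi h)
  · rintro (rfl | ⟨h1, h2, h3⟩)
    · exact ⟨hQ, hQi, dvd_mul_left _ _⟩
    · exact ⟨h1, h2, h3.mul_right _⟩

theorem mem_irrD [Finite k] {m : ℕ} {Q : k[X]} :
    Q ∈ irrD k m ↔ Q.Monic ∧ Irreducible Q ∧ Q.natDegree = m := by
  unfold irrD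
  rw [Set.Finite.mem_toFinset]
  rfl

/-- A monic squarefree polynomial is the product of its monic prime divisors. -/
theorem prod_prD {D : k[X]} (hD : D.Monic) (hs : Squarefree D) : ∏ P ∈ prD D, P = D := by
  unfold prD
  have h1 := (UniqueFactorizationMonoid.squarefree_iff_nodup_normalizedFactors hD.ne_zero).1 hs
  have h2 : (UniqueFactorizationMonoid.normalizedFactors D).toFinset.val =
      UniqueFactorizationMonoid.normalizedFactors D := by
    rw [Multiset.toFinset_val, h1.dedup]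
  rw [Finset.prod_eq_multiset_prod, h2, Multiset.map_id',
    UniqueFactorizationMonoid.prod_normalizedFactors_eq hD.ne_zero, hD.normalize_eq_self]

end prd

/-! ### The products -/

/-- Two elements of the same class modulo `P`. -/
theorem sqr_mul {k : Type} [Field k] [Finite k] {P x y : k[X]} (hP : Irreducible P) (hx : ¬ P ∣ x)
    (hy : ¬ P ∣ y) (h : (∃ z : k[X], P ∣ z ^ 2 - x) ↔ (∃ z : k[X], P ∣ z ^ 2 - y)) :
    ∃ z : k[X], P ∣ z ^ 2 - x * y := by
  haveI : Fact (Irreducible P) := ⟨hP⟩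
  haveI : Finite (AdjoinRoot P) := by
    haveI : Module.Finite k (AdjoinRoot P) := (AdjoinRoot.powerBasis hP.ne_zero).finite
    exact Module.finite_of_finite k
  haveI := Fintype.ofFinite (AdjoinRoot P)
  have key : ∀ w : k[X], (∃ z : k[X], P ∣ z ^ 2 - w) ↔ IsSquare (AdjoinRoot.mk P w) := by
    intro w
    constructor
    · rintro ⟨z, hz⟩
      refine ⟨AdjoinRoot.mk P z, ?_⟩
      rw [← map_mul, eq_comm, AdjoinRoot.mk_eq_mk, ← pow_two]
      exact hz
    · rintro ⟨r, hr⟩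
      obtain ⟨z, rfl⟩ := AdjoinRoot.mk_surjective r
      refine ⟨z, ?_⟩
      rw [← map_mul, eq_comm, AdjoinRoot.mk_eq_mk, ← pow_two] at hr
      exact hr
  rw [key, key] at h
  rw [key, map_mul]
  have hx' : AdjoinRoot.mk P x ≠ 0 := by rwa [Ne, AdjoinRoot.mk_eq_zero]
  have hy' : AdjoinRoot.mk P y ≠ 0 := by rwa [Ne, AdjoinRoot.mk_eq_zero]
  by_cases h1 : IsSquare (AdjoinRoot.mk P x)
  · exact h1.mul (h.1 h1)
  · have h2 : ¬ IsSquare (AdjoinRoot.mk P y) := fun h3 => h1 (h.2 h3)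
    by_cases hc : ringChar (AdjoinRoot P) = 2
    · exact FiniteField.isSquare_of_char_two hc _
    · rw [← quadraticChar_one_iff_isSquare (mul_ne_zero hx' hy'), map_mul,
        quadraticChar_neg_one_iff_not_isSquare.2 h1, quadraticChar_neg_one_iff_not_isSquare.2 h2]
      norm_num

section ex

variable {k : Type} [Field k] [Finite k] (φ : Finset k[X] → (k[X] → k[X]) → ℕ) (Bad : k[X])
  (T' : Finset k[X])

/-- The primes for one step. -/
noncomputable def stS (S : Finset k[X]) (u : k[X] → k[X]) (m : ℕ) : Finset k[X] :=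
  (irrD k m).filter fun Q => Q ∉ S ∧ ¬ Q ∣ Bad ∧
    φ (insert Q S) (Function.update u Q 1) ≤ φ S u - 1

/-- The primes for the last step. -/
noncomputable def laS (S : Finset k[X]) (u : k[X] → k[X]) (η : k[X] → Prop) (m : ℕ) :
    Finset k[X] :=
  (irrD k m).filter fun Q => Q ∉ S ∧ ¬ Q ∣ Bad ∧
    (∀ P ∈ S ∪ T', (∃ z : k[X], P ∣ z ^ 2 - Q) ↔ η P) ∧
    ∀ w : k[X], ¬ Q ∣ w → φ (insert Q S) (Function.update u Q w) ≤ φ S u

/-- The wanted class of the last prime. -/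
noncomputable def eta (S : Finset k[X]) (u : k[X] → k[X]) (Y P : k[X]) : Prop :=
  if P ∈ S then ∃ z : k[X], P ∣ z ^ 2 - (Y / P) * u P else ∃ z : k[X], P ∣ z ^ 2 - Y

/-- The products. -/
noncomputable def EX (m : ℕ) : List ℕ → Finset k[X] → (k[X] → k[X]) → k[X] → Finset k[X]
  | [], S, u, Y => (laS φ Bad T' S u (eta S u Y) m).image fun Q => Y * Q
  | m₁ :: ms, S, u, Y => (stS φ Bad S u m₁).biUnion fun Q =>
      EX m ms (insert Q S) (Function.update u Q 1) (Y * Q)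

/-- The states. -/
structure St (S : Finset k[X]) (u : k[X] → k[X]) (Y : k[X]) : Prop where
  mon : Y.Monic
  sf : Squarefree Y
  cop : ∀ P : k[X], Irreducible P → P ∣ Y → ¬ P ∣ Bad
  pr : prD Y = S
  nu : ∀ P ∈ S, ¬ P ∣ u P

variable {φ Bad T'}

theorem St.mem {S : Finset k[X]} {u : k[X] → k[X]} {Y : k[X]} (h : St Bad S u Y) {P : k[X]} :
    P ∈ S ↔ P.Monic ∧ Irreducible P ∧ P ∣ Y := by
  rw [← h.pr, mem_prD h.mon.ne_zero]

theorem St.step {S : Finset k[X]} {u : k[X] → k[X]} {Y : k[X]} (h : St Bad S u Y) {Q w : k[X]}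
    (hQ : Q.Monic) (hQi : Irreducible Q) (hS : Q ∉ S) (hb : ¬ Q ∣ Bad) (hw : ¬ Q ∣ w) :
    St Bad (insert Q S) (Function.update u Q w) (Y * Q) where
  mon := h.mon.mul hQ
  sf := by
    have hnd : ¬ Q ∣ Y := fun h1 => hS (h.mem.2 ⟨hQ, hQi, h1⟩)
    have hc : IsRelPrime Y Q := ((hQi.coprime_iff_not_dvd).2 hnd).isRelPrime.symm
    exact (squarefree_mul_iff.2 ⟨hc, h.sf, hQi.squarefree⟩)
  cop := by
    intro P hP hd
    rcases hP.prime.dvd_or_dvd hd with h1 | h1
    · exact h.cop P hP h1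
    · intro h2
      exact hb (((hP.associated_of_dvd hQi h1).dvd_iff_dvd_left).1 h2)
  pr := by rw [prD_mul h.mon.ne_zero hQ hQi, h.pr]
  nu := by
    intro P hP
    rw [Finset.mem_insert] at hP
    by_cases hPQ : P = Q
    · rw [hPQ, Function.update_self]; exact hw
    · rw [Function.update_of_ne hPQ]
      exact h.nu P (hP.resolve_left hPQ)

/-- The class invariance of `φ`. -/
def Inv (φ : Finset k[X] → (k[X] → k[X]) → ℕ) (Bad : k[X]) : Prop :=
  ∀ (S : Finset k[X]) (u u' : k[X] → k[X]), (∀ P ∈ S, P.Monic ∧ Irreducible P ∧ ¬ P ∣ Bad ∧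
    ¬ P ∣ u P ∧ ¬ P ∣ u' P ∧ ∃ z : k[X], P ∣ z ^ 2 * u P - u' P) → φ S u' ≤ φ S u

/-- What we know about the products. -/
structure Spec (φ : Finset k[X] → (k[X] → k[X]) → ℕ) (Bad : k[X]) (T' : Finset k[X]) (m : ℕ)
    (ms : List ℕ) (S : Finset k[X]) (u : k[X] → k[X]) (Y D : k[X]) : Prop where
  mon : D.Monic
  sf : Squarefree D
  cop : ∀ P : k[X], Irreducible P → P ∣ D → ¬ P ∣ Bad
  deg : D.natDegree = Y.natDegree + ms.sum + m
  dvd : Y ∣ D
  new : ∀ P : k[X], P.Monic → Irreducible P → P ∣ D → P ∈ S ∨ P.natDegree ∈ ms ∨ P.natDegree = m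
  ex : ∀ d ∈ ms, ∃ P : k[X], P.Monic ∧ Irreducible P ∧ P ∣ D ∧ P ∉ S ∧ P.natDegree = d
  exl : ∃ P : k[X], P.Monic ∧ Irreducible P ∧ P ∣ D ∧ P ∉ S ∧ P.natDegree = m
  cls : ∀ P ∈ S, ∃ z : k[X], P ∣ z ^ 2 - (D / P) * u P
  sq : ∀ P ∈ T', ∃ z : k[X], P ∣ z ^ 2 - D
  phi : φ (prD D) (fun P => D / P) ≤ φ S u - ms.length

theorem mul_div_of_dvd {P Y Q : k[X]} (hP : P ≠ 0) (h : P ∣ Y) : Y * Q / P = Y / P * Q := by
  obtain ⟨Z, rfl⟩ := h
  rw [mul_assoc, mul_comm P Z, mul_div_cancel_right₀ _ hP, mul_comm P (Z * Q),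
    mul_div_cancel_right₀ _ hP]

theorem mul_div_self' {Y Q : k[X]} (hQ : Q ≠ 0) : Y * Q / Q = Y :=
  mul_div_cancel_right₀ _ hQ

theorem ndvd_div {P Y : k[X]} (hP : Irreducible P) (hs : Squarefree Y) (h : P ∣ Y) :
    ¬ P ∣ Y / P := by
  obtain ⟨Z, rfl⟩ := h
  rw [mul_comm P Z, mul_div_self' hP.ne_zero]
  rintro ⟨W, rfl⟩
  exact hP.not_isUnit (hs P ⟨W, by ring⟩)

theorem cls_iff {P x y : k[X]} (hP : Irreducible P) (hy : ¬ P ∣ y) (h : ∃ z : k[X], P ∣ z ^ 2 - x * y) :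
    ∃ z : k[X], P ∣ z ^ 2 * y - x := by
  obtain ⟨z, hz⟩ := h
  obtain ⟨r, s, hrs⟩ := (hP.coprime_iff_not_dvd.2 hy : IsCoprime P y)
  -- s * y ≡ 1
  refine ⟨z * s, ?_⟩
  have e : (z * s) ^ 2 * y - x = s ^ 2 * y * (z ^ 2 - x * y) + x * (s * y + 1) * (s * y - 1) := by
    ring
  have e2 : s * y - 1 = P * (-r) := by linear_combination hrs
  rw [e, e2]
  exact dvd_add (hz.mul_left _) ⟨x * (s * y + 1) * (-r), by ring⟩

theorem spec (hI : Inv φ Bad) (hT : ∀ P ∈ T', Irreducible P ∧ P ∣ Bad) (m : ℕ) (ms : List ℕ) :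
    ∀ (S : Finset k[X]) (u : k[X] → k[X]) (Y : k[X]), St Bad S u Y → ∀ D ∈ EX φ Bad T' m ms S u Y,
      Spec φ Bad T' m ms S u Y D := by
  induction ms with
  | nil =>
    intro S u Y h D hD
    unfold EX at hD
    rw [Finset.mem_image] at hD
    obtain ⟨Q, hQ, rfl⟩ := hD
    unfold laS at hQ
    rw [Finset.mem_filter, mem_irrD] at hQ
    obtain ⟨⟨hQm, hQi, hQd⟩, hQS, hQb, hη, hw⟩ := hQ
    have hYQ : ¬ Q ∣ Y := fun h1 => hQS (h.mem.2 ⟨hQm, hQi, h1⟩)
    have hst := h.step hQm hQi hQS hQb hYQ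
    have hcls : ∀ P ∈ S, ∃ z : k[X], P ∣ z ^ 2 - (Y * Q / P) * u P := by
      intro P hP
      obtain ⟨hPm, hPi, hPY⟩ := h.mem.1 hP
      have hPQ : ¬ P ∣ Q := fun h1 => hQS (by rw [← eq_of_dvd hPm hPi hQm hQi h1]; exact hP)
      have h1 := hη P (Finset.mem_union_left _ hP)
      unfold eta at h1
      rw [if_pos hP] at h1
      have h2 : ¬ P ∣ Y / P * u P := fun h3 => by
        rcases hPi.prime.dvd_or_dvd h3 with h4 | h4
        · exact ndvd_div hPi h.sf hPY h4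
        · exact h.nu P hP h4
      obtain ⟨z, hz⟩ := sqr_mul hPi hPQ h2 h1
      refine ⟨z, ?_⟩
      rw [mul_div_of_dvd hPi.ne_zero hPY]
      have e : z ^ 2 - Y / P * Q * u P = z ^ 2 - Q * (Y / P * u P) := by ring
      rw [e]
      exact hz
    refine ⟨h.mon.mul hQm, hst.sf, hst.cop, ?_, dvd_mul_right _ _, ?_, ?_, ?_, hcls, ?_, ?_⟩
    · rw [h.mon.natDegree_mul hQm, hQd]; simp
    · intro P h1 h2 h3
      rcases h2.prime.dvd_or_dvd h3 with h4 | h4
      · exact Or.inl (h.mem.2 ⟨h1, h2, h4⟩)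
      · right; right
        rw [eq_of_dvd h1 h2 hQm hQi h4, hQd]
    · intro d hd
      simp at hd
    · exact ⟨Q, hQm, hQi, dvd_mul_left _ _, hQS, hQd⟩
    · intro P hP
      obtain ⟨hPi, hPb⟩ := hT P hP
      have hPS : P ∉ S := fun h1 => h.cop P hPi (h.mem.1 h1).2.2 hPb
      have h1 := hη P (Finset.mem_union_right _ hP)
      unfold eta at h1
      rw [if_neg hPS] at h1
      have hPQ : ¬ P ∣ Q := fun h2 => hQb (((hPi.associated_of_dvd hQi h2).dvd_iff_dvd_left).1 hPb)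
      have hPY : ¬ P ∣ Y := fun h2 => h.cop P hPi h2 hPb
      obtain ⟨z, hz⟩ := sqr_mul hPi hPQ hPY h1
      exact ⟨z, by rw [mul_comm Y Q]; exact hz⟩
    · rw [List.length_nil, Nat.sub_zero, hst.pr]
      refine le_trans (hI (insert Q S) (Function.update u Q Y) (fun P => Y * Q / P) ?_) (hw Y hYQ)
      intro P hP
      rw [Finset.mem_insert] at hP
      by_cases hPQ : P = Q
      · subst hPQ
        refine ⟨hQm, hQi, hQb, ?_, ?_, 1, ?_⟩
        · rw [Function.update_self]; exact hYQ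
        · rw [mul_div_self' hQi.ne_zero]; exact hYQ
        · rw [Function.update_self, mul_div_self' hQi.ne_zero]
          simp
      · have hPS := hP.resolve_left hPQ
        obtain ⟨hPm, hPi, hPY⟩ := h.mem.1 hPS
        rw [Function.update_of_ne hPQ]
        refine ⟨hPm, hPi, h.cop P hPi hPY, h.nu P hPS,
          ndvd_div hPi hst.sf (hPY.mul_right _), ?_⟩
        exact cls_iff hPi (h.nu P hPS) (hcls P hPS)
  | cons m₁ ms ih =>
    intro S u Y h D hD
    unfold EX at hD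
    rw [Finset.mem_biUnion] at hD
    obtain ⟨Q, hQ, hD⟩ := hD
    unfold stS at hQ
    rw [Finset.mem_filter, mem_irrD] at hQ
    obtain ⟨⟨hQm, hQi, hQd⟩, hQS, hQb, hφ⟩ := hQ
    have h1Q : ¬ Q ∣ (1 : k[X]) := fun h1 => hQi.not_isUnit (isUnit_of_dvd_one h1)
    have hst := h.step hQm hQi hQS hQb h1Q
    have hs := ih _ _ _ hst D hD
    refine ⟨hs.mon, hs.sf, hs.cop, ?_, (dvd_mul_right _ _).trans hs.dvd, ?_, ?_, ?_, ?_, hs.sq, ?_⟩
    · rw [hs.deg, h.mon.natDegree_mul hQm, hQd, List.sum_cons]; ring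
    · intro P h1 h2 h3
      rcases hs.new P h1 h2 h3 with h4 | h4 | h4
      · rw [Finset.mem_insert] at h4
        rcases h4 with h4 | h4
        · right; left
          rw [h4, hQd]
          simp
        · exact Or.inl h4
      · right; left
        exact List.mem_cons_of_mem _ h4
      · right; right; exact h4
    · intro d hd
      rw [List.mem_cons] at hd
      rcases hd with rfl | hd
      · exact ⟨Q, hQm, hQi, (dvd_mul_left _ _).trans hs.dvd, hQS, hQd⟩
      · obtain ⟨P, h1, h2, h3, h4, h5⟩ := hs.ex d hd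
        exact ⟨P, h1, h2, h3, fun h6 => h4 (Finset.mem_insert_of_mem h6), h5⟩
    · obtain ⟨P, h1, h2, h3, h4, h5⟩ := hs.exl
      exact ⟨P, h1, h2, h3, fun h6 => h4 (Finset.mem_insert_of_mem h6), h5⟩
    · intro P hP
      have h1 := hs.cls P (Finset.mem_insert_of_mem hP)
      have hPQ : P ≠ Q := fun h2 => hQS (h2 ▸ hP)
      rwa [Function.update_of_ne hPQ] at h1
    · have h1 := hs.phi
      rw [List.length_cons]
      omega

/-- The number of products. -/
theorem card_EX (hI : Inv φ Bad) (hT : ∀ P ∈ T', Irreducible P ∧ P ∣ Bad) {n ℓ m r : ℕ} {c₁ : ℝ}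
    (hc : 0 < c₁)
    (hst : ∀ (S : Finset k[X]) (u : k[X] → k[X]) (Y : k[X]), St Bad S u Y → Y.natDegree ≤ n →
      ∀ m₁ : ℕ, ℓ ≤ m₁ → c₁ * (Nat.card k : ℝ) ^ m₁ / m₁ ≤ ((stS φ Bad S u m₁).card : ℝ))
    (hla : ∀ (S : Finset k[X]) (u : k[X] → k[X]) (Y : k[X]), St Bad S u Y → Y.natDegree ≤ n →
      S.card ≤ r → ∀ η : k[X] → Prop,
      c₁ * (1 / 2) ^ r * (Nat.card k : ℝ) ^ m / m ≤ ((laS φ Bad T' S u η m).card : ℝ))
    (ms : List ℕ) : ∀ (S : Finset k[X]) (u : k[X] → k[X]) (Y : k[X]), St Bad S u Y →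
      Y.natDegree + ms.sum ≤ n → S.card + ms.length ≤ r → ms.Nodup → m ∉ ms →
      (∀ d ∈ ms, ℓ ≤ d) →
      (ms.map fun d : ℕ => c₁ * (Nat.card k : ℝ) ^ d / (d : ℝ)).prod *
        (c₁ * (1 / 2) ^ r * (Nat.card k : ℝ) ^ m / m) ≤
        ((EX φ Bad T' m ms S u Y).card : ℝ) := by
  induction ms with
  | nil =>
    intro S u Y h hn hr _ _ _
    rw [List.map_nil, List.prod_nil, one_mul]
    unfold EX
    rw [Finset.card_image_of_injective _ (mul_right_injective₀ h.mon.ne_zero)]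
    exact hla S u Y h (by simpa using hn) (by simpa using hr) _
  | cons m₁ ms ih =>
    intro S u Y h hn hr hnd hm hl
    rw [List.sum_cons] at hn
    rw [List.length_cons] at hr
    rw [List.nodup_cons] at hnd
    rw [List.mem_cons, not_or] at hm
    rw [List.map_cons, List.prod_cons]
    unfold EX
    rw [Finset.card_biUnion]
    · push_cast
      set B : ℝ := (ms.map fun d : ℕ => c₁ * (Nat.card k : ℝ) ^ d / (d : ℝ)).prod *
        (c₁ * (1 / 2) ^ r * (Nat.card k : ℝ) ^ m / m) with hB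
      have hB0 : 0 ≤ B := by
        rw [hB]
        refine mul_nonneg (List.prod_nonneg ?_) (by positivity)
        intro x hx
        rw [List.mem_map] at hx
        obtain ⟨d, -, rfl⟩ := hx
        positivity
      have h1 : ∀ Q ∈ stS φ Bad S u m₁,
          B ≤ ((EX φ Bad T' m ms (insert Q S) (Function.update u Q 1) (Y * Q)).card : ℝ) := by
        intro Q hQ
        unfold stS at hQ
        rw [Finset.mem_filter, mem_irrD] at hQ
        obtain ⟨⟨hQm, hQi, hQd⟩, hQS, hQb, hφ⟩ := hQ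
        have h1Q : ¬ Q ∣ (1 : k[X]) := fun h1 => hQi.not_isUnit (isUnit_of_dvd_one h1)
        refine ih _ _ _ (h.step hQm hQi hQS hQb h1Q) ?_ ?_ hnd.2 hm.2
          (fun d hd => hl d (List.mem_cons_of_mem _ hd))
        · rw [h.mon.natDegree_mul hQm, hQd]
          omega
        · rw [Finset.card_insert_of_notMem hQS]
          omega
      calc c₁ * (Nat.card k : ℝ) ^ m₁ / m₁ * (ms.map fun d : ℕ => c₁ * (Nat.card k : ℝ) ^ d / (d : ℝ)).prod *
            (c₁ * (1 / 2) ^ r * (Nat.card k : ℝ) ^ m / m)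
          = c₁ * (Nat.card k : ℝ) ^ m₁ / m₁ * B := by rw [hB]; ring
        _ ≤ ((stS φ Bad S u m₁).card : ℝ) * B :=
            mul_le_mul_of_nonneg_right (hst S u Y h (by omega) m₁ (hl m₁ (by simp))) hB0
        _ = ∑ Q ∈ stS φ Bad S u m₁, B := by rw [Finset.sum_const, nsmul_eq_mul]
        _ ≤ _ := Finset.sum_le_sum h1
    · intro Q hQ Q' hQ' hne
      rw [Function.onFun, Finset.disjoint_left]
      intro D hD hD'
      apply hne
      rw [Finset.mem_coe] at hQ hQ'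
      unfold stS at hQ hQ'
      rw [Finset.mem_filter, mem_irrD] at hQ hQ'
      obtain ⟨⟨hQm, hQi, hQd⟩, hQS, hQb, hφ⟩ := hQ
      obtain ⟨⟨hQm', hQi', hQd'⟩, hQS', hQb', hφ'⟩ := hQ'
      have h1Q : ∀ Q : k[X], Irreducible Q → ¬ Q ∣ (1 : k[X]) := fun Q hQi h1 =>
        hQi.not_isUnit (isUnit_of_dvd_one h1)
      have s1 := spec hI hT m ms _ _ _ (h.step hQm hQi hQS hQb (h1Q Q hQi)) D hD
      have s2 := spec hI hT m ms _ _ _ (h.step hQm' hQi' hQS' hQb' (h1Q Q' hQi')) D hD'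
      rcases s1.new Q' hQm' hQi' ((dvd_mul_left _ _).trans s2.dvd) with h4 | h4 | h4
      · rw [Finset.mem_insert] at h4
        exact (h4.resolve_right hQS').symm
      · rw [hQd'] at h4
        exact absurd h4 hnd.1
      · rw [hQd'] at h4
        exact absurd h4.symm hm.1

end ex

end Run7.h875.TS
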