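import Pool.Agent.Run7.h875.TS.Stm

/-!
# Simultaneous twists: statements of the pieces (counting side)

Project TS (helper875), problem MP_48b749_nt.
-/

set_option autoImplicit false
set_option linter.all false

open Polynomial IsDedekindDomain
open Pool.Agent.N874.PP Pool.Agent.TH115.GD
open scoped Classical

namespace Run7.h875.TS

/-- The family of curves: `X ^ 3 + a i X + b i` is irreducible, `p i` divides the discriminant of the
`i`-th curve exactly once and does not divide the others. -/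
structure Data {k ι : Type} [Field k] (a b p : ι → k[X]) : Prop where
  irr : ∀ i, Irreducible (X ^ 3 + C (a i) * X + C (b i) : k[X][X])
  pirr : ∀ i, Irreducible (p i)
  pd : ∀ i, p i ∣ dsc (a i) (b i)
  pnd : ∀ i, ¬ (p i) ^ 2 ∣ dsc (a i) (b i)
  pne : ∀ i j, i ≠ j → ¬ p i ∣ dsc (a j) (b j)

section finite

variable {k F : Type} [Field k] [Field F] [Fintype F] [Algebra k F]

/-- The zeros in `F` of `X ^ 3 + a X + b` at `t`. -/
noncomputable def rts (a b : k[X]) (t : F) : Finset F :=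
  Finset.univ.filter fun c => c ^ 3 + aeval t a * c + aeval t b = 0

/-- The value of `z 0 + z 1 θ + z 2 θ ^ 2` at the point `(t, c)`. -/
noncomputable def zev (t c : F) (z : Fin 3 → k[X]) : F :=
  aeval t (z 0) + aeval t (z 1) * c + aeval t (z 2) * c ^ 2

/-- The quadratic character of `F` with values in `ℝ`. -/
noncomputable def chi (x : F) : ℝ := (quadraticChar F x : ℤ)

end finite

/-- The value of a polynomial in two variables at `(t, y)`. -/
noncomputable def ev2 {k F : Type} [Field k] [CommRing F] [Algebra k F] (t y : F) (H : k[X][X]) : F :=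
  H.eval₂ (aeval t : k[X] →ₐ[k] F).toRingHom y

/-- Number of elements, as a real number. -/
noncomputable def cd (F : Type) : ℝ := Nat.card F

/-! ### Plane curves -/

/-- A geometrically irreducible separable plane curve. -/
structure IsPC {k : Type} [Field k] (H : k[X][X]) (D : k[X]) : Prop where
  monic : H.Monic
  pos : 0 < H.natDegree
  ne : D ≠ 0
  disc : ∃ A B : k[X][X], A * H + B * derivative H = C D
  irr : ∀ (k' : Type) [Field k'] [IsAlgClosed k'] [Algebra k k'] [Algebra.IsAlgebraic k k'],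
    Irreducible (H.map (mapRingHom (algebraMap k k')))

/-- `g` is a square in the function field of `H` over `k'`. -/
def GSq {k : Type} [Field k] (k' : Type) [Field k'] [Algebra k k'] (H g : k[X][X]) : Prop :=
  ∃ (u : k'[X][X]) (w : k'[X]), w ≠ 0 ∧
    H.map (mapRingHom (algebraMap k k')) ∣ C (w ^ 2) * g.map (mapRingHom (algebraMap k k')) - u ^ 2

/-- `H` is a model of the compositum of the cubic fields with indices in `J`: at the `t` with
`D(t) ≠ 0`, `y ↦ (e_j(t, y) / D(t))` is a bijection onto the tuples of zeros. -/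
structure IsModel {k ι : Type} [Field k] (a b : ι → k[X]) (J : Finset ι) (H : k[X][X]) (D : k[X])
    (e : ι → k[X][X]) : Prop where
  pc : IsPC H D
  deg : H.natDegree = 3 ^ J.card
  edeg : ∀ j ∈ J, (e j).natDegree < H.natDegree
  root : ∀ j ∈ J, H ∣ e j ^ 3 + C (a j * D ^ 2) * e j + C (b j * D ^ 3)
  bij : ∀ (F : Type) [Field F] [Finite F] [Algebra k F] (t : F), aeval t D ≠ 0 →
    (∀ y : F, ev2 t y H = 0 → ∀ j ∈ J, (ev2 t y (e j) / aeval t D) ^ 3 +
      aeval t (a j) * (ev2 t y (e j) / aeval t D) + aeval t (b j) = 0) ∧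
    ∀ c : ι → F, (∀ j ∈ J, c j ^ 3 + aeval t (a j) * c j + aeval t (b j) = 0) →
      ∃! y : F, ev2 t y H = 0 ∧ ∀ j ∈ J, ev2 t y (e j) / aeval t D = c j

/-- **MODEL** (about 500 lines).

Proof. For `k'` algebraically closed, algebraic over `k`: (1) `f_j` is irreducible over `k'(X)`: else it has
a zero there, in `k'[X]`, exactly one since `- dsc_j` is not a square (valuation at a zero `τ` of `p j`;
`k` is perfect, so `p j` has simple zeros), so it is fixed by the Frobenius map and lies in `k[X]`.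
(2) For `j ∉ J`, `f_j` is irreducible over the compositum `N_J` of `k'(X)(θ_i)`, `i ∈ J`: let `M` be the
splitting field of `∏_{i ∈ J} f_i` over `k'(X)`. If `f_j` had a zero in `N_J ⊆ M` then `f_j` would split in `M`,
so `- dsc_j` would be a square in `M`. But `M` embeds in `k'((X - τ))`, `τ` a zero of `p j` (Hensel: the `f_i`,
`i ≠ j`, have distinct zeros at `τ`), where `dsc_j` has valuation one. So `[N_J : k'(X)] = 3 ^ |J|`.
(3) Primitive element `y = ∑ c_j θ_j`, `c_j ∈ k[X]` (all `3 ^ |J|` conjugates distinct; `k[X]` is infinite),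
`H` its minimal polynomial over `k[X]` (integrally closed), `θ_j = e_j(y) / D` with a common
denominator `D`, divisible by the `dsc_j`, `j ∈ J`, and with `A H + B H' = C D`. (4) The map
`y₀ ↦ (e_j(t, y₀) / D(t))` is well defined (reduce `root`), injective since
`D Y - ∑ c_j e_j` is divisible by `H`; over the algebraic closure of `F` both sides have `3 ^ |J|` elements;
it commutes with the Frobenius map. (For `J = ∅` take `H = Y`, `D = 1`.) -/
def S_MODEL : Prop := ∀ (k ι : Type) [Field k] [Finite k] [Finite ι] (a b p : ι → k[X]), (6 : k) ≠ 0 →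
  Data a b p → ∀ J : Finset ι, ∃ (H : k[X][X]) (D : k[X]) (e : ι → k[X][X]), IsModel a b J H D e

/-- **DOUBLE** (about 500 lines). The Weil bound for quadratic characters, linear in the degree of `g`.

Proof. Let `n = deg_Y H`, and `M` the companion matrix of `H` (over `k[X]`); for `c = X ^ j` let
`G(Y) = det((Y - c M) ^ 2 - g(M))` in `k[X][Y]`, monic of degree `2 n`, all coefficients of degree
`≤ C (1 + N)`. Over the algebraic closure `Ω` of `k'(X)`: `G = ∏_ρ ((Y - c ρ) ^ 2 - g(ρ))`, `ρ` the zeros of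
`H`; for one of finitely many `j` (bounded in terms of `n`) all `c ρ ± √g(ρ)` are different; then `G`
is the minimal polynomial of `c ρ + √g(ρ)` over `k'(X)`, as this element generates `k'(X)(ρ, √g(ρ))`, of
degree `2 n` (`¬ GSq`). Let `D'` be the discriminant (resultant) of `G`, of degree `≤ C (1 + N)`. If
`D(t) D'(t) ≠ 0`, the number of zeros `y'` of `G(t, ·)` in `F` is the number of pairs `(y, s)` in `F` with
`H(t, y) = 0`, `s ^ 2 = g(t, y)` (`(y, s) ↦ c y + s` is injective on the algebraic closure). So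
`∑ (1 + χ(g(t, y))) = |F| + O((1 + N) √|F|)` by `Pool.Agent.R410.PW.weil` for `G`, and
`∑ 1 = |F| + O(√|F|)` by `weil` for `H`. (`WC (2 n) d δ` is linear in `d` and `δ`.) -/
def S_DOUBLE : Prop := ∀ (k : Type) [Field k] [Finite k] (H : k[X][X]) (D : k[X]), (2 : k) ≠ 0 →
  IsPC H D → ∃ C₀ : ℕ,
    (∀ (F : Type) [Field F] [Fintype F] [Algebra k F],
      |((Finset.univ.filter fun z : F × F => ev2 z.1 z.2 H = 0).card : ℝ) - cd F| ≤
        C₀ * √(cd F)) ∧
    ∀ (g : k[X][X]) (N : ℕ), g.natDegree ≤ 2 * H.natDegree → (∀ i, (g.coeff i).natDegree ≤ N) →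
      (∀ (k' : Type) [Field k'] [IsAlgClosed k'] [Algebra k k'] [Algebra.IsAlgebraic k k'],
        ¬ GSq k' H g) →
      ∀ (F : Type) [Field F] [Fintype F] [Algebra k F],
        |∑ z ∈ Finset.univ.filter fun z : F × F => ev2 z.1 z.2 H = 0, chi (ev2 z.1 z.2 g)| ≤
          C₀ * (1 + N) * √(cd F)

/-- **NSQ** (about 350 lines). Nonsquares stay nonsquares in the compositum.

Proof. The field `N` of `H` over `k'` is an extension of odd degree of `k'(X)` and of `k'(X)(θ_i)` (degree
three, it is a field by `S_MODEL` for `{i}`, or since `f_i` is irreducible over `k'(X)`), so an element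
of `k'(X)(θ_i)` which is a square in `N` is a square there. If `α` in `L = K(θ)` is a square in
`k' L = k'(X)(θ_i)`, `α = y ^ 2`, then the Frobenius map `σ` (or any generator of the Galois group of
`k' L / L`; work in a finite extension `k''` of `k` containing the coefficients) has `σ y = ± y`, so
`y ∈ L` or `y √ε ∈ L`, `ε` a nonsquare of `k`: `α ∈ L ^ 2` or `α ∈ ε L ^ 2`. The same for `A` in `k[X]`. -/
def S_NSQ : Prop := ∀ (k ι : Type) [Field k] [Finite k] [Finite ι] (a b p : ι → k[X]), (6 : k) ≠ 0 →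
  Data a b p → ∀ (J : Finset ι) (H : k[X][X]) (D : k[X]) (e : ι → k[X][X]), IsModel a b J H D e →
  (∀ A : k[X], (∀ (c : k) (y : k[X]), A ≠ C c * y ^ 2) →
    ∀ (k' : Type) [Field k'] [IsAlgClosed k'] [Algebra k k'] [Algebra.IsAlgebraic k k'],
      ¬ GSq k' H (C A)) ∧
  ∀ i ∈ J, ∀ (K L : Type) [Field K] [Algebra k[X] K] [IsFractionRing k[X] K]
    [Field L] [Algebra K L] [Algebra k[X] L] [IsScalarTower k[X] K L] (θ : L),
    IsCub K (a i) (b i) θ → ∀ (z : Fin 3 → k[X]) (α : L), Crd θ z α →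
    (∀ (c : k) (y : L), α ≠ algebraMap k[X] L (C c) * y ^ 2) →
    ∀ (k' : Type) [Field k'] [IsAlgClosed k'] [Algebra k k'] [Algebra.IsAlgebraic k k'],
      ¬ GSq k' H (C (D ^ 2 * z 0) + C (D * z 1) * e i + C (z 2) * e i ^ 2)

/-- **W** (about 250 lines, from MODEL, DOUBLE, NSQ): the estimates needed. Only the `t` with `D(t) = 0`
are exceptional. For the last part reduce `g = D ^ 2 z₀ + D z₁ e + z₂ e ^ 2` modulo `H` (monic) or use
the bound `2 deg H`. -/
def S_W : Prop := ∀ (k ι : Type) [Field k] [Finite k] [Finite ι] (a b p : ι → k[X]), (6 : k) ≠ 0 →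
  Data a b p → ∃ C₀ : ℕ, ∀ (J : Finset ι),
  (∀ (F : Type) [Field F] [Fintype F] [Algebra k F],
    |(∑ t : F, ∏ j ∈ J, ((rts (a j) (b j) t).card : ℝ)) - cd F| ≤ C₀ * √(cd F)) ∧
  (∀ A : k[X], (∀ (c : k) (y : k[X]), A ≠ C c * y ^ 2) →
    ∀ (F : Type) [Field F] [Fintype F] [Algebra k F],
    |∑ t : F, chi (aeval t A) * ∏ j ∈ J, ((rts (a j) (b j) t).card : ℝ)| ≤
      C₀ * (1 + A.natDegree) * √(cd F)) ∧
  ∀ i, i ∉ J → ∀ (K L : Type) [Field K] [Algebra k[X] K] [IsFractionRing k[X] K]
    [Field L] [Algebra K L] [Algebra k[X] L] [IsScalarTower k[X] K L] (θ : L),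
    IsCub K (a i) (b i) θ → ∀ (z : Fin 3 → k[X]) (α : L) (N : ℕ), Crd θ z α →
    (∀ l, (z l).natDegree ≤ N) →
    (∀ (c : k) (y : L), α ≠ algebraMap k[X] L (C c) * y ^ 2) →
    ∀ (F : Type) [Field F] [Fintype F] [Algebra k F],
    |∑ t : F, ∑ c ∈ rts (a i) (b i) t, chi (zev t c z) * ∏ j ∈ J, ((rts (a j) (b j) t).card : ℝ)| ≤
      C₀ * (1 + N) * √(cd F)

/-- **STK** (about 100 lines). Stickelberger: the parity of the number of zeros. -/
def S_STK : Prop := ∀ (k F : Type) [Field k] [Field F] [Fintype F] [Algebra k F] (a b : k[X]) (t : F),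
  (6 : k) ≠ 0 → aeval t (dsc a b) ≠ 0 →
  (chi (- aeval t (dsc a b)) = 1 ∧ ((rts a b t).card = 0 ∨ (rts a b t).card = 3)) ∨
  (chi (- aeval t (dsc a b)) = -1 ∧ (rts a b t).card = 1)

/-! ### Primes -/

theorem fin_irr (k : Type) [Field k] [Finite k] (m : ℕ) :
    {Q : k[X] | Q.Monic ∧ Irreducible Q ∧ Q.natDegree = m}.Finite := by
  refine Set.Finite.subset (s := (fun c : Fin (m + 1) → k => ∑ i : Fin (m + 1), C (c i) * X ^ (i : ℕ)) ''
    Set.univ) (Set.finite_univ.image _) ?_
  rintro Q ⟨-, -, h⟩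
  refine ⟨fun i => Q.coeff i, trivial, ?_⟩
  simp only
  rw [Finset.sum_range (f := fun i => C (Q.coeff i) * X ^ i) |>.symm, ← h]
  exact Q.as_sum_range_C_mul_X_pow.symm

/-- The monic irreducible polynomials of degree `m`. -/
noncomputable def irrD (k : Type) [Field k] [Finite k] (m : ℕ) : Finset k[X] :=
  (fin_irr k m).toFinset

/-- **TRS** (about 150 lines). A field `F` of degree `m` over `k`; sums over the primes of degree `m` are
sums over the elements of degree `m` (each prime has `m` zeros in `F`), the others are few. -/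
def S_TRS : Prop := ∀ (k : Type) [Field k] [Finite k] (m : ℕ), 0 < m →
  ∃ (F : Type) (_ : Field F) (_ : Fintype F) (_ : Algebra k F), Module.finrank k F = m ∧
    cd F = (Nat.card k : ℝ) ^ m ∧
    (∀ φ : k[X] → ℝ, (m : ℝ) * ∑ Q ∈ irrD k m, φ Q =
      ∑ t ∈ Finset.univ.filter fun t : F => (minpoly k t).natDegree = m, φ (minpoly k t)) ∧
    ((Finset.univ.filter fun t : F => (minpoly k t).natDegree ≠ m).card : ℝ) ≤ 2 * √(cd F)

/-- **DIC** (about 350 lines). The dictionary between the prime `Q = minpoly t` and the zeros at `t`.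

Proof. `F = k(t) = k[X] / Q`, so zeros of `X ^ 3 + a(t) X + b(t)` in `F` are the `c(t)` with `RtM a b Q c`. Each
such `c` has one prime `𝔓_c` over `Q` with `θ ≡ c`, residue field `F`; for `α` with valuation `0` there,
`α` is a square at `𝔓_c` if and only if `z(t, c)` is a square in `F`. With exactly one zero there is one more
prime, `𝔮`, of degree two, where the class is determined by the norm (see N862/PP/Exq.lean, Ns.lean,
Par.lean: `S_EXQ`, `S_NS`, stated there for `Q ∣ b`; here after `X ↦ X + c`). With three zeros the norm gives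
the product. With no zero there is one prime, of degree three, at which every `α` with even valuation
and norm a square is a square. -/
def S_DIC : Prop := ∀ (k K L O : Type) [Field k] [Finite k] [Field K] [Algebra k[X] K]
  [IsFractionRing k[X] K]
  [Field L] [Algebra K L] [Algebra k[X] L] [IsScalarTower k[X] K L] [CommRing O]
  [IsDedekindDomain O] [Algebra O L] [IsFractionRing O L] [Algebra k[X] O]
  [IsScalarTower k[X] O L] [IsIntegralClosure O k[X] L] (a b : k[X]) (θ : L),
  (6 : k) ≠ 0 → IsCub K a b θ → ∀ (F : Type) [Field F] [Fintype F] [Algebra k F] (t : F),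
  (minpoly k t).natDegree = Module.finrank k F → ¬ minpoly k t ∣ dsc a b →
  ((rts a b t).card = 0 → Ty3 a b (minpoly k t)) ∧
  ((rts a b t).card = 1 → Ty12 a b (minpoly k t)) ∧
  ∀ (α : L) (z : Fin 3 → k[X]), α ≠ 0 → IsSquare (Algebra.norm K α) →
    (∀ 𝔓 : HeightOneSpectrum O, Ov (minpoly k t) 𝔓 → Ev 𝔓 α) → Crd θ z α →
    (∀ c ∈ rts a b t, zev t c z ≠ 0) →
    (Tr O (minpoly k t) α ↔ ∀ c ∈ rts a b t, chi (zev t c z) = 1) ∧
    ((rts a b t).card = 3 → ∏ c ∈ rts a b t, chi (zev t c z) = 1)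

/-! ### The first moment -/

/-- The degree of the set `S`. -/
noncomputable def dg {k : Type} [Field k] (S : Finset k[X]) : ℕ := ∑ P ∈ S, P.natDegree

/-- **ONE** (about 450 lines, from W, STK, TRS, DIC, STEP, REP). The average of the order of the Selmer
group after one step is at most `3 / 4` of the old one plus `5 / 4`.

Proof. Let `G = SelG S u`, `s` its order modulo squares, `z_α` small representatives of its classes (REP), `F`
as in TRS, `t` in `F` of degree `m` with `dsc(t) ≠ 0`, `Q = minpoly t` not in `S`, `sgn = χ(- dsc(t))`,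
`X(t) = ∑_α ∑_c χ(z_α(t, c))` over `α` in `G / squares` and the zeros `c`. Up to an error
`E(t) ≤ 6 #{(α, c) : z_α(t, c) = 0}` (whose sum over `t` is `≤ s C (1 + dg S)`, zeros of the norms):
* no zeros (`sgn = 1`, `X = 0`): `sz G' ≤ s`;
* one zero (`sgn = -1`): `sz G' ≤ 3 sz (G ⊓ T) - s` (STEP) and `2 sz (G ⊓ T) = s + X(t)`, since
  `1 + χ = 2` or `0`: `sz G' ≤ s / 2 + 3 X / 2`;
* three zeros: `sz G' ≤ 4 sz (G ⊓ T)`, and `4 sz (G ⊓ T) = s + X(t)`, since `1 + ∑_c χ = 4` or `0` (the product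
  of the three signs is one).
So `sz G' ≤ s (3 + sgn) / 4 + X (5 - sgn) / 4` in all cases. Sum over `t`: W with `J = ∅` and `J = {i}`,
`A = - dsc`, and `z_α`, `- dsc z_α` (for `α` not a square: if `α = c y ^ 2` or `- dsc α = c y ^ 2` then the norm
gives that `c`, resp. `c dsc`, is a square in `K`, so `α` is a square, resp. impossible by `p`). The class
of the squares gives `5 / 4`. The `t` of smaller degree, or with `dsc(t) = 0`, or with `minpoly t` in `S`
(these are at most `dg S`) contribute at most `6 s` each to the comparison. -/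
def S_ONE : Prop := ∀ (k K L O : Type) [Field k] [Finite k] [Field K] [Algebra k[X] K]
  [IsFractionRing k[X] K]
  [Field L] [Algebra K L] [Algebra k[X] L] [IsScalarTower k[X] K L] [CommRing O]
  [IsDedekindDomain O] [Algebra O L] [IsFractionRing O L] [Algebra k[X] O]
  [IsScalarTower k[X] O L] [IsIntegralClosure O k[X] L] (a b : k[X]) (θ : L),
  (6 : k) ≠ 0 → ∀ h : IsCub K a b θ,
  (∃ p : k[X], Irreducible p ∧ p ∣ dsc a b ∧ ¬ p ^ 2 ∣ dsc a b) →
  ∃ C₀ : ℕ, ∀ (S : Finset k[X]) (u : k[X] → k[X]), GoodT a b S u → ∀ w : k[X] → k[X],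
    (∀ Q : k[X], Irreducible Q → ¬ Q ∣ w Q) → ∀ m : ℕ, 0 < m →
    (m : ℝ) * ∑ Q ∈ (irrD k m).filter (fun Q => Q ∉ S ∧ ¬ Q ∣ dsc a b),
        (sz (SelG h O (insert Q S) (Function.update u Q (w Q))) : ℝ) ≤
      (3 / 4 * sz (SelG h O S u) + 5 / 4) * (Nat.card k : ℝ) ^ m +
        C₀ * (1 + dg S) * √((Nat.card k : ℝ) ^ m) * sz (SelG h O S u)

/-- A polynomial which is not a square modulo `P`. -/
def NRs {k : Type} [Field k] (g : k[X] → k[X]) : Prop :=
  ∀ P : k[X], Irreducible P → ∀ z : k[X], ¬ P ∣ z ^ 2 - g P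

/-- The choice of the local classes given by the subset `T`. -/
noncomputable def uT {k : Type} [Field k] (g : k[X] → k[X]) (T : Finset k[X]) (P : k[X]) : k[X] :=
  if P ∈ T then g P else 1

/-- The monic squarefree polynomials of degree `N` prime to `B`. -/
def sqf {k : Type} [Field k] (B : k[X]) (N : ℕ) : Set k[X] :=
  {D | D.Monic ∧ D.natDegree = N ∧ Squarefree D ∧ IsCoprime D B}

/-- **AVG** (about 350 lines, from ONE and STEP). The average over all `D` of degree `N` and all choices of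
local classes is bounded.

Proof. Let `A(D) = 2 ^ (-ω(D)) ∑_{T ⊆ prD D} sz (SelG (prD D) (uT g T))`. For `Q` not dividing `D`:
`A(D Q)` is the average over `w Q = 1` and `w Q = g Q` of `2 ^ (-ω(D)) ∑_T sz (SelG (insert Q ..) (update ..))`
(`SelG` depends only on the values of `u` on `S`). So ONE gives
`m ∑_Q A(D Q) ≤ q ^ m (3/4 A(D) + 5/4) + C (1 + N) q ^ (m/2) A(D)` if `deg D ≤ N`. With `M = C' log N`
(or `M = √N`): for `m ≥ M` this is `≤ q ^ m (0.8 A(D) + 5/4)`; for `m < M`: `m ∑_Q A(D Q) ≤ 4 q ^ m A(D)`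
(STEP and `m |irrD m| ≤ q ^ m`). As `N = ∑_{Q ∣ D} deg Q`, `τ(N) = q ^ (-N) ∑_{deg D = N} A(D)` satisfies
`N τ(N) ≤ ∑_{M ≤ m ≤ N} (0.8 τ(N - m) + 5/4) + 4 ∑_{m < M} τ(N - m)`, so `τ` is bounded by induction. -/
def S_AVG : Prop := ∀ (k K L O : Type) [Field k] [Finite k] [Field K] [Algebra k[X] K]
  [IsFractionRing k[X] K]
  [Field L] [Algebra K L] [Algebra k[X] L] [IsScalarTower k[X] K L] [CommRing O]
  [IsDedekindDomain O] [Algebra O L] [IsFractionRing O L] [Algebra k[X] O]
  [IsScalarTower k[X] O L] [IsIntegralClosure O k[X] L] (a b : k[X]) (θ : L),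
  (6 : k) ≠ 0 → ∀ h : IsCub K a b θ,
  (∃ p : k[X], Irreducible p ∧ p ∣ dsc a b ∧ ¬ p ^ 2 ∣ dsc a b) →
  ∀ g : k[X] → k[X], NRs g → ∃ B : ℝ, ∀ N : ℕ,
    ∑ᶠ D ∈ sqf (dsc a b) N, (1 / 2 : ℝ) ^ (prD D).card *
      ∑ T ∈ (prD D).powerset, (sz (SelG h O (prD D) (uT g T)) : ℝ) ≤ B * (Nat.card k : ℝ) ^ N

/-- **KILL** (about 350 lines, from W, STK, TRS, DIC). Many primes `Q` which are inert for all curves but
the `i`-th, have exactly one zero for the `i`-th, and at which `α` is not trivial.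

Proof. With `n_j` the number of zeros, `sgn_j = χ(- dsc_j)`: `1[n_j = 0] = (2 + sgn_j - n_j) / 3 ` (values
`3, 0, 0` for `n_j = 0, 1, 3`) and, for `c` the zero, `1[n_i = 1, χ(z(t,c)) = -1] =
∑_c (1 - sgn_i) (1 - χ(z(t, c))) / 4`. Expand; the main term is `|F| (2 - 1) ^ (|ι| - 1)`, all others have
characters of `α ∏_{j ∈ B} (- dsc_j)` or of `∏_{j ∈ B} (- dsc_j)`, `B ≠ ∅`, which are not constants times
squares (norms and the `p j`; `α` has square norm and is not a square). Zeros of the norm of `α`: at most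
`C (1 + N)` values `t`. -/
def S_KILL : Prop := ∀ (k ι : Type) [Field k] [Finite k] [Finite ι] (a b p : ι → k[X]), (6 : k) ≠ 0 →
  Data a b p → ∃ (c₀ : ℝ) (C₀ : ℕ), 0 < c₀ ∧ ∀ i, ∀ (K L O : Type) [Field K] [Algebra k[X] K]
    [IsFractionRing k[X] K]
    [Field L] [Algebra K L] [Algebra k[X] L] [IsScalarTower k[X] K L] [CommRing O]
    [IsDedekindDomain O] [Algebra O L] [IsFractionRing O L] [Algebra k[X] O]
    [IsScalarTower k[X] O L] [IsIntegralClosure O k[X] L] (θ : L), IsCub K (a i) (b i) θ →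
    ∀ (α : L) (z : Fin 3 → k[X]) (N : ℕ), α ≠ 0 → IsSquare (Algebra.norm K α) → ¬ IsSquare α →
      Crd θ z α → (∀ l, (z l).natDegree ≤ N) → ∀ m : ℕ, 0 < m →
      c₀ * (Nat.card k : ℝ) ^ m / m - C₀ * (1 + N) * √((Nat.card k : ℝ) ^ m) ≤
        (((irrD k m).filter fun Q => (∀ j, ¬ Q ∣ dsc (a j) (b j)) ∧
          (∀ j, j ≠ i → Ty3 (a j) (b j) Q) ∧ Ty12 (a i) (b i) Q ∧ ¬ Tr O Q α).card : ℝ)

/-- **LAST** (about 350 lines, from W, STK, TRS, reciprocity). Many primes `Q` which are inert for all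
curves, with prescribed quadratic characters modulo the elements of a set `S` of primes.

Proof. `1[n_j = 0] = (2 + sgn_j - n_j) / 3`, and by quadratic reciprocity in `k[X]` (in the tree: search
`reciprocity`, used in N368/PP/Hp.lean) `Q` is a square modulo `P` iff `χ(P(t)) = ± 1` with a sign depending
on `m`, `deg P` only. Expand `∏ (1 ± χ(P(t))) / 2` over the subsets; `∏_{P ∈ A} P ∏_{j ∈ B} (- dsc_j)` is not
a constant times a square unless `A = B = ∅`: valuation at `p j`, `j ∈ B`, resp. at `P` in `A`. -/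
def S_LAST : Prop := ∀ (k ι : Type) [Field k] [Finite k] [Finite ι] (a b p : ι → k[X]), (6 : k) ≠ 0 →
  Data a b p → ∃ (c₀ : ℝ) (C₀ : ℕ), 0 < c₀ ∧ ∀ (S : Finset k[X]) (η : k[X] → Prop),
    (∀ P ∈ S, P.Monic ∧ Irreducible P ∧ ∀ i, ¬ P ∣ p i) → ∀ m : ℕ, 0 < m →
      c₀ * (1 / 2) ^ S.card * (Nat.card k : ℝ) ^ m / m -
          C₀ * (1 + dg S) * √((Nat.card k : ℝ) ^ m) ≤
        (((irrD k m).filter fun Q => (∀ j, ¬ Q ∣ dsc (a j) (b j) ∧ Ty3 (a j) (b j) Q) ∧ Q ∉ S ∧
          ∀ P ∈ S, (∃ z : k[X], P ∣ z ^ 2 - Q) ↔ η P).card : ℝ)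

/-- **SQF** (about 200 lines). Squarefree polynomials prime to `B` have positive density.

Proof: for `N ≥ deg B` exactly `q ^ (N - deg B) φ` monic `D` of degree `N` are prime to `B`, `φ ≥ 1` the number
of residues prime to `B`; of these at most `q ^ (N - 2 deg P - deg B) φ` are divisible by `P ^ 2`, `P` prime to
`B`, if `2 deg P ≤ N - deg B`, and at most `q ^ (N - 2 deg P)` in general; `∑_P q ^ (- 2 deg P) ≤
∑_m q ^ (- m) / m < 1 / 2` and `∑_{2 deg P > N - deg B} q ^ (N - 2 deg P) = o(q ^ N)`. (Search the tree for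
existing counts of squarefree polynomials first.) -/
def S_SQF : Prop := ∀ (k : Type) [Field k] [Finite k], (6 : k) ≠ 0 → ∀ B : k[X], B ≠ 0 →
  (∀ N, (sqf B N).Finite) ∧ ∃ c : ℝ, 0 < c ∧ ∃ N₀ : ℕ, ∀ N ≥ N₀,
    c * (Nat.card k : ℝ) ^ N ≤ ((sqf B N).ncard : ℝ)

/-! ### The theorem -/

/-- The twists `D` for which all the curves have finitely many points (an odd number) and no 2-primary
part of the Tate-Shafarevich group. -/
def Good {k ι : Type} [Field k] (K : Type) [Field K] [Algebra k[X] K] [IsFractionRing k[X] K]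
    (a b : ι → k[X]) (D : k[X]) : Prop :=
  ∀ i, Finite (Pt (sW (algebraMap k[X] K (a i * D ^ 2)) (algebraMap k[X] K (b i * D ^ 3))) K) ∧
    Odd (Nat.card (Pt (sW (algebraMap k[X] K (a i * D ^ 2))
      (algebraMap k[X] K (b i * D ^ 3))) K)) ∧
    ShaTwo k (sW (algebraMap k[X] K (a i * D ^ 2)) (algebraMap k[X] K (b i * D ^ 3)))

/-- **FIN**, the theorem (about 500 lines, from AVG, KILL, LAST, STEP, CLSU, CONC). -/
def S_FIN2 : Prop := ∀ (k ι : Type) [Field k] [Finite k] [Finite ι] (a b p : ι → k[X]), (6 : k) ≠ 0 →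
  Data a b p → ∀ (K : Type) [Field K] [Algebra k[X] K] [IsFractionRing k[X] K],
  ∃ c : ℝ, 0 < c ∧ ∃ N₀ : ℕ, ∀ n ≥ N₀, Even n →
    c * (Nat.card k : ℝ) ^ n ≤
      ({D : k[X] | D.Monic ∧ D.natDegree = n ∧ Squarefree D ∧ Good K a b D}.ncard : ℝ)

end Run7.h875.TS
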