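import Pool.Agent.Run7.h875.TS.Fin1

/-!
# Simultaneous twists: the theorem
-/

set_option autoImplicit false
set_option linter.all false

open Polynomial IsDedekindDomain
open Pool.Agent.N874.PP Pool.Agent.TH115.GD
open scoped Classical

namespace Run7.h875.TS

theorem exists_NRs (k : Type) [Field k] [Finite k] (h6 : (6 : k) ≠ 0) : ∃ g : k[X] → k[X], NRs g := by
  have h : ∀ P : k[X], Irreducible P → ∃ y : k[X], ∀ z : k[X], ¬ P ∣ z ^ 2 - y := by
    intro P hP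
    haveI : Fact (Irreducible P) := ⟨hP⟩
    haveI : Finite (AdjoinRoot P) := by
      haveI : Module.Finite k (AdjoinRoot P) := (AdjoinRoot.powerBasis hP.ne_zero).finite
      exact Module.finite_of_finite k
    haveI := Fintype.ofFinite (AdjoinRoot P)
    have h2 : ringChar (AdjoinRoot P) ≠ 2 := by
      intro h2
      have h3 : ((2 : ℕ) : AdjoinRoot P) = 0 := by
        rw [← h2]
        exact ringChar.Nat.cast_ringChar
      have h4 : algebraMap k (AdjoinRoot P) 6 = 0 := by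
        rw [map_ofNat, show (6 : AdjoinRoot P) = ((2 : ℕ) : AdjoinRoot P) * 3 by norm_num, h3, zero_mul]
      exact h6 ((map_eq_zero _).1 h4)
    obtain ⟨y, hy⟩ := FiniteField.exists_nonsquare h2
    obtain ⟨y, rfl⟩ := AdjoinRoot.mk_surjective y
    refine ⟨y, fun z hz => hy ⟨AdjoinRoot.mk P z, ?_⟩⟩
    rw [← map_mul, eq_comm, AdjoinRoot.mk_eq_mk, ← pow_two]
    exact hz
  choose! g hg using h
  exact ⟨g, hg⟩

section

variable {k : Type} [Field k] [Finite k] {Bad : k[X]}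

theorem St.good {S : Finset k[X]} {u : k[X] → k[X]} {Y : k[X]} (h : St Bad S u Y) {a b : k[X]}
    (hd : dsc a b ∣ Bad) : GoodT a b S u where
  mon := fun P hP => (h.mem.1 hP).1
  irr := fun P hP => (h.mem.1 hP).2.1
  nd := fun P hP h1 => h.cop P (h.mem.1 hP).2.1 (h.mem.1 hP).2.2 (h1.trans hd)
  nu := h.nu

theorem dg_prD {Y : k[X]} (hY : Y.Monic) (hs : Squarefree Y) : dg (prD Y) = Y.natDegree := by
  unfold dg
  conv_rhs => rw [← prod_prD hY hs]
  rw [natDegree_prod_of_monic _ _ fun P hP => ((mem_prD hY.ne_zero).1 hP).1]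

theorem St.dg_eq {S : Finset k[X]} {u : k[X] → k[X]} {Y : k[X]} (h : St Bad S u Y) :
    dg S = Y.natDegree := by
  rw [← h.pr, dg_prD h.mon h.sf]

theorem St.card_le {S : Finset k[X]} {u : k[X] → k[X]} {Y : k[X]} (h : St Bad S u Y) :
    S.card ≤ Y.natDegree := by
  rw [← h.pr]
  exact card_prD h.mon h.sf

end

/-- Removing few elements. -/
theorem sub_card_le {α : Type} {A S B : Finset α} {p : α → Prop} {_ : DecidablePred p}
    (h : ∀ x ∈ A, x ∉ S → p x → x ∈ B) : ((A.filter p).card : ℝ) - S.card ≤ (B.card : ℝ) := by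
  have h1 : (A.filter p).card ≤ B.card + S.card := by
    calc (A.filter p).card ≤ (B ∪ S).card := by
          refine Finset.card_le_card fun x hx => ?_
          rw [Finset.mem_filter] at hx
          by_cases hS : x ∈ S
          · exact Finset.mem_union_right _ hS
          · exact Finset.mem_union_left _ (h x hx.1 hS hx.2)
      _ ≤ _ := Finset.card_union_le _ _
  have h2 : ((A.filter p).card : ℝ) ≤ B.card + S.card := by
    exact_mod_cast h1
  linarith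

theorem le_card' {α : Type} {A B : Finset α} {p : α → Prop} {_ : DecidablePred p}
    (h : ∀ x ∈ A, p x → x ∈ B) : ((A.filter p).card : ℝ) ≤ (B.card : ℝ) := by
  refine Nat.cast_le.2 (Finset.card_le_card fun x hx => ?_)
  rw [Finset.mem_filter] at hx
  exact h x hx.1 hx.2

theorem one_le_sqrt_pow {k : Type} [Field k] [Finite k] (m : ℕ) :
    (1 : ℝ) ≤ √((Nat.card k : ℝ) ^ m) := by
  rw [Real.one_le_sqrt]
  have : (1 : ℝ) ≤ Nat.card k := by
    have : 1 ≤ Nat.card k := Nat.one_le_iff_ne_zero.2 Finite.card_pos.ne'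
    exact_mod_cast this
  exact one_le_pow₀ this

section family

variable {k : Type} [Field k] [Finite k] {ι : Type} [Fintype ι] {a b p : ι → k[X]}
  {K : Type} [Field K] [Algebra k[X] K] [IsFractionRing k[X] K]

/-- The discriminants. -/
noncomputable def BadF (a b : ι → k[X]) : k[X] := ∏ i, dsc (a i) (b i)

theorem dsc_dvd (i : ι) : dsc (a i) (b i) ∣ BadF a b := Finset.dvd_prod_of_mem _ (Finset.mem_univ i)

theorem dsc_ne (hD : Data a b p) (i : ι) : dsc (a i) (b i) ≠ 0 := by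
  intro h
  exact hD.pnd i (h ▸ dvd_zero _)

theorem BadF_ne (hD : Data a b p) : BadF a b ≠ 0 :=
  Finset.prod_ne_zero_iff.2 fun i _ => dsc_ne hD i

theorem ndvd_BadF {Q : k[X]} (hQ : Irreducible Q) (h : ∀ i, ¬ Q ∣ dsc (a i) (b i)) : ¬ Q ∣ BadF a b := by
  intro h1
  obtain ⟨i, -, hi⟩ := (Prime.dvd_finset_prod_iff hQ.prime _).1 h1
  exact h i hi

/-- The primes with `P ^ 2 ∣ dsc`. -/
noncomputable def TpF (a b : ι → k[X]) : Finset k[X] :=
  (prD (BadF a b)).filter fun P => ∃ i, P ^ 2 ∣ dsc (a i) (b i)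

theorem TpF_spec (hD : Data a b p) {P : k[X]} (hP : P ∈ TpF a b) :
    P.Monic ∧ Irreducible P ∧ P ∣ BadF a b ∧ ∃ i, P ^ 2 ∣ dsc (a i) (b i) := by
  unfold TpF at hP
  rw [Finset.mem_filter, mem_prD (BadF_ne hD)] at hP
  exact ⟨hP.1.1, hP.1.2.1, hP.1.2.2, hP.2⟩

variable (pk : ∀ i, Pack k K (a i) (b i))

/-- The sum of the ranks. -/
noncomputable def phiF (S : Finset k[X]) (u : k[X] → k[X]) : ℕ :=
  ∑ i, psi (pk i).cub (pk i).O S u

theorem inv_phiF (hREP : S_REP) (hGRP : S_GRP) (hCLSU : S_CLSU) (h6 : (6 : k) ≠ 0) :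
    Inv (phiF pk) (BadF a b) := by
  intro S u u' h
  refine Finset.sum_le_sum fun i _ => psi_inv hREP hGRP hCLSU h6 _ ?_ ?_ ?_
  · exact ⟨fun P hP => (h P hP).1, fun P hP => (h P hP).2.1,
      fun P hP h1 => (h P hP).2.2.1 (h1.trans (dsc_dvd i)), fun P hP => (h P hP).2.2.2.1⟩
  · exact ⟨fun P hP => (h P hP).1, fun P hP => (h P hP).2.1,
      fun P hP h1 => (h P hP).2.2.1 (h1.trans (dsc_dvd i)), fun P hP => (h P hP).2.2.2.2.1⟩
  · exact fun P hP => (h P hP).2.2.2.2.2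

theorem phi_inert (hREP : S_REP) (hGRP : S_GRP) (hSTEP : S_STEP) (h6 : (6 : k) ≠ 0)
    {S : Finset k[X]} {u : k[X] → k[X]} {Y : k[X]} (hSt : St (BadF a b) S u Y) {Q w : k[X]}
    (hQ : Q.Monic) (hQi : Irreducible Q) (hQS : Q ∉ S) (hw : ¬ Q ∣ w)
    (ht : ∀ j, ¬ Q ∣ dsc (a j) (b j) ∧ Ty3 (a j) (b j) Q) :
    phiF pk (insert Q S) (Function.update u Q w) ≤ phiF pk S u :=
  Finset.sum_le_sum fun i _ => psi_inert hREP hGRP hSTEP h6 _ (hSt.good (dsc_dvd i)) hQ hQi hQS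
    (ht i).1 hw (ht i).2

theorem A1 (hREP : S_REP) (hGRP : S_GRP) (hSTEP : S_STEP) (hKILL : S_KILL) (hLAST : S_LAST)
    (h6 : (6 : k) ≠ 0) (hD : Data a b p) :
    ∃ c₀ C₀ : ℝ, 0 < c₀ ∧ 0 ≤ C₀ ∧ ∀ (S : Finset k[X]) (u : k[X] → k[X]) (Y : k[X]),
      St (BadF a b) S u Y → ∀ m : ℕ, 0 < m →
        c₀ * (Nat.card k : ℝ) ^ m / m - C₀ * (1 + Y.natDegree) * √((Nat.card k : ℝ) ^ m) ≤
          ((stS (phiF pk) (BadF a b) S u m).card : ℝ) := by
  obtain ⟨c₁, C₁, hc₁, h1⟩ := hKILL k ι a b p h6 hD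
  obtain ⟨c₂, C₂, hc₂, h2⟩ := hLAST k ι a b p h6 hD
  have h3 : ∀ i, ∃ C₀ : ℕ, ∀ (S : Finset k[X]) (u : k[X] → k[X]), GoodT (a i) (b i) S u →
      ∀ α : (pk i).L, SelC (pk i).cub (pk i).O S u α →
      ∃ (r : (pk i).L) (z : Fin 3 → k[X]), r ≠ 0 ∧ Crd (pk i).θ z (α * r ^ 2) ∧
        ∀ i, (z i).natDegree ≤ C₀ * (1 + ∑ P ∈ S, P.natDegree) := fun i =>
    (hREP k K (pk i).L (pk i).O (a i) (b i) (pk i).θ h6 (pk i).cub).1
  choose C₃ h3 using h3
  set C₄ : ℕ := ∑ i, C₃ i with hC₄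
  have hC34 : ∀ i, C₃ i ≤ C₄ := fun i => Finset.single_le_sum (fun _ _ => Nat.zero_le _) (Finset.mem_univ i)
  refine ⟨min c₁ c₂, C₁ * (1 + C₄) + C₂ + 1, lt_min hc₁ hc₂, by positivity, ?_⟩
  intro S u Y hSt m hm
  set q : ℝ := (Nat.card k : ℝ) with hq
  have hq0 : 0 < q := by
    rw [hq]
    exact_mod_cast (Finite.card_pos : 0 < Nat.card k)
  have hsq : 1 ≤ √(q ^ m) := one_le_sqrt_pow m
  have hSc : (S.card : ℝ) ≤ (1 + Y.natDegree) * √(q ^ m) := by
    have h4 : (S.card : ℝ) ≤ Y.natDegree := by exact_mod_cast hSt.card_le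
    have h5 : (0 : ℝ) ≤ 1 + Y.natDegree := by positivity
    nlinarith
  have hm0 : (0 : ℝ) < m := by exact_mod_cast hm
  have hY0 : (0 : ℝ) ≤ (1 + Y.natDegree) * √(q ^ m) := by positivity
  by_cases hphi : phiF pk S u = 0
  · -- inert primes
    have h4 := h2 ∅ (fun _ => True) (by simp) m hm
    rw [Finset.card_empty, pow_zero, mul_one] at h4
    have h5 : dg (∅ : Finset k[X]) = 0 := by simp [dg]
    rw [h5, Nat.cast_zero, add_zero, mul_one] at h4
    have h12 := (sub_le_sub_right h4 (S.card : ℝ)).trans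
      (sub_card_le (B := stS (phiF pk) (BadF a b) S u m) fun Q hQ1 hQS hQt => by
        have hQ2 := mem_irrD.1 hQ1
        unfold stS
        rw [Finset.mem_filter]
        refine ⟨hQ1, hQS, ndvd_BadF hQ2.2.1 fun i => (hQt.1 i).1, ?_⟩
        have h8 := phi_inert pk hREP hGRP hSTEP h6 hSt hQ2.1 hQ2.2.1 hQS
          (fun h1 => hQ2.2.1.not_isUnit (isUnit_of_dvd_one h1)) hQt.1
        rw [hphi] at h8 ⊢
        omega)
    have h8 : min c₁ c₂ * q ^ m / m ≤ c₂ * q ^ m / m := by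
      have := min_le_right c₁ c₂
      gcongr
    have h9 : (C₂ : ℝ) * √(q ^ m) ≤ C₂ * ((1 + Y.natDegree) * √(q ^ m)) := by
      have : √(q ^ m) ≤ (1 + Y.natDegree) * √(q ^ m) := by
        have : (0 : ℝ) ≤ Y.natDegree := by positivity
        nlinarith
      gcongr
    have h10 : (0 : ℝ) ≤ C₁ * (1 + C₄) * ((1 + Y.natDegree) * √(q ^ m)) := by positivity
    have h11 : ((C₁ : ℝ) * (1 + C₄) + C₂ + 1) * (1 + Y.natDegree) * √(q ^ m) =
        C₁ * (1 + C₄) * ((1 + Y.natDegree) * √(q ^ m)) + C₂ * ((1 + Y.natDegree) * √(q ^ m)) +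
          (1 + Y.natDegree) * √(q ^ m) := by ring
    linarith
  · -- kill a class
    obtain ⟨i, hi⟩ : ∃ i, psi (pk i).cub (pk i).O S u ≠ 0 := by
      by_contra hcon
      push Not at hcon
      exact hphi (Finset.sum_eq_zero fun i _ => hcon i)
    obtain ⟨α, z, hα, hnα, hnsα, hzα, hdα⟩ := exists_small (O := (pk i).O) hREP hGRP h6 (pk i).cub
      (h3 i) (hSt.good (dsc_dvd i)) hi
    rw [hSt.dg_eq] at hdα
    have h4 := h1 i K (pk i).L (pk i).O (pk i).θ (pk i).cub α z (C₃ i * (1 + Y.natDegree)) hα.ne hnα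
      hnsα hzα hdα m hm
    have h12 := (sub_le_sub_right h4 (S.card : ℝ)).trans
      (sub_card_le (B := stS (phiF pk) (BadF a b) S u m) fun Q hQ1 hQS hQp => by
        obtain ⟨hQd, hQt, hQi, hQα⟩ := hQp
        have hQ2 := mem_irrD.1 hQ1
        have hQw : ¬ Q ∣ (1 : k[X]) := fun h1 => hQ2.2.1.not_isUnit (isUnit_of_dvd_one h1)
        unfold stS
        rw [Finset.mem_filter]
        refine ⟨hQ1, hQS, ndvd_BadF hQ2.2.1 hQd, ?_⟩
        have h8 : phiF pk (insert Q S) (Function.update u Q 1) + 1 ≤ phiF pk S u := by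
          unfold phiF
          rw [← Finset.add_sum_erase _ _ (Finset.mem_univ i),
            ← Finset.add_sum_erase _ _ (Finset.mem_univ i)]
          have h9 := psi_kill (O := (pk i).O) hREP hGRP hSTEP h6 (pk i).cub (hSt.good (dsc_dvd i))
            hQ2.1 hQ2.2.1 hQS (hQd i) hQw hQi hα hQα
          have h10 : ∑ x ∈ Finset.univ.erase i, psi (pk x).cub (pk x).O (insert Q S)
              (Function.update u Q 1) ≤ ∑ x ∈ Finset.univ.erase i, psi (pk x).cub (pk x).O S u :=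
            Finset.sum_le_sum fun j hj => psi_inert hREP hGRP hSTEP h6 _ (hSt.good (dsc_dvd j)) hQ2.1
              hQ2.2.1 hQS (hQd j) hQw (hQt j (Finset.ne_of_mem_erase hj))
          omega
        omega)
    have h8 : min c₁ c₂ * q ^ m / m ≤ c₁ * q ^ m / m := by
      have := min_le_left c₁ c₂
      gcongr
    have h9 : (C₁ : ℝ) * (1 + ((C₃ i * (1 + Y.natDegree) : ℕ) : ℝ)) * √(q ^ m) ≤
        C₁ * (1 + C₄) * ((1 + Y.natDegree) * √(q ^ m)) := by
      have h10 : ((C₃ i * (1 + Y.natDegree) : ℕ) : ℝ) ≤ C₄ * (1 + Y.natDegree) := by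
        push_cast
        have : (C₃ i : ℝ) ≤ C₄ := by exact_mod_cast hC34 i
        gcongr
      have h11 : 1 + ((C₃ i * (1 + Y.natDegree) : ℕ) : ℝ) ≤ (1 + C₄) * (1 + Y.natDegree) := by
        have : (0 : ℝ) ≤ Y.natDegree := by positivity
        nlinarith
      calc (C₁ : ℝ) * (1 + ((C₃ i * (1 + Y.natDegree) : ℕ) : ℝ)) * √(q ^ m) ≤
          C₁ * ((1 + C₄) * (1 + Y.natDegree)) * √(q ^ m) := by gcongr
        _ = _ := by ring
    have h10 : (0 : ℝ) ≤ C₂ * ((1 + Y.natDegree) * √(q ^ m)) := by positivity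
    have h11 : ((C₁ : ℝ) * (1 + C₄) + C₂ + 1) * (1 + Y.natDegree) * √(q ^ m) =
        C₁ * (1 + C₄) * ((1 + Y.natDegree) * √(q ^ m)) + C₂ * ((1 + Y.natDegree) * √(q ^ m)) +
          (1 + Y.natDegree) * √(q ^ m) := by ring
    linarith

theorem A2 (hREP : S_REP) (hGRP : S_GRP) (hSTEP : S_STEP) (hLAST : S_LAST)
    (h6 : (6 : k) ≠ 0) (hD : Data a b p) :
    ∃ c₀ C₀ : ℝ, 0 < c₀ ∧ 0 ≤ C₀ ∧ ∀ (S : Finset k[X]) (u : k[X] → k[X]) (Y : k[X]),
      St (BadF a b) S u Y → ∀ (η : k[X] → Prop) (m : ℕ), 0 < m →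
        c₀ * (1 / 2) ^ S.card * (Nat.card k : ℝ) ^ m / m -
          C₀ * (1 + Y.natDegree) * √((Nat.card k : ℝ) ^ m) ≤
          ((laS (phiF pk) (BadF a b) (TpF a b) S u η m).card : ℝ) := by
  obtain ⟨c₂, C₂, hc₂, h2⟩ := hLAST k ι a b p h6 hD
  refine ⟨c₂ * (1 / 2) ^ (TpF a b).card, C₂ * (1 + dg (TpF a b)), by positivity, by positivity, ?_⟩
  intro S u Y hSt η m hm
  set q : ℝ := (Nat.card k : ℝ) with hq
  have hq0 : 0 < q := by
    rw [hq]
    exact_mod_cast (Finite.card_pos : 0 < Nat.card k)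
  have hm0 : (0 : ℝ) < m := by exact_mod_cast hm
  have h3 := h2 (S ∪ TpF a b) η (by
    intro P hP
    rw [Finset.mem_union] at hP
    rcases hP with hP | hP
    · have h4 := hSt.mem.1 hP
      refine ⟨h4.1, h4.2.1, fun i hi => hSt.cop P h4.2.1 h4.2.2 (hi.trans ((hD.pd i).trans (dsc_dvd i)))⟩
    · obtain ⟨h4, h5, h7, j, hj⟩ := TpF_spec hD hP
      refine ⟨h4, h5, fun i hi => ?_⟩
      have h8 := h5.associated_of_dvd (hD.pirr i) hi
      have h9 : (p i) ^ 2 ∣ dsc (a j) (b j) := ((h8.pow_pow (n := 2)).dvd_iff_dvd_left).1 hj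
      by_cases hij : i = j
      · subst hij
        exact hD.pnd i h9
      · exact hD.pne i j hij ((dvd_pow_self _ two_ne_zero).trans h9)) m hm
  have h4 := h3.trans (le_card' (B := laS (phiF pk) (BadF a b) (TpF a b) S u η m)
    fun Q hQ1 hQp => by
      obtain ⟨hQt, hQS, hQη⟩ := hQp
      have hQ2 := mem_irrD.1 hQ1
      rw [Finset.mem_union, not_or] at hQS
      unfold laS
      rw [Finset.mem_filter]
      exact ⟨hQ1, hQS.1, ndvd_BadF hQ2.2.1 fun i => (hQt i).1, hQη, fun w hw =>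
        phi_inert pk hREP hGRP hSTEP h6 hSt hQ2.1 hQ2.2.1 hQS.1 hw hQt⟩)
  refine le_trans ?_ h4
  have h5 : c₂ * (1 / 2) ^ (TpF a b).card * (1 / 2) ^ S.card * q ^ m / m ≤
      c₂ * (1 / 2) ^ (S ∪ TpF a b).card * q ^ m / m := by
    have h7 : (1 / 2 : ℝ) ^ (TpF a b).card * (1 / 2) ^ S.card ≤ (1 / 2) ^ (S ∪ TpF a b).card := by
      rw [← pow_add]
      refine pow_le_pow_of_le_one (by norm_num) (by norm_num) ?_
      rw [add_comm]
      exact Finset.card_union_le _ _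
    calc c₂ * (1 / 2) ^ (TpF a b).card * (1 / 2) ^ S.card * q ^ m / m =
        c₂ * ((1 / 2) ^ (TpF a b).card * (1 / 2) ^ S.card) * q ^ m / m := by ring
      _ ≤ _ := by gcongr
  have h7 : (dg (S ∪ TpF a b) : ℝ) ≤ Y.natDegree + dg (TpF a b) := by
    have : dg (S ∪ TpF a b) ≤ dg S + dg (TpF a b) := by
      unfold dg
      have := Finset.sum_union_inter (s₁ := S) (s₂ := TpF a b) (f := fun P : k[X] => P.natDegree)
      omega
    rw [hSt.dg_eq] at this
    exact_mod_cast this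
  have h8 : (C₂ : ℝ) * (1 + dg (S ∪ TpF a b)) * √(q ^ m) ≤
      C₂ * (1 + dg (TpF a b)) * (1 + Y.natDegree) * √(q ^ m) := by
    have h9 : (1 : ℝ) + dg (S ∪ TpF a b) ≤ (1 + dg (TpF a b)) * (1 + Y.natDegree) := by
      have h10 : (0 : ℝ) ≤ (dg (TpF a b) : ℝ) * Y.natDegree := by positivity
      nlinarith
    calc (C₂ : ℝ) * (1 + dg (S ∪ TpF a b)) * √(q ^ m) ≤
        C₂ * ((1 + dg (TpF a b)) * (1 + Y.natDegree)) * √(q ^ m) := by gcongr
      _ = _ := by ring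
  linarith

end family

end Run7.h875.TS
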