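import Pool.Agent.Run7.h875.TS.All

/-!
# Simultaneous twists: prescribed local behaviour at finitely many places
-/

set_option autoImplicit false
set_option linter.all false

open Polynomial IsDedekindDomain
open Pool.Agent.N874.PP Pool.Agent.TH115.GD Pool.Agent.N199.PP
open scoped Classical

namespace Run7.h875.TS

theorem dsc_tw {k : Type} [Field k] (a b D : k[X]) :
    dsc (a * D ^ 2) (b * D ^ 3) = D ^ 6 * dsc a b := by
  unfold dsc
  ring

theorem irr_tw {k : Type} [Field k] {a b D : k[X]} (hD : D ≠ 0)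
    (h : Irreducible (X ^ 3 + C a * X + C b : k[X][X])) :
    Irreducible (X ^ 3 + C (a * D ^ 2) * X + C (b * D ^ 3) : k[X][X]) := by
  have e : ∀ a b : k[X], (X ^ 3 + C a * X + C b : k[X][X]) = cub a b := fun _ _ => rfl
  rw [e] at h ⊢
  rw [(cub_monic _ _).irreducible_iff_irreducible_map_fraction_map (K := FractionRing k[X]), cub_map,
    (cub_monic _ _).irreducible_iff_roots_eq_zero_of_degree_le_three
    (by rw [cub_natDegree]; norm_num) (by rw [cub_natDegree]), Multiset.eq_zero_iff_forall_notMem] at h ⊢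
  intro r hr
  have hD' : algebraMap k[X] (FractionRing k[X]) D ≠ 0 := by
    rwa [Ne, IsFractionRing.to_map_eq_zero_iff]
  apply h (r / algebraMap k[X] (FractionRing k[X]) D)
  rw [mem_roots (cub_monic _ _).ne_zero, IsRoot.def] at hr ⊢
  simp only [cub, eval_add, eval_mul, eval_pow, eval_X, eval_C, map_mul, map_pow] at hr ⊢
  field_simp
  linear_combination hr

theorem irr_of_no_root {k : Type} [Field k] {a b : k[X]} (h : ∀ z : k[X], z ^ 3 + a * z + b ≠ 0) :
    Irreducible (X ^ 3 + C a * X + C b : k[X][X]) := by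
  have e : ∀ a b : k[X], (X ^ 3 + C a * X + C b : k[X][X]) = cub a b := fun _ _ => rfl
  rw [e, (cub_monic _ _).irreducible_iff_irreducible_map_fraction_map (K := FractionRing k[X]), cub_map,
    (cub_monic _ _).irreducible_iff_roots_eq_zero_of_degree_le_three
    (by rw [cub_natDegree]; norm_num) (by rw [cub_natDegree]), Multiset.eq_zero_iff_forall_notMem]
  intro r hr
  rw [mem_roots (cub_monic _ _).ne_zero, IsRoot.def] at hr
  have hint : IsIntegral k[X] r := by
    refine ⟨cub a b, cub_monic _ _, ?_⟩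
    rw [← hr, cub, cub]
    simp
  obtain ⟨z, rfl⟩ := IsIntegrallyClosed.isIntegral_iff.1 hint
  apply h z
  apply IsFractionRing.injective k[X] (FractionRing k[X])
  rw [map_zero, ← hr, cub]
  simp

theorem data_tw {k ι : Type} [Field k] {a b p : ι → k[X]} (hD : Data a b p) {D : k[X]}
    (h0 : D ≠ 0) (hp : ∀ i, ¬ p i ∣ D) :
    Data (fun i => a i * D ^ 2) (fun i => b i * D ^ 3) p where
  irr := fun i => irr_tw h0 (hD.irr i)
  pirr := hD.pirr
  pd := fun i => by
    rw [dsc_tw]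
    exact (hD.pd i).mul_left _
  pnd := fun i => by
    rw [dsc_tw]
    intro h
    have h1 : IsCoprime (p i ^ 2) (D ^ 6) :=
      (((hD.pirr i).coprime_iff_not_dvd).2 (hp i)).pow
    exact hD.pnd i (h1.dvd_of_dvd_mul_left h)
  pne := fun i j hij => by
    rw [dsc_tw]
    intro h
    rcases (hD.pirr i).prime.dvd_or_dvd h with h1 | h1
    · exact hp i ((hD.pirr i).prime.dvd_of_dvd_pow h1)
    · exact hD.pne i j hij h1

theorem good_tw {k ι K : Type} [Field k] [Field K] [Algebra k[X] K] [IsFractionRing k[X] K]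
    {a b : ι → k[X]} {D₀ D₁ : k[X]}
    (h : Good K (fun i => a i * D₀ ^ 2) (fun i => b i * D₀ ^ 3) D₁) : Good K a b (D₀ * D₁) := by
  have e1 : ∀ i, a i * (D₀ * D₁) ^ 2 = a i * D₀ ^ 2 * D₁ ^ 2 := fun i => by ring
  have e2 : ∀ i, b i * (D₀ * D₁) ^ 3 = b i * D₀ ^ 3 * D₁ ^ 3 := fun i => by ring
  intro i
  rw [e1, e2]
  exact h i

theorem finD (k ι : Type) [Field k] [Finite k] [Finite ι] (a b p : ι → k[X]) (h6 : (6 : k) ≠ 0)
    (hD : Data a b p) (T : Finset k[X]) (hT : ∀ P ∈ T, Irreducible P ∧ ∀ i, ¬ P ∣ p i) (D₀ : k[X])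
    (hs : Squarefree D₀) (hp : ∀ i, ¬ p i ∣ D₀) (K : Type) [Field K] [Algebra k[X] K]
    [IsFractionRing k[X] K] :
    ∃ c : ℝ, 0 < c ∧ ∃ N₀ : ℕ, ∀ n ≥ N₀, Even (n + D₀.natDegree) →
      c * (Nat.card k : ℝ) ^ n ≤
        ({D : k[X] | D.natDegree = n ∧ Squarefree D ∧ (∃ D₁ : k[X], D₁.Monic ∧ D = D₀ * D₁ ∧
          ∀ P ∈ T, ∃ z : k[X], ¬ P ∣ z ∧ P ∣ z ^ 2 - D₁) ∧ Good K a b D}.ncard : ℝ) := by
  have h0 : D₀ ≠ 0 := hs.ne_zero
  set T₁ : Finset k[X] := T.image normalize ∪ prD D₀ with hT₁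
  have hadm : AdT p T₁ := by
    intro P hP
    rw [hT₁, Finset.mem_union] at hP
    rcases hP with hP | hP
    · obtain ⟨Q, hQ, rfl⟩ := Finset.mem_image.1 hP
      have ha : Associated (normalize Q) Q := normalize_associated Q
      refine ⟨monic_normalize (hT Q hQ).1.ne_zero, ha.symm.irreducible (hT Q hQ).1, fun i hi => ?_⟩
      exact (hT Q hQ).2 i ((ha.dvd_iff_dvd_left).1 hi)
    · have h1 := (mem_prD h0).1 hP
      refine ⟨h1.1, h1.2.1, fun i hi => hp i ?_⟩
      exact ((h1.2.1.associated_of_dvd (hD.pirr i) hi).dvd_iff_dvd_left).1 h1.2.2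
  obtain ⟨c, hc, N₀, h⟩ := finT all_avg all_kill all_last all_step Run7.h298.TS.clsu all_conc
    Run7.h784.TS.SQF.sqf' Run7.h225.TS.REP.rep Run7.h225.TS.GRP.grp k ι _ _ p h6
    (data_tw hD h0 hp) T₁ hadm K
  have hq : (0 : ℝ) < (Nat.card k : ℝ) := by exact_mod_cast (Finite.card_pos : 0 < Nat.card k)
  refine ⟨c / (Nat.card k : ℝ) ^ D₀.natDegree, by positivity, N₀ + D₀.natDegree, ?_⟩
  intro n hn hev
  obtain ⟨m, rfl⟩ : ∃ m, n = m + D₀.natDegree := ⟨n - D₀.natDegree, by omega⟩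
  have hm : Even m := by
    rw [add_assoc, Nat.even_add] at hev
    exact hev.2 ⟨D₀.natDegree, rfl⟩
  have h1 := h m (by omega) hm
  have h2 : c / (Nat.card k : ℝ) ^ D₀.natDegree * (Nat.card k : ℝ) ^ (m + D₀.natDegree) =
      c * (Nat.card k : ℝ) ^ m := by
    rw [pow_add]
    field_simp
  rw [h2]
  refine h1.trans ?_
  rw [Nat.cast_le, ← Set.ncard_image_of_injective _ (mul_right_injective₀ h0 : Function.Injective
    fun D : k[X] => D₀ * D)]
  refine Set.ncard_le_ncard ?_ ((fin_deg k _).subset fun D hD => hD.1)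
  rintro _ ⟨D, ⟨d1, d2, d3, d4, d5, d6⟩, rfl⟩
  have hnd : ∀ P : k[X], Irreducible P → P ∣ D₀ → ¬ P ∣ D := by
    intro P hP hPD hPD'
    have ha : Associated (normalize P) P := normalize_associated P
    have hn : normalize P ∈ T₁ := by
      rw [hT₁, Finset.mem_union, mem_prD h0]
      exact Or.inr ⟨monic_normalize hP.ne_zero, ha.symm.irreducible hP,
        (ha.dvd_iff_dvd_left).2 hPD⟩
    obtain ⟨z, hz1, hz2⟩ := d6 _ hn
    rw [ha.dvd_iff_dvd_left] at hz1 hz2
    apply hz1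
    apply hP.prime.dvd_of_dvd_pow (n := 2)
    have := dvd_add hz2 hPD'
    simpa using this
  have hrel : IsRelPrime D₀ D := by
    refine IsCoprime.isRelPrime ?_
    apply isCoprime_of_prime_dvd
    · exact fun h => h0 h.1
    · intro P hP h1 h2
      exact hnd P hP.irreducible h1 h2
  refine ⟨?_, ?_, ⟨D, d1, rfl, ?_⟩, good_tw d4⟩
  · show (D₀ * D).natDegree = _
    rw [natDegree_mul h0 d1.ne_zero, d2, add_comm]
  · exact squarefree_mul_iff.2 ⟨hrel, hs, d3⟩
  · intro P hP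
    have ha : Associated (normalize P) P := normalize_associated P
    obtain ⟨z, hz1, hz2⟩ := d6 (normalize P) (by
      rw [hT₁]
      exact Finset.mem_union_left _ (Finset.mem_image_of_mem _ hP))
    rw [ha.dvd_iff_dvd_left] at hz1 hz2
    exact ⟨z, hz1, hz2⟩

end Run7.h875.TS
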