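import Pool.Agent.Run7.h875.TS.Conc3
import Pool.Agent.Run7.h875.TS.Cnt
import Pool.Agent.N273.PP.Fin

/-!
# Simultaneous twists, CONC
-/

set_option autoImplicit false
set_option linter.all false

open Polynomial IsDedekindDomain WeierstrassCurve WeierstrassCurve.Affine
open Pool.Agent.TH115.GD Pool.Agent.N874.PP Pool.Agent.N199.PP
open Run7.h225.TS Run7.h225.TS.GRP
open scoped Classical

namespace Run7.h875.TS

/-- A finite group whose elements are divisible by two has odd order. -/
theorem odd_card' {G : Type} [AddCommGroup G] [Finite G] (h : ∀ P : G, ∃ Q : G, P = (2 : ℕ) • Q) :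
    Odd (Nat.card G) := by
  by_contra hodd
  rw [Nat.not_odd_iff_even, even_iff_two_dvd] at hodd
  haveI := Fact.mk Nat.prime_two
  obtain ⟨T, hT⟩ := exists_prime_addOrderOf_dvd_card' 2 hodd
  have hs : Function.Surjective (fun Q : G => (2 : ℕ) • Q) := fun P => by
    obtain ⟨Q, hQ⟩ := h P
    exact ⟨Q, hQ.symm⟩
  have hi : Function.Injective (fun Q : G => (2 : ℕ) • Q) := Finite.injective_iff_surjective.2 hs
  have h1 : (2 : ℕ) • T = 0 := by
    rw [← hT]
    exact addOrderOf_nsmul_eq_zero T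
  have h2 : T = 0 := hi (by simpa using h1)
  rw [h2, addOrderOf_zero] at hT
  omega

/-- The place of an irreducible polynomial. -/
noncomputable def plP {k : Type} [Field k] {P : k[X]} (hP : Irreducible P) : HeightOneSpectrum k[X] where
  asIdeal := Ideal.span {P}
  isPrime := (Ideal.span_singleton_prime hP.ne_zero).2 hP.prime
  ne_bot := by rw [Ne, Ideal.span_singleton_eq_bot]; exact hP.ne_zero

section

variable {k K L : Type} [Field k] [Field K] [Algebra k[X] K]
  [IsFractionRing k[X] K]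
  [Field L] [Algebra K L] [Algebra k[X] L] [IsScalarTower k[X] K L] {a b : k[X]} {θ : L}

theorem AB_eq (a b D : k[X]) : 4 * (algebraMap k[X] K (a * D ^ 2)) ^ 3 +
    27 * (algebraMap k[X] K (b * D ^ 3)) ^ 2 =
    (algebraMap k[X] K D) ^ 6 * (4 * (algebraMap k[X] K a) ^ 3 + 27 * (algebraMap k[X] K b) ^ 2) := by
  simp only [map_mul, map_pow]
  ring

theorem irrAB (h : IsCub K a b θ) {D : k[X]} (hD : D ≠ 0) :
    Irreducible (X ^ 3 + C (algebraMap k[X] K (a * D ^ 2)) * X +
      C (algebraMap k[X] K (b * D ^ 3)) : K[X]) := by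
  have hDK : algebraMap k[X] K D ≠ 0 := by
    rw [Ne, IsFractionRing.to_map_eq_zero_iff]
    exact hD
  have hmon := cub_monic (algebraMap k[X] K (a * D ^ 2)) (algebraMap k[X] K (b * D ^ 3))
  have hdeg := cub_natDegree (algebraMap k[X] K (a * D ^ 2)) (algebraMap k[X] K (b * D ^ 3))
  show Irreducible (cub (algebraMap k[X] K (a * D ^ 2)) (algebraMap k[X] K (b * D ^ 3)))
  rw [hmon.irreducible_iff_roots_eq_zero_of_degree_le_three (by rw [hdeg]; norm_num) (by rw [hdeg])]
  rw [Multiset.eq_zero_iff_forall_notMem]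
  intro r hr
  rw [mem_roots hmon.ne_zero, IsRoot.def] at hr
  unfold cub at hr
  simp only [eval_add, eval_mul, eval_pow, eval_X, eval_C, map_mul, map_pow] at hr
  apply no_root h (r / algebraMap k[X] K D)
  field_simp
  linear_combination hr

/-- The local condition over `F`. -/
theorem locAt_gen (h6 : (6 : k) ≠ 0) (h : IsCub K a b θ) {D : k[X]} (hD : D ≠ 0)
    {F : Type} [Field F] [Algebra K F]
    (hinf : {z : F | ∃ w, w ≠ 0 ∧ w ^ 2 = z ^ 3 + algebraMap K F (algebraMap k[X] K (a * D ^ 2)) * z +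
      algebraMap K F (algebraMap k[X] K (b * D ^ 3))}.Infinite)
    {f : (Sep K ≃ₐ[K] Sep K) → Pt (sW (algebraMap k[X] K (a * D ^ 2))
      (algebraMap k[X] K (b * D ^ 3))) (Sep K)} (hf2 : ∀ σ, (2 : ℕ) • f σ = 0)
    {β : Sep K → Sep K} {H : K[X]} (hβ : IsBeta (algebraMap k[X] K (a * D ^ 2))
      (algebraMap k[X] K (b * D ^ 3)) f β)
    (hh : ∀ t : Sep K, Rt (algebraMap k[X] K (a * D ^ 2)) (algebraMap k[X] K (b * D ^ 3)) t →
      aeval t H = β t ^ 2)
    (hloc : LocTriv (sW (algebraMap k[X] K (a * D ^ 2)) (algebraMap k[X] K (b * D ^ 3))) F (Sep F) f) :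
    LocAt h F (algebraMap K F (algebraMap k[X] K D)) (aeval (algebraMap k[X] L D * θ) H) := by
  have hDK : algebraMap k[X] K D ≠ 0 := by
    rw [Ne, IsFractionRing.to_map_eq_zero_iff]
    exact hD
  have h6K : (6 : K) ≠ 0 := by
    have e1 : (6 : K) = algebraMap k[X] K (C 6) := by
      rw [show (C (6 : k) : k[X]) = 6 from rfl, map_ofNat]
    rw [e1, Ne, map_eq_zero_iff _ (IsFractionRing.injective k[X] K), C_eq_zero]
    exact h6
  have hd : 4 * (algebraMap k[X] K (a * D ^ 2)) ^ 3 +
      27 * (algebraMap k[X] K (b * D ^ 3)) ^ 2 ≠ 0 := by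
    rw [AB_eq]
    exact mul_ne_zero (pow_ne_zero _ hDK) (disc_ne h6 h)
  have hc := gl_gen h6K hd hinf f hf2 β H hβ hh hloc
  have e1 : algebraMap K F (algebraMap k[X] K (a * D ^ 2)) =
      algebraMap K F (algebraMap k[X] K a) * (algebraMap K F (algebraMap k[X] K D)) ^ 2 := by
    simp only [map_mul, map_pow]
  have e2 : algebraMap K F (algebraMap k[X] K (b * D ^ 3)) =
      algebraMap K F (algebraMap k[X] K b) * (algebraMap K F (algebraMap k[X] K D)) ^ 3 := by
    simp only [map_mul, map_pow]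
  rw [e1, e2] at hc
  have hl := cond_locT ((map_ne_zero_iff _ (algebraMap K F).injective).2 hDK) hc
  have e3 : aeval (algebraMap k[X] L D * θ) H = aeval θ (H.comp (C (algebraMap k[X] K D) * X)) := by
    rw [aeval_comp, map_mul, aeval_C, aeval_X, ← IsScalarTower.algebraMap_apply k[X] K L]
  have e4 : (H.map (algebraMap K F)).comp (C (algebraMap K F (algebraMap k[X] K D)) * X) =
      (H.comp (C (algebraMap k[X] K D) * X)).map (algebraMap K F) := by
    rw [Polynomial.map_comp]
    simp
  rw [e4] at hl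
  unfold LocAt
  refine locT_congr ?_ hl
  rw [← Polynomial.map_sub]
  apply map_dvd' h F
  rw [e3, pol_aeval]
  have h9 := modByMonic_add_div (H.comp (C (algebraMap k[X] K D) * X))
    (cubp (algebraMap k[X] K a) (algebraMap k[X] K b))
  exact ⟨_, by rw [sub_eq_iff_eq_add']; exact h9.symm⟩

end

theorem conc (hLOCE : S_LOCE) : S_CONC := by
  intro k K L O _ _ _ _ _ _ _ _ _ _ _ _ _ _ _ _ a b θ h6 h D hDm hDs hDe hDp hDT hsel
  have hD0 : D ≠ 0 := hDm.ne_zero
  have h2 : (2 : k) ≠ 0 := by
    intro h0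
    apply h6
    rw [show (6 : k) = 2 * 3 by norm_num, h0, zero_mul]
  have hDK : algebraMap k[X] K D ≠ 0 := by
    rw [Ne, IsFractionRing.to_map_eq_zero_iff]
    exact hD0
  have h6K : (6 : K) ≠ 0 := by
    have e1 : (6 : K) = algebraMap k[X] K (C 6) := by
      rw [show (C (6 : k) : k[X]) = 6 from rfl, map_ofNat]
    rw [e1, Ne, map_eq_zero_iff _ (IsFractionRing.injective k[X] K), C_eq_zero]
    exact h6
  have hd : 4 * (algebraMap k[X] K (a * D ^ 2)) ^ 3 +
      27 * (algebraMap k[X] K (b * D ^ 3)) ^ 2 ≠ 0 := by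
    rw [AB_eq]
    exact mul_ne_zero (pow_ne_zero _ hDK) (disc_ne h6 h)
  have hd' : 4 * (a * D ^ 2) ^ 3 + 27 * (b * D ^ 3) ^ 2 ≠ 0 := by
    intro h0
    apply hd
    have := congrArg (algebraMap k[X] K) h0
    rw [map_add, map_mul, map_mul, map_pow, map_pow, map_ofNat, map_ofNat, map_zero] at this
    exact this
  have hirr := irrAB h hD0
  have hinf1 : ∀ v : HeightOneSpectrum k[X], {z : v.adicCompletion K | ∃ w, w ≠ 0 ∧ w ^ 2 = z ^ 3 +
      algebraMap K (v.adicCompletion K) (algebraMap k[X] K (a * D ^ 2)) * z +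
      algebraMap K (v.adicCompletion K) (algebraMap k[X] K (b * D ^ 3))}.Infinite := by
    intro v
    have := (Run7.h225.TS.INFP.infp k K h2).1 v
      (algebraMap K (v.adicCompletion K) (algebraMap k[X] K (a * D ^ 2)))
      (algebraMap K (v.adicCompletion K) (algebraMap k[X] K (b * D ^ 3))) 1 one_ne_zero
    simpa only [one_mul] using this
  have hinf2 : {z : CompInf k K | ∃ w, w ≠ 0 ∧ w ^ 2 = z ^ 3 +
      algebraMap K (CompInf k K) (algebraMap k[X] K (a * D ^ 2)) * z +
      algebraMap K (CompInf k K) (algebraMap k[X] K (b * D ^ 3))}.Infinite := by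
    have := (Run7.h225.TS.INFP.infp k K h2).2
      (algebraMap K (CompInf k K) (algebraMap k[X] K (a * D ^ 2)))
      (algebraMap K (CompInf k K) (algebraMap k[X] K (b * D ^ 3))) 1 one_ne_zero
    simpa only [one_mul] using this
  have hS : SelZ k (sW (algebraMap k[X] K (a * D ^ 2)) (algebraMap k[X] K (b * D ^ 3))) := by
    intro f hf hf2 hloc
    obtain ⟨β, hβ⟩ := Pool.Agent.N187.PP.gb Pool.Agent.N630.PP.gp3 Pool.Agent.N630.PP.gp4 K _ _
      h6K hd hirr f hf hf2
    obtain ⟨H, hh, hn⟩ := Pool.Agent.N187.PP.gn Pool.Agent.N630.PP.gp3 Pool.Agent.N630.PP.gp4 K _ _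
      h6K hd hirr f hf hf2 β hβ
    have hRt : Rt (algebraMap k[X] K (a * D ^ 2)) (algebraMap k[X] K (b * D ^ 3))
        (algebraMap k[X] L D * θ) := by
      unfold Rt
      rw [← IsScalarTower.algebraMap_apply k[X] K L, ← IsScalarTower.algebraMap_apply k[X] K L]
      have h1 := h.root
      simp only [map_mul, map_pow]
      linear_combination (algebraMap k[X] L D) ^ 3 * h1
    obtain ⟨hα0, hαn⟩ := hn L _ hRt h.rank
    have hAt : ∀ v : HeightOneSpectrum k[X], LocAt h (v.adicCompletion K)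
        (algebraMap K (v.adicCompletion K) (algebraMap k[X] K D))
        (aeval (algebraMap k[X] L D * θ) H) := fun v =>
      locAt_gen (F := Comp k[X] K v) h6 h hD0 (hinf1 v) hf2 hβ hh
        (Pool.Agent.N721.PP.toSel hloc v)
    have hAtI : LocAt h (CompInf k K) (algebraMap K (CompInf k K) (algebraMap k[X] K D))
        (aeval (algebraMap k[X] L D * θ) H) :=
      locAt_gen (F := CompInf k K) h6 h hD0 hinf2 hf2 hβ hh (toInf hloc)
    have hSC : SelC h O (prD D) (fun P => D / P) (aeval (algebraMap k[X] L D * θ) H) := by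
      refine ⟨hα0, hαn, ?_, ?_, ?_, ?_⟩
      · intro P hPm hPi hPS hP2
        have hPD : ¬ P ∣ D := fun h1 => hPS ((mem_prD hD0).2 ⟨hPm, hPi, h1⟩)
        exact hLOCE k K L O a b θ h6 h P (plP hPi) hPi rfl hP2 D hPD _ hα0 hαn (hAt _)
      · intro P v hPi hv hP2
        obtain ⟨z, hz⟩ := hDT P hPi hP2
        have hPd : P ∣ dsc a b := (dvd_pow_self P two_ne_zero).trans hP2
        have hPz : ¬ P ∣ z := by
          intro h1
          apply hDp P hPi ?_ hPd
          have := dvd_sub (dvd_pow h1 (two_ne_zero)) hz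
          simpa using this
        obtain ⟨s, hs, hs2⟩ := sq_of_cong (F := K) h2 v (D := D) (z := z)
          (by rw [hv, Ideal.mem_span_singleton]; exact hPz)
          (by rw [hv, Ideal.mem_span_singleton]; exact hz)
        have h1 := hAt v
        unfold LocAt at h1 ⊢
        rw [hs2, ← one_mul (s ^ 2)] at h1
        exact locT_scale hs h1
      · intro P hP v hv
        have h1 := (mem_prD hD0).1 hP
        have e : P * (D / P) = D := by
          obtain ⟨Z, hZ⟩ := h1.2.2
          have e2 : D / P = Z := by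
            rw [hZ, mul_comm P Z]
            exact mul_div_self' h1.2.1.ne_zero
          rw [e2, ← hZ]
        show LocAt h (v.adicCompletion K)
          (algebraMap K (v.adicCompletion K) (algebraMap k[X] K (P * (D / P)))) _
        rw [e]
        exact hAt v
      · obtain ⟨s, hs, hs2⟩ := sq_inf (F := K) h2 hDm hDe
        have h1 := hAtI
        unfold LocAt at h1 ⊢
        rw [hs2, ← one_mul (s ^ 2)] at h1
        exact locT_scale hs h1
    exact Pool.Agent.N187.PP.gt Pool.Agent.N630.PP.gp3 Pool.Agent.N630.PP.gp4 K _ _ h6K hd hirr f hf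
      hf2 β H hβ hh L _ hRt h.rank (hsel _ hSC)
  obtain ⟨hdiv, hsha⟩ := gfz (k := k) h6K hd hS
  haveI hfin := Pool.Agent.N273.PP.s_fin k K (a * D ^ 2) (b * D ^ 3) h6 hd' hdiv
  exact ⟨hfin, odd_card' hdiv, hsha⟩

end Run7.h875.TS
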