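import Pool.Agent.Run7.h875.TS.Mod4

/-!
# Simultaneous twists, MODEL: the model
-/

set_option autoImplicit false
set_option linter.all false

open Polynomial IntermediateField
open Pool.Agent.N199.PP Pool.Agent.N874.PP
open scoped Classical

namespace Run7.h875.TS

section build

variable {k ι : Type} [Field k] [Finite ι] {a b : ι → k[X]}

/-- The weights. -/
theorem exists_wt {F Ω : Type} [Field F] [Field Ω] [Algebra F Ω] [IsAlgClosed Ω]
    [Algebra k[X] Ω] (hinj : Function.Injective (algebraMap k[X] Ω)) (J : Finset ι)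
    (A B : ι → F) : ∃ l : ι → k[X], ∀ z z' : ι → Ω, (∀ j ∈ J, aeval (z j) (cub (A j) (B j)) = 0) →
      (∀ j ∈ J, aeval (z' j) (cub (A j) (B j)) = 0) →
      ∑ j ∈ J, algebraMap k[X] Ω (l j) * z j = ∑ j ∈ J, algebraMap k[X] Ω (l j) * z' j →
      ∀ j ∈ J, z j = z' j := by
  obtain ⟨n, ⟨en⟩⟩ := Finite.exists_equiv_fin ι
  set Z : Set (ι → Ω) := Set.univ.pi fun j => {x : Ω | aeval x (cub (A j) (B j)) = 0} ∪ {0} with hZ
  have hZf : Z.Finite := by
    apply Set.Finite.pi
    intro j
    refine Set.Finite.union ?_ (Set.finite_singleton 0)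
    refine ((cub (A j) (B j)).rootSet_finite Ω).subset fun x hx => ?_
    rw [mem_rootSet_of_ne (cub_monic _ _).ne_zero]
    exact hx
  set V : Set (ι → Ω) := {v | (∃ z ∈ Z, ∃ z' ∈ Z, v = z - z') ∧ ∃ j ∈ J, v j ≠ 0} with hV
  have hVf : V.Finite := by
    refine ((hZf.prod hZf).image fun q => q.1 - q.2).subset ?_
    rintro v ⟨⟨z, hz, z', hz', rfl⟩, -⟩
    exact ⟨(z, z'), ⟨hz, hz'⟩, rfl⟩
  obtain ⟨μ, hμ⟩ := exists_mu (R := k[X]) (Ω := Ω) hinj J (fun j => (en j : ℕ))
    (fun i _ j _ h => en.injective (Fin.ext h)) V hVf fun v hv => hv.2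
  refine ⟨fun j => μ ^ (en j : ℕ), ?_⟩
  intro z z' hz hz' h j hj
  by_contra hne
  have hv : (fun i => if i ∈ J then z i else 0) - (fun i => if i ∈ J then z' i else 0) ∈ V := by
    refine ⟨⟨_, ?_, _, ?_, rfl⟩, j, hj, ?_⟩
    · intro i _
      by_cases hi : i ∈ J
      · left
        simp only [hi, if_true]
        exact hz i hi
      · right
        simp [hi]
    · intro i _
      by_cases hi : i ∈ J
      · left
        simp only [hi, if_true]
        exact hz' i hi
      · right
        simp [hi]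
    · simp only [Pi.sub_apply, hj, if_true]
      exact sub_ne_zero.2 hne
  apply hμ _ hv
  have h1 : ∑ i ∈ J, algebraMap k[X] Ω (μ ^ (en i : ℕ)) *
      (((fun i => if i ∈ J then z i else 0) - (fun i => if i ∈ J then z' i else 0)) : ι → Ω) i =
      ∑ i ∈ J, algebraMap k[X] Ω (μ ^ (en i : ℕ)) * z i -
        ∑ i ∈ J, algebraMap k[X] Ω (μ ^ (en i : ℕ)) * z' i := by
    rw [← Finset.sum_sub_distrib]
    refine Finset.sum_congr rfl fun i hi => ?_
    simp only [Pi.sub_apply, hi, if_true]
    ring
  rw [h1, h, sub_self]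

/-- The construction of the model. -/
theorem build {K k' K' Ω : Type} [Field K] [Field k'] [Algebra k k'] [IsAlgClosed k']
    [Algebra.IsAlgebraic k k'] [Field K'] [Field Ω] [IsAlgClosed Ω]
    [Algebra k[X] K] [IsFractionRing k[X] K] [Algebra k[X] Ω] [Algebra K Ω]
    [IsScalarTower k[X] K Ω] [Algebra k'[X] K'] [IsFractionRing k'[X] K'] [Algebra K' Ω]
    (hcomp : ∀ p : k[X], algebraMap k[X] Ω p =
      algebraMap K' Ω (algebraMap k'[X] K' (p.map (algebraMap k k'))))
    (h6 : (6 : k) ≠ 0) (hds : ∀ i, dsc (a i) (b i) ≠ 0)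
    (hno : ∀ (c : ι → Ω), (∀ i, aeval (c i) (cub (algebraMap k'[X] K' ((a i).map (algebraMap k k')))
        (algebraMap k'[X] K' ((b i).map (algebraMap k k')))) = 0) →
      ∀ (J₀ : Finset ι) (j : ι), j ∉ J₀ → ∀ ρ ∈ adjoin K' (c '' (J₀ : Set ι)),
      aeval ρ (cub (algebraMap k'[X] K' ((a j).map (algebraMap k k')))
        (algebraMap k'[X] K' ((b j).map (algebraMap k k')))) ≠ 0) (J : Finset ι) :
    ∃ (H : k[X][X]) (D : k[X]) (e : ι → k[X][X]), IsModel a b J H D e := by
  set ψ : k[X] →+* K' := (algebraMap k'[X] K').comp (mapRingHom (algebraMap k k')) with hψ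
  have hψ' : ∀ p : k[X], ψ p = algebraMap k'[X] K' (p.map (algebraMap k k')) := fun p => rfl
  have hψinj : Function.Injective ψ := by
    intro x y h
    apply Polynomial.map_injective (algebraMap k k') (algebraMap k k').injective
    exact IsFractionRing.injective k'[X] K' h
  have hinj : Function.Injective (algebraMap k[X] Ω) := by
    intro x y h
    rw [hcomp, hcomp] at h
    exact hψinj ((algebraMap K' Ω).injective h)
  haveI : FaithfulSMul k[X] Ω := (faithfulSMul_iff_algebraMap_injective _ _).2 hinj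
  haveI : Module.IsTorsionFree k[X] Ω := inferInstance
  set A : ι → K' := fun i => ψ (a i) with hA
  set B : ι → K' := fun i => ψ (b i) with hB
  have hroots : ∀ i, ∃ c : Ω, aeval c (cub (A i) (B i)) = 0 := by
    intro i
    apply IsAlgClosed.exists_aeval_eq_zero
    rw [degree_eq_natDegree (cub_monic _ _).ne_zero, cub_natDegree]
    norm_num
  choose c hc using hroots
  obtain ⟨l, hl⟩ := exists_wt (k := k) (Ω := Ω) hinj J A B
  obtain ⟨hfd, hfr⟩ := finrank_adjoin hc (hno c hc) J
  -- degree over `K'`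
  have hdsc : ∀ i, 4 * A i ^ 3 + 27 * B i ^ 2 ≠ 0 := by
    intro i h
    apply hds i
    apply hψinj
    rw [map_zero, ← h]
    unfold dsc
    rw [map_add, map_mul, map_mul, map_pow, map_pow, map_ofNat, map_ofNat]
  have hge : 3 ^ J.card ≤ (minpoly K' (∑ j ∈ J, algebraMap K' Ω (ψ (l j)) * c j)).natDegree := by
    refine natDegree_ge hc hdsc hfd hfr (fun j => ψ (l j)) ?_
    intro z z' hz hz' h
    refine hl z z' hz hz' ?_
    simp only [hcomp, ← hψ']
    exact h
  set y : Ω := ∑ j ∈ J, algebraMap k[X] Ω (l j) * c j with hy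
  have hy' : (∑ j ∈ J, algebraMap K' Ω (ψ (l j)) * c j) = y := by
    rw [hy]
    refine Finset.sum_congr rfl fun j _ => ?_
    rw [hcomp]
    rfl
  rw [hy'] at hge
  -- integrality over `k[X]`
  have hcR : ∀ j, aeval (c j) (cub (a j) (b j)) = 0 := by
    intro j
    have h1 := hc j
    rw [hA, hB] at h1
    simp only [cub, map_add, map_mul, map_pow, aeval_X, aeval_C] at h1 ⊢
    rw [hcomp, hcomp]
    exact h1
  have hcint : ∀ j, IsIntegral k[X] (c j) := fun j => ⟨cub (a j) (b j), cub_monic _ _, hcR j⟩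
  have hyint : IsIntegral k[X] y := by
    rw [hy]
    refine IsIntegral.sum _ fun j _ => ?_
    exact (isIntegral_algebraMap).mul (hcint j)
  set H : k[X][X] := minpoly k[X] y with hH
  have hHm : H.Monic := minpoly.monic hyint
  have hHK : minpoly K y = H.map (algebraMap k[X] K) :=
    minpoly.isIntegrallyClosed_eq_field_fractions' K hyint
  have hyK : IsIntegral K y := hyint.tower_top
  -- degree over `K`
  have hcK : ∀ j, aeval (c j) (cub (algebraMap k[X] K (a j)) (algebraMap k[X] K (b j))) = 0 := by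
    intro j
    rw [← cub_map, aeval_map_algebraMap]
    exact hcR j
  obtain ⟨hfdK, hfrK⟩ := finrank_adjoin_le hcK J
  haveI := hfdK
  have hle : K⟮y⟯ ≤ adjoin K (c '' (J : Set ι)) := by
    rw [adjoin_simple_le_iff, hy]
    refine sum_mem fun j hj => mul_mem ?_ (subset_adjoin K _ ⟨j, hj, rfl⟩)
    rw [IsScalarTower.algebraMap_apply k[X] K Ω]
    exact (adjoin K (c '' (J : Set ι))).algebraMap_mem _
  have hdle : H.natDegree ≤ 3 ^ J.card := by
    have h1 : H.natDegree = Module.finrank K K⟮y⟯ := by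
      rw [adjoin.finrank hyK, hHK, hHm.natDegree_map]
    rw [h1]
    refine le_trans ?_ hfrK
    exact IntermediateField.finrank_le_of_le_right hle
  have hdvd : minpoly K' y ∣ H.map ψ := by
    apply minpoly.dvd
    rw [aeval_def, eval₂_map]
    have h1 : aeval y H = 0 := minpoly.aeval k[X] y
    rw [aeval_def] at h1
    have h2 : (algebraMap K' Ω).comp ψ = algebraMap k[X] Ω := RingHom.ext fun p => (hcomp p).symm
    rw [h2]
    exact h1
  have hyK' : IsIntegral K' y := ⟨H.map ψ, hHm.map ψ, by
    have h1 : aeval y H = 0 := minpoly.aeval k[X] y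
    rw [aeval_def] at h1
    rw [eval₂_map]
    have h2 : (algebraMap K' Ω).comp ψ = algebraMap k[X] Ω := RingHom.ext fun p => (hcomp p).symm
    rw [h2]
    exact h1⟩
  have heq : H.map ψ = minpoly K' y := by
    refine eq_of_monic_of_dvd_of_natDegree_le (minpoly.monic hyK') (hHm.map ψ) hdvd ?_
    rw [hHm.natDegree_map]
    exact hdle.trans hge
  have hdeg : H.natDegree = 3 ^ J.card := by
    refine le_antisymm hdle ?_
    have h1 : (minpoly K' y).natDegree = H.natDegree := by rw [← heq, hHm.natDegree_map]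
    rw [← h1]
    exact hge
  have hirr' : Irreducible (H.map (mapRingHom (algebraMap k k'))) := by
    rw [(hHm.map _).irreducible_iff_irreducible_map_fraction_map (K := K'), Polynomial.map_map]
    show Irreducible (H.map ψ)
    rw [heq]
    exact minpoly.irreducible hyK'
  -- separability over `K`
  have hsep : (H.map (algebraMap k[X] K)).Separable := by
    have hirrK : Irreducible (H.map (algebraMap k[X] K)) := by
      rw [← hHK]
      exact minpoly.irreducible hyK
    rw [separable_iff_derivative_ne_zero hirrK]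
    intro h0
    have h1 := congrArg (fun p => coeff p (H.natDegree - 1)) h0
    have hpos : 0 < H.natDegree := by rw [hdeg]; positivity
    simp only [coeff_derivative, coeff_zero, coeff_map] at h1
    rw [Nat.sub_add_cancel hpos, hHm.coeff_natDegree, map_one, one_mul] at h1
    have h2 : ((H.natDegree : ℕ) : K) = 0 := by
      rw [← h1]
      rw [Nat.cast_sub hpos]
      push_cast
      ring
    rw [hdeg] at h2
    push_cast at h2
    have h3 : (3 : K) = 0 := pow_eq_zero_iff (n := J.card) (by
      intro h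
      rw [h, pow_zero] at h2
      exact absurd h2 one_ne_zero) |>.1 h2
    apply h6
    have h4 : algebraMap k[X] K (C (6 : k)) = 0 := by
      have : (C (6 : k) : k[X]) = 2 * 3 := by
        rw [show (6 : k) = 2 * 3 by norm_num, C_mul]
        rfl
      rw [this, map_mul, map_ofNat, map_ofNat, h3, mul_zero]
    have h5 := IsFractionRing.injective k[X] K (h4.trans (map_zero _).symm)
    exact C_eq_zero.1 h5
  obtain ⟨A₀, B₀, hAB⟩ := hsep
  -- the coordinates
  have hmem : ∀ j ∈ J, c j ∈ K⟮y⟯ := by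
    intro j hj
    have h1 : K⟮y⟯ = adjoin K (c '' (J : Set ι)) := by
      refine eq_of_le_of_finrank_le hle ?_
      rw [adjoin.finrank hyK, hHK, hHm.natDegree_map, hdeg]
      exact hfrK
    rw [h1]
    exact subset_adjoin K _ ⟨j, hj, rfl⟩
  have hrep : ∀ j, ∃ g : K[X], j ∈ J → aeval y g = c j ∧ g.natDegree < H.natDegree := by
    intro j
    by_cases hj : j ∈ J
    · obtain ⟨g, hg1, hg2⟩ := small_rep hyK (hmem j hj)
      rw [hHK, hHm.natDegree_map] at hg2
      exact ⟨g, fun _ => ⟨hg1, hg2⟩⟩
    · exact ⟨0, fun h => absurd h hj⟩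
  choose g hg using hrep
  obtain ⟨D, hD, hcl⟩ := clear_den (R := k[X]) (insert A₀ (insert B₀ (J.image g)))
  obtain ⟨A₁, hA₁⟩ := hcl A₀ (by simp)
  obtain ⟨B₁, hB₁⟩ := hcl B₀ (by simp)
  have he : ∀ j, ∃ e : k[X][X], j ∈ J → e.map (algebraMap k[X] K) = C (algebraMap k[X] K D) * g j := by
    intro j
    by_cases hj : j ∈ J
    · obtain ⟨e, he⟩ := hcl (g j) (by
        simp only [Finset.mem_insert, Finset.mem_image]
        exact Or.inr (Or.inr ⟨j, hj, rfl⟩))
      exact ⟨e, fun _ => he⟩
    · exact ⟨0, fun h => absurd h hj⟩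
  choose e he using he
  have hKinj : Function.Injective (algebraMap k[X] K) := IsFractionRing.injective _ _
  have hee : ∀ j ∈ J, aeval y (e j) = algebraMap k[X] Ω D * c j := by
    intro j hj
    rw [← aeval_map_algebraMap K, he j hj, map_mul, aeval_C, (hg j hj).1,
      ← IsScalarTower.algebraMap_apply]
  have hdisc : ∃ A B : k[X][X], A * H + B * derivative H = C D := by
    refine ⟨A₁, B₁, ?_⟩
    apply Polynomial.map_injective (algebraMap k[X] K) hKinj
    rw [Polynomial.map_add, Polynomial.map_mul, Polynomial.map_mul, hA₁, hB₁, map_C, ← derivative_map]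
    linear_combination C (algebraMap k[X] K D) * hAB
  have hroot : ∀ j ∈ J, H ∣ e j ^ 3 + C (a j * D ^ 2) * e j + C (b j * D ^ 3) := by
    intro j hj
    apply minpoly.isIntegrallyClosed_dvd hyint
    rw [map_add, map_add, map_pow, map_mul, aeval_C, aeval_C, hee j hj]
    have h1 := hcR j
    simp only [cub, map_add, map_mul, map_pow, aeval_X, aeval_C] at h1
    rw [map_mul, map_mul, map_pow, map_pow]
    linear_combination (algebraMap k[X] Ω D) ^ 3 * h1
  have hcc : H ∣ C D * X - ∑ j ∈ J, C (l j) * e j := by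
    apply minpoly.isIntegrallyClosed_dvd hyint
    rw [map_sub, map_mul, aeval_C, aeval_X, map_sum, sub_eq_zero]
    rw [hy, Finset.mul_sum]
    refine Finset.sum_congr rfl fun j hj => ?_
    rw [← hy, map_mul, aeval_C, hee j hj]
    ring
  refine ⟨H, D, e, ⟨hHm, by rw [hdeg]; positivity, hD, hdisc, ?_⟩, hdeg, ?_, hroot, ?_⟩
  · intro k'' _ _ _ _
    exact irr_all k' hirr' k''
  · intro j hj
    have h1 : (e j).natDegree = ((e j).map (algebraMap k[X] K)).natDegree :=
      (natDegree_map_eq_of_injective hKinj _).symm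
    rw [h1, he j hj]
    refine lt_of_le_of_lt (natDegree_C_mul_le _ _) (hg j hj).2
  · exact Run7.h984.TS.model_bij hHm hdeg hdisc hroot hcc

end build

end Run7.h875.TS
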