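import Pool.Agent.Run7.h875.TS.Mod
import Pool.Agent.Run7.h875.TS.Mod5

/-!
# Simultaneous twists, MODEL: the theorem
-/

set_option autoImplicit false
set_option linter.all false

open Polynomial IntermediateField
open Pool.Agent.N199.PP Pool.Agent.N874.PP
open scoped Classical

namespace Run7.h875.TS

/-- Divisibility by an irreducible polynomial and values at its zeros. -/
theorem dvd_iff_root {k k' : Type} [Field k] [Field k'] [Algebra k k'] {P f : k[X]} {τ : k'}
    (hP : Irreducible P) (h : aeval τ P = 0) : P ∣ f ↔ aeval τ f = 0 := by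
  have hint : IsIntegral k τ := by
    have : IsAlgebraic k τ := ⟨P, hP.ne_zero, h⟩
    exact this.isIntegral
  have h1 : Associated (minpoly k τ) P :=
    (minpoly.irreducible hint).associated_of_dvd hP (minpoly.dvd k τ h)
  rw [← h1.dvd_iff_dvd_left, minpoly.dvd_iff]

theorem model (hM1 : S_M1) (hM2 : S_M2) : S_MODEL := by
  intro k ι _ _ _ a b p h6 hdata J
  set k' := AlgebraicClosure k with hk'
  set K := FractionRing k[X] with hK
  set K' := FractionRing k'[X] with hK'
  set Ω := AlgebraicClosure K' with hΩ
  set ψ : k[X] →+* K' := (algebraMap k'[X] K').comp (mapRingHom (algebraMap k k')) with hψ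
  have hψinj : Function.Injective ψ := by
    intro x y h
    apply Polynomial.map_injective (algebraMap k k') (algebraMap k k').injective
    exact IsFractionRing.injective k'[X] K' h
  letI alg : Algebra k[X] Ω := ((algebraMap K' Ω).comp ψ).toAlgebra
  have hcomp : ∀ p : k[X], algebraMap k[X] Ω p =
      algebraMap K' Ω (algebraMap k'[X] K' (p.map (algebraMap k k'))) := fun p => rfl
  have hinj : Function.Injective (algebraMap k[X] Ω) := by
    intro x y h
    rw [hcomp, hcomp] at h
    exact hψinj ((algebraMap K' Ω).injective h)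
  haveI : FaithfulSMul k[X] Ω := (faithfulSMul_iff_algebraMap_injective _ _).2 hinj
  letI alg2 : Algebra K Ω := FractionRing.liftAlgebra k[X] Ω
  haveI : IsScalarTower k[X] K Ω := FractionRing.isScalarTower_liftAlgebra k[X] Ω
  have h6' : (6 : k') ≠ 0 := by
    intro h
    apply h6
    apply (algebraMap k k').injective
    rw [map_zero, ← h]
    exact map_ofNat _ _
  have hds : ∀ i, dsc (a i) (b i) ≠ 0 := by
    intro i h
    apply hdata.pnd i
    rw [h]
    exact dvd_zero _
  refine build (K := K) (k' := k') (K' := K') (Ω := Ω) hcomp h6 hds ?_ J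
  intro c hc J₀ j hj ρ hρ
  -- the place
  obtain ⟨τ, hτ⟩ : ∃ τ : k', aeval τ (p j) = 0 := by
    apply IsAlgClosed.exists_aeval_eq_zero
    exact (degree_pos_of_irreducible (hdata.pirr j)).ne'
  obtain ⟨φ, hφ1, hφ2⟩ := hM2 k' K' τ h6'
  refine no_root_adjoin (J₀ := J₀) (j₀ := j)
    (A := fun i => algebraMap k'[X] K' ((a i).map (algebraMap k k')))
    (B := fun i => algebraMap k'[X] K' ((b i).map (algebraMap k k'))) φ ?_ ?_ ?_ ?_
  · exact hM1 k k' K' (a j) (b j) (p j) h6 (hdata.irr j) (hdata.pirr j) (hdata.pd j) (hdata.pnd j)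
  · intro i hi
    apply hφ1
    have hne : j ≠ i := fun h => hj (h ▸ hi)
    have h1 := hdata.pne j i hne
    rw [dvd_iff_root (hdata.pirr j) hτ] at h1
    intro h2
    apply h1
    rw [← h2]
    unfold dsc
    simp only [map_add, map_mul, map_pow, eval_add, eval_mul, eval_pow, eval_map_algebraMap,
      map_ofNat, eval_ofNat]
  · have h1 : φ (-(4 * (algebraMap k'[X] K' ((a j).map (algebraMap k k'))) ^ 3 +
        27 * (algebraMap k'[X] K' ((b j).map (algebraMap k k'))) ^ 2)) =
        φ (algebraMap k'[X] K' ((-(dsc (a j) (b j))).map (algebraMap k k'))) := by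
      congr 1
      unfold dsc
      simp only [Polynomial.map_neg, Polynomial.map_add, Polynomial.map_mul, Polynomial.map_pow,
        map_neg, map_add, map_mul, map_pow, Polynomial.map_ofNat, map_ofNat]
    show ¬ IsSquare (φ (-(4 * (algebraMap k'[X] K' ((a j).map (algebraMap k k'))) ^ 3 +
        27 * (algebraMap k'[X] K' ((b j).map (algebraMap k k'))) ^ 2)))
    rw [h1]
    obtain ⟨q, hq⟩ := hdata.pd j
    have hpq : ¬ p j ∣ q := by
      rintro ⟨q', rfl⟩
      apply hdata.pnd j
      exact ⟨q', by rw [hq]; ring⟩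
    rw [dvd_iff_root (hdata.pirr j) hτ] at hpq
    have hder : aeval τ (derivative (p j)) ≠ 0 := by
      intro h
      have hsep : (p j).Separable := PerfectField.separable_of_irreducible (hdata.pirr j)
      obtain ⟨u, v, huv⟩ := hsep
      have h2 := congrArg (aeval τ) huv
      rw [map_add, map_mul, map_mul, hτ, h, mul_zero, mul_zero, add_zero, map_one] at h2
      exact one_ne_zero h2.symm
    apply hφ2
    · rw [eval_map_algebraMap, map_neg, hq, map_mul, hτ, zero_mul, neg_zero]
    · rw [derivative_map, eval_map_algebraMap, hq, derivative_neg, derivative_mul, map_neg, map_add,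
        map_mul, map_mul, hτ, zero_mul, add_zero]
      exact neg_ne_zero.2 (mul_ne_zero hder hpq)
  · refine adjoin.mono K' _ _ ?_ hρ
    rintro x ⟨i, hi, rfl⟩
    exact ⟨i, hi, hc i⟩

end Run7.h875.TS
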