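import Pool.Agent.Run7.h875.TS.FinT
import Pool.Agent.Run7.h875.TS.Conc4
import Pool.Agent.Run7.h875.TS.Mod6
import Pool.Agent.Run7.h225.TS.REP
import Pool.Agent.Run7.h225.TS.STEP
import Pool.Agent.Run7.h225.TS.REC2
import Pool.Agent.Run7.h225.TS.GRP
import Pool.Agent.Run7.h225.TS.STK
import Pool.Agent.Run7.h550.TS.AVG
import Pool.Agent.Run7.h437.TS.TRS
import Pool.Agent.Run7.h437.TS.W
import Pool.Agent.Run7.h437.TS.LAST
import Pool.Agent.Run7.h437.TS.KILL
import Pool.Agent.Run7.h298.TS.Clsu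
import Pool.Agent.Run7.h298.TS.Uni
import Pool.Agent.Run7.h298.TS.L2
import Pool.Agent.Run7.h298.TS.R2
import Pool.Agent.Run7.h984.TS.Double
import Pool.Agent.Run7.h984.TS.M2
import Pool.Agent.Run7.h333.TS.NSQ
import Pool.Agent.Run7.h333.TS.M1
import Pool.Agent.Run7.h333.TS.DIC
import Pool.Agent.Run7.h784.TS.One
import Pool.Agent.Run7.h784.TS.Sqf

/-!
# Simultaneous twists: everything together
-/

set_option autoImplicit false
set_option linter.all false

open Polynomial
open Pool.Agent.N874.PP Pool.Agent.TH115.GD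
open scoped Classical

namespace Run7.h875.TS

theorem all_model : S_MODEL := model Run7.h333.TS.m1 Run7.h984.TS.m2
theorem all_w : S_W := Run7.h437.TS.w all_model Run7.h984.TS.double Run7.h333.TS.nsq
theorem all_step : S_STEP :=
  Run7.h225.TS.STEP.step Run7.h298.TS.uni Run7.h225.TS.REC2.rec2 Run7.h298.TS.l2 Run7.h298.TS.r2
theorem all_one : S_ONE :=
  Run7.h784.TS.one all_w Run7.h225.TS.STK.stk Run7.h437.TS.trs Run7.h333.TS.dic all_step
    Run7.h225.TS.REP.rep Run7.h225.TS.GRP.grp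
theorem all_avg : S_AVG :=
  Run7.h550.TS.avg all_one all_step Run7.h225.TS.REP.rep Run7.h225.TS.GRP.grp Run7.h437.TS.trs
theorem all_kill : S_KILL := Run7.h437.TS.kill all_w Run7.h225.TS.STK.stk Run7.h333.TS.dic
theorem all_last : S_LAST := Run7.h437.TS.last all_w Run7.h225.TS.STK.stk
theorem all_conc : S_CONC := conc Run7.h298.TS.loce

theorem all_fin2 : S_FIN2 :=
  fin2 all_avg all_kill all_last all_step Run7.h298.TS.clsu all_conc Run7.h784.TS.SQF.sqf'
    Run7.h225.TS.REP.rep Run7.h225.TS.GRP.grp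


end Run7.h875.TS
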