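import Pool.Agent.Run7.h875.TS.Cnt

/-!
# Simultaneous twists: the final count, second part
-/

set_option autoImplicit false
set_option linter.all false

open Polynomial
open scoped Classical

namespace Run7.h875.TS

section

variable {k : Type} [Field k] [Finite k] {φ : Finset k[X] → (k[X] → k[X]) → ℕ} {Bad : k[X]}
  {T' : Finset k[X]}

/-- The starting states. -/
theorem st0 {g : k[X] → k[X]} (hg : NRs g) {D : k[X]} (hD : D.Monic) (hs : Squarefree D)
    (hc : IsCoprime D Bad) (T : Finset k[X]) : St Bad (prD D) (uT g T) D where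
  mon := hD
  sf := hs
  cop := by
    intro P hP h1 h2
    exact hP.not_isUnit (hc.isUnit_of_dvd' h1 h2)
  pr := rfl
  nu := by
    intro P hP
    rw [mem_prD hD.ne_zero] at hP
    unfold uT
    split_ifs with h
    · intro h1
      refine hg P hP.2.1 0 ?_
      simpa using h1
    · exact fun h1 => hP.2.1.not_isUnit (isUnit_of_dvd_one h1)

/-- The product determines the data. -/
theorem det (hI : Inv φ Bad) (hT : ∀ P ∈ T', Irreducible P ∧ P ∣ Bad) {g : k[X] → k[X]} (hg : NRs g)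
    {R ℓ : ℕ} {f f' : Fin R → ℕ} (hf : ∀ j : Fin R, f j ∈ Finset.Ico (((j : ℕ) + 1) * ℓ) (((j : ℕ) + 2) * ℓ))
    (hf' : ∀ j : Fin R, f' j ∈ Finset.Ico (((j : ℕ) + 1) * ℓ) (((j : ℕ) + 2) * ℓ))
    {m m' : ℕ} (hm : (R + 1) * ℓ ≤ m) (hm' : (R + 1) * ℓ ≤ m') {Y Y' : k[X]}
    (hY : Y.Monic) (hY' : Y'.Monic) (hs : Squarefree Y) (hs' : Squarefree Y')
    (hc : IsCoprime Y Bad) (hc' : IsCoprime Y' Bad) (hd : Y.natDegree < ℓ) (hd' : Y'.natDegree < ℓ)
    {T U : Finset k[X]} (hTY : T ⊆ prD Y) (hUY : U ⊆ prD Y') {D : k[X]}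
    (h : D ∈ EX φ Bad T' m (List.ofFn f) (prD Y) (uT g T) Y)
    (h' : D ∈ EX φ Bad T' m' (List.ofFn f') (prD Y') (uT g U) Y') :
    f = f' ∧ Y = Y' ∧ T = U := by
  have s1 := spec hI hT m _ _ _ _ (st0 hg hY hs hc T) D h
  have s2 := spec hI hT m' _ _ _ _ (st0 hg hY' hs' hc' U) D h'
  have hℓ : 0 < ℓ := by omega
  have dl : ∀ {Y : k[X]}, Y.Monic → Y.natDegree < ℓ → ∀ P ∈ prD Y, P.natDegree < ℓ := by
    intro Y hY hd P hP
    rw [mem_prD hY.ne_zero] at hP
    exact lt_of_le_of_lt (natDegree_le_of_dvd hP.2.2 hY.ne_zero) hd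
  have fl : ∀ {f : Fin R → ℕ}, (∀ j : Fin R, f j ∈ Finset.Ico (((j : ℕ) + 1) * ℓ) (((j : ℕ) + 2) * ℓ)) →
      ∀ d ∈ List.ofFn f, ℓ ≤ d ∧ d < (R + 1) * ℓ := by
    intro f hf d hd
    rw [List.mem_ofFn] at hd
    obtain ⟨j, rfl⟩ := hd
    have h1 := Finset.mem_Ico.1 (hf j)
    have h2 : ((j : ℕ) + 2) * ℓ ≤ (R + 1) * ℓ := Nat.mul_le_mul_right _ (by omega)
    have h3 : 1 * ℓ ≤ ((j : ℕ) + 1) * ℓ := Nat.mul_le_mul_right _ (by omega)
    omega
  -- the primes of small degree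
  have pr : ∀ {Y : k[X]} {f : Fin R → ℕ} {m : ℕ} {u : k[X] → k[X]}, Y.Monic → Y.natDegree < ℓ →
      (∀ j : Fin R, f j ∈ Finset.Ico (((j : ℕ) + 1) * ℓ) (((j : ℕ) + 2) * ℓ)) → (R + 1) * ℓ ≤ m →
      Spec φ Bad T' m (List.ofFn f) (prD Y) u Y D →
      prD Y = (prD D).filter fun P => P.natDegree < ℓ := by
    intro Y f m u hY hd hf hm s
    ext P
    rw [Finset.mem_filter, mem_prD s.mon.ne_zero]
    constructor
    · intro hP
      have h1 := dl hY hd P hP
      rw [mem_prD hY.ne_zero] at hP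
      exact ⟨⟨hP.1, hP.2.1, hP.2.2.trans s.dvd⟩, h1⟩
    · rintro ⟨⟨h1, h2, h3⟩, h4⟩
      rcases s.new P h1 h2 h3 with h5 | h5 | h5
      · exact h5
      · have := fl hf _ h5
        omega
      · have : 1 * ℓ ≤ (R + 1) * ℓ := Nat.mul_le_mul_right _ (by omega)
        omega
  have e1 := pr hY hd hf hm s1
  have e2 := pr hY' hd' hf' hm' s2
  have e3 : prD Y = prD Y' := e1.trans e2.symm
  have e4 : Y = Y' := by rw [← prod_prD hY hs, ← prod_prD hY' hs', e3]
  refine ⟨?_, e4, ?_⟩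
  · funext j
    obtain ⟨P, h1, h2, h3, h4, h5⟩ := s1.ex (f j) (List.mem_ofFn.2 ⟨j, rfl⟩)
    rcases s2.new P h1 h2 h3 with h6 | h6 | h6
    · exact absurd (e3 ▸ h6) h4
    · rw [List.mem_ofFn] at h6
      obtain ⟨j', hj'⟩ := h6
      rw [h5] at hj'
      have i1 := Finset.mem_Ico.1 (hf j)
      have i2 := Finset.mem_Ico.1 (hf' j')
      rw [hj'] at i2
      have h7 : j' = j := by
        apply Fin.ext
        by_contra hne
        rcases lt_or_gt_of_ne hne with hlt | hlt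
        · have : ((j' : ℕ) + 2) * ℓ ≤ ((j : ℕ) + 1) * ℓ := Nat.mul_le_mul_right _ (by omega)
          omega
        · have : ((j : ℕ) + 2) * ℓ ≤ ((j' : ℕ) + 1) * ℓ := Nat.mul_le_mul_right _ (by omega)
          omega
      rw [← hj', h7]
    · have := fl hf (f j) (List.mem_ofFn.2 ⟨j, rfl⟩)
      omega
  · have key : ∀ {T : Finset k[X]} {m : ℕ} {ms : List ℕ} {Y : k[X]}, Y.Monic →
        Spec φ Bad T' m ms (prD Y) (uT g T) Y D → ∀ P ∈ prD Y,
        (P ∈ T ↔ ¬ ∃ z : k[X], P ∣ z ^ 2 - D / P) := by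
      intro T m ms Y hY s P hP
      have h0 := (mem_prD hY.ne_zero).1 hP
      obtain ⟨z, hz⟩ := s.cls P hP
      have hDP : ¬ P ∣ D / P := ndvd_div h0.2.1 s.sf (h0.2.2.trans s.dvd)
      have hzP : P ∈ T → ¬ P ∣ g P := fun _ h1 => hg P h0.2.1 0 (by simpa using h1)
      constructor
      · rintro hPT ⟨w, hw⟩
        unfold uT at hz
        rw [if_pos hPT] at hz
        have h1 := sqr_mul h0.2.1 (x := D / P * g P) (y := D / P)
          (fun h2 => (h0.2.1.prime.dvd_or_dvd h2).elim hDP (hzP hPT)) hDP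
          ⟨fun _ => ⟨w, hw⟩, fun _ => ⟨z, hz⟩⟩
        obtain ⟨v, hv⟩ := cls_iff (x := D / P * g P) h0.2.1 hDP h1
        -- v ^ 2 (D/P) ≡ (D / P) g
        have h2 : P ∣ D / P * (v ^ 2 - g P) := by
          have e : D / P * (v ^ 2 - g P) = v ^ 2 * (D / P) - D / P * g P := by ring
          rw [e]
          exact hv
        exact hg P h0.2.1 v ((h0.2.1.prime.dvd_or_dvd h2).resolve_left hDP)
      · intro hn
        by_contra hPT
        unfold uT at hz
        rw [if_neg hPT, mul_one] at hz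
        exact hn ⟨z, hz⟩
    ext P
    have k1 := key hY s1
    have k2 := key hY' s2
    constructor
    · intro h1
      have h2 := hTY h1
      rw [k2 P (e3 ▸ h2), ← k1 P h2]
      exact h1
    · intro h1
      have h2 := hUY h1
      rw [k1 P (e3.symm ▸ h2), ← k2 P h2]
      exact h1

end

end Run7.h875.TS
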