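import Pool.Agent.Run7.h875.TS.Cnt2

/-!
# Simultaneous twists: the final count, third part
-/

set_option autoImplicit false
set_option linter.all false

open Polynomial
open scoped Classical

namespace Run7.h875.TS

/-- Growth. -/
theorem growth (C : ℝ) : ∃ N : ℕ, ∀ n ≥ N, C * (1 + n) ^ 2 * 2 ^ (n / 8) ≤ (2 : ℝ) ^ (n / 4) := by
  have h1 : Filter.Tendsto (fun s : ℕ => |C| * 324 * ((s : ℝ) ^ 2 / 2 ^ s)) Filter.atTop (nhds 0) := by
    have := tendsto_pow_const_div_const_pow_of_one_lt 2 (r := (2 : ℝ)) (by norm_num)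
    simpa using this.const_mul (|C| * 324)
  have h2 := (h1.eventually (gt_mem_nhds (show (0 : ℝ) < 1 by norm_num))).exists_forall_of_atTop
  obtain ⟨N, hN⟩ := h2
  refine ⟨8 * (N + 1), fun n hn => ?_⟩
  obtain ⟨s, hs⟩ : ∃ s, s = n / 8 := ⟨_, rfl⟩
  have hsN : N ≤ s := by omega
  have hs1 : 1 ≤ s := by omega
  have h3 := hN s hsN
  have h4 : (1 + (n : ℝ)) ^ 2 ≤ 324 * (s : ℝ) ^ 2 := by
    have h5 : (n : ℝ) + 1 ≤ 18 * s := by
      have : n + 1 ≤ 18 * s := by omega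
      exact_mod_cast this
    have h6 : (0 : ℝ) ≤ 1 + n := by positivity
    nlinarith
  have h7 : (2 : ℝ) ^ s * 2 ^ s ≤ 2 ^ (n / 4) := by
    rw [← pow_add]
    exact pow_le_pow_right₀ (by norm_num) (by omega)
  have h8 : |C| * 324 * (s : ℝ) ^ 2 ≤ 2 ^ s := by
    have h9 : (0 : ℝ) < 2 ^ s := by positivity
    have h10 : |C| * 324 * ((s : ℝ) ^ 2 / 2 ^ s) * 2 ^ s = |C| * 324 * (s : ℝ) ^ 2 := by
      field_simp
    nlinarith
  calc C * (1 + n) ^ 2 * 2 ^ (n / 8) ≤ |C| * (1 + n) ^ 2 * 2 ^ (n / 8) := by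
        have := le_abs_self C
        have h11 : (0 : ℝ) ≤ (1 + n) ^ 2 * 2 ^ (n / 8) := by positivity
        nlinarith
    _ ≤ |C| * (324 * (s : ℝ) ^ 2) * 2 ^ s := by
        rw [← hs]
        gcongr
    _ = (|C| * 324 * (s : ℝ) ^ 2) * 2 ^ s := by ring
    _ ≤ 2 ^ s * 2 ^ s := by gcongr
    _ ≤ _ := h7

theorem sqrt_low {q : ℝ} (hq : 2 ≤ q) {n m : ℕ} (hm : n ≤ 2 * m) :
    (2 : ℝ) ^ (n / 4) ≤ √(q ^ m) := by
  apply Real.le_sqrt_of_sq_le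
  rw [← pow_mul]
  calc (2 : ℝ) ^ (n / 4 * 2) ≤ 2 ^ m := pow_le_pow_right₀ (by norm_num) (by omega)
    _ ≤ q ^ m := pow_le_pow_left₀ (by norm_num) hq m

/-- The main term wins. -/
theorem main_term {c₀ C₀ q : ℝ} (hc : 0 < c₀) (hC : 0 ≤ C₀) (hq : 2 ≤ q) (R : ℕ) :
    ∃ N : ℕ, ∀ n ≥ N, ∀ m : ℕ, 0 < m → n ≤ 2 * m → m ≤ n → ∀ r : ℕ, r ≤ n / 8 + R →
      ∀ s : ℕ, s ≤ r →
      c₀ / 2 * (1 / 2) ^ r * q ^ m / m ≤ c₀ * (1 / 2) ^ s * q ^ m / m - C₀ * (1 + n) * √(q ^ m) := by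
  obtain ⟨N, hN⟩ := growth (2 * C₀ * 2 ^ R / c₀)
  refine ⟨N, fun n hn m hm0 hnm hmn r hr s hs => ?_⟩
  have h1 := (hN n hn).trans (sqrt_low hq hnm)
  have hm1 : (0 : ℝ) < m := by exact_mod_cast hm0
  have hq0 : (0 : ℝ) < q ^ m := by positivity
  have h2 : C₀ * (1 + n) * √(q ^ m) ≤ c₀ / 2 * (1 / 2) ^ r * q ^ m / m := by
    rw [le_div_iff₀ hm1]
    have h3 : C₀ * (1 + n) * m * 2 ^ r ≤ c₀ / 2 * √(q ^ m) := by
      have h4 : C₀ * (1 + n) * m * 2 ^ r ≤ C₀ * (1 + n) * (1 + n) * (2 ^ (n / 8) * 2 ^ R) := by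
        rw [← pow_add]
        have h5 : (m : ℝ) ≤ 1 + n := by
          have : m ≤ 1 + n := by omega
          exact_mod_cast this
        have h6 : (2 : ℝ) ^ r ≤ 2 ^ (n / 8 + R) := pow_le_pow_right₀ (by norm_num) hr
        gcongr
      calc _ ≤ _ := h4
        _ = c₀ / 2 * (2 * C₀ * 2 ^ R / c₀ * (1 + n) ^ 2 * 2 ^ (n / 8)) := by
          field_simp
        _ ≤ _ := by gcongr
    have h5 : √(q ^ m) * √(q ^ m) = q ^ m := Real.mul_self_sqrt hq0.le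
    have h6 : (1 / 2 : ℝ) ^ r * 2 ^ r = 1 := by
      rw [← mul_pow]; norm_num
    calc C₀ * (1 + n) * √(q ^ m) * m
        = (C₀ * (1 + n) * m * 2 ^ r) * ((1 / 2) ^ r * √(q ^ m)) := by
          linear_combination (-(C₀ * (1 + n) * m * √(q ^ m))) * h6
      _ ≤ (c₀ / 2 * √(q ^ m)) * ((1 / 2) ^ r * √(q ^ m)) := by gcongr
      _ = c₀ / 2 * (1 / 2) ^ r * q ^ m := by
          linear_combination (c₀ / 2 * (1 / 2) ^ r) * h5
  have h3 : c₀ * (1 / 2) ^ r * q ^ m / m ≤ c₀ * (1 / 2) ^ s * q ^ m / m := by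
    have h4 : (1 / 2 : ℝ) ^ r ≤ (1 / 2) ^ s := pow_le_pow_of_le_one (by norm_num) (by norm_num) hs
    gcongr
  have h4 : c₀ / 2 * (1 / 2) ^ r * q ^ m / m + c₀ / 2 * (1 / 2) ^ r * q ^ m / m =
      c₀ * (1 / 2) ^ r * q ^ m / m := by ring
  linarith

/-- The steps: the main term wins for degrees at least `n / A`. -/
theorem main_term2 {c₀ C₀ q : ℝ} (hc : 0 < c₀) (hC : 0 ≤ C₀) (hq : 2 ≤ q) (A : ℕ) :
    ∃ N : ℕ, ∀ n ≥ N, ∀ m : ℕ, 0 < m → n ≤ A * m →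
      c₀ / 2 * q ^ m / m ≤ c₀ * q ^ m / m - C₀ * (1 + n) * √(q ^ m) := by
  obtain ⟨N, hN⟩ := growth (2 * C₀ * (A + 1) / c₀)
  refine ⟨A * (N + 1) + 1, fun n hn m hm0 hnm => ?_⟩
  have hm1 : (0 : ℝ) < m := by exact_mod_cast hm0
  have hA : N ≤ m := by
    by_contra h
    have h1 : A * m ≤ A * N := Nat.mul_le_mul_left _ (by omega)
    have h2 : A * (N + 1) = A * N + A := by ring
    omega
  have h1 := (hN m hA).trans (sqrt_low (n := m) (m := m) hq (by omega))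
  have hq0 : (0 : ℝ) < q ^ m := by positivity
  have h2 : C₀ * (1 + n) * √(q ^ m) ≤ c₀ / 2 * q ^ m / m := by
    rw [le_div_iff₀ hm1]
    have h3 : C₀ * (1 + n) * m ≤ c₀ / 2 * √(q ^ m) := by
      have h4 : C₀ * (1 + n) * m ≤ C₀ * ((A + 1) * (1 + m)) * (1 + m) * 2 ^ (m / 8) := by
        have h5 : (1 : ℝ) + n ≤ (A + 1) * (1 + m) := by
          have h6 : (n : ℝ) ≤ A * m := by exact_mod_cast hnm
          have h7 : (0 : ℝ) ≤ A := by positivity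
          nlinarith
        have h8 : (1 : ℝ) ≤ 2 ^ (m / 8) := one_le_pow₀ (by norm_num)
        calc C₀ * (1 + n) * m ≤ C₀ * ((A + 1) * (1 + m)) * (1 + m) := by
              gcongr
              linarith
          _ ≤ _ := le_mul_of_one_le_right (by positivity) h8
      calc _ ≤ _ := h4
        _ = c₀ / 2 * (2 * C₀ * (A + 1) / c₀ * (1 + m) ^ 2 * 2 ^ (m / 8)) := by
          field_simp
        _ ≤ _ := by gcongr
    have h5 : √(q ^ m) * √(q ^ m) = q ^ m := Real.mul_self_sqrt hq0.le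
    calc C₀ * (1 + n) * √(q ^ m) * m
        = (C₀ * (1 + n) * m) * √(q ^ m) := by ring
      _ ≤ (c₀ / 2 * √(q ^ m)) * √(q ^ m) := by gcongr
      _ = c₀ / 2 * q ^ m := by linear_combination (c₀ / 2) * h5
  have h4 : c₀ / 2 * q ^ m / m + c₀ / 2 * q ^ m / m = c₀ * q ^ m / m := by ring
  linarith

end Run7.h875.TS
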