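import Pool.Agent.Run7.h875.TS.Cnt3

/-!
# Simultaneous twists: the final count, fourth part
-/

set_option autoImplicit false
set_option linter.all false

open Polynomial
open scoped Classical

namespace Run7.h875.TS

theorem card_prD {k : Type} [Field k] {D : k[X]} (hD : D.Monic) (hs : Squarefree D) :
    (prD D).card ≤ D.natDegree := by
  have h1 : D.natDegree = ∑ P ∈ prD D, P.natDegree := by
    conv_lhs => rw [← prod_prD hD hs]
    rw [natDegree_prod_of_monic _ _ fun P hP => ((mem_prD hD.ne_zero).1 hP).1]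
  rw [h1, Finset.card_eq_sum_ones]
  exact Finset.sum_le_sum fun P hP => ((mem_prD hD.ne_zero).1 hP).2.1.natDegree_pos

theorem fin_deg (k : Type) [Field k] [Finite k] (n : ℕ) : {D : k[X] | D.natDegree = n}.Finite := by
  refine Set.Finite.subset (s := (fun c : Fin (n + 1) → k => ∑ i : Fin (n + 1), C (c i) * X ^ (i : ℕ)) ''
    Set.univ) (Set.finite_univ.image _) ?_
  rintro Q h
  refine ⟨fun i => Q.coeff i, trivial, ?_⟩
  simp only
  rw [Finset.sum_range (f := fun i => C (Q.coeff i) * X ^ i) |>.symm, ← (show Q.natDegree = n from h)]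
  exact Q.as_sum_range_C_mul_X_pow.symm

section

variable {k : Type} [Field k] [Finite k] {φ : Finset k[X] → (k[X] → k[X]) → ℕ} {Bad : k[X]}
  {T' : Finset k[X]}

theorem count (hI : Inv φ Bad) (hT : ∀ P ∈ T', Irreducible P ∧ P ∣ Bad) {g : k[X] → k[X]} (hg : NRs g)
    (hfin : ∀ N, (sqf Bad N).Finite) (Gd : k[X] → Prop)
    (A1 : ∃ c₀ C₀ : ℝ, 0 < c₀ ∧ 0 ≤ C₀ ∧ ∀ (S : Finset k[X]) (u : k[X] → k[X]) (Y : k[X]),
      St Bad S u Y → ∀ m : ℕ, 0 < m →
        c₀ * (Nat.card k : ℝ) ^ m / m - C₀ * (1 + Y.natDegree) * √((Nat.card k : ℝ) ^ m) ≤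
          ((stS φ Bad S u m).card : ℝ))
    (A2 : ∃ c₀ C₀ : ℝ, 0 < c₀ ∧ 0 ≤ C₀ ∧ ∀ (S : Finset k[X]) (u : k[X] → k[X]) (Y : k[X]),
      St Bad S u Y → ∀ (η : k[X] → Prop) (m : ℕ), 0 < m →
        c₀ * (1 / 2) ^ S.card * (Nat.card k : ℝ) ^ m / m -
          C₀ * (1 + Y.natDegree) * √((Nat.card k : ℝ) ^ m) ≤
          ((laS φ Bad T' S u η m).card : ℝ))
    (A4 : ∀ D : k[X], D.Monic → Squarefree D → Even D.natDegree →
      (∀ P : k[X], Irreducible P → P ∣ D → ¬ P ∣ Bad) →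
      (∀ P ∈ T', ∃ z : k[X], P ∣ z ^ 2 - D) → φ (prD D) (fun P => D / P) = 0 → Gd D)
    (A5 : ∃ (R : ℕ) (c : ℝ) (N₀ : ℕ), 0 < c ∧ ∀ N ≥ N₀, c * (Nat.card k : ℝ) ^ N ≤
      ∑ D ∈ (hfin N).toFinset, (1 / 2 : ℝ) ^ (prD D).card *
        (((prD D).powerset.filter fun T => φ (prD D) (uT g T) ≤ R).card : ℝ)) :
    ∃ c : ℝ, 0 < c ∧ ∃ N₀ : ℕ, ∀ n ≥ N₀, Even n →
      c * (Nat.card k : ℝ) ^ n ≤
        ({D : k[X] | D.Monic ∧ D.natDegree = n ∧ Squarefree D ∧ Gd D}.ncard : ℝ) := by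
  obtain ⟨c₀, C₀, hc₀, hC₀, h1⟩ := A1
  obtain ⟨c₀', C₀', hc₀', hC₀', h2⟩ := A2
  obtain ⟨R, c, N₁, hc, h5⟩ := A5
  have hq : (2 : ℝ) ≤ Nat.card k := by
    have : 2 ≤ Nat.card k := Finite.one_lt_card
    exact_mod_cast this
  set q : ℝ := (Nat.card k : ℝ) with hqd
  obtain ⟨W, hW⟩ : ∃ W, W = 8 * (R + 2) ^ 2 := ⟨_, rfl⟩
  obtain ⟨N₂, hN₂⟩ := main_term2 hc₀ hC₀ hq (2 * W)
  obtain ⟨N₃, hN₃⟩ := main_term hc₀' hC₀' hq R
  set c₁ : ℝ := min (c₀ / 2) (c₀' / 2) with hc₁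
  have hc₁0 : 0 < c₁ := lt_min (by positivity) (by positivity)
  have hW0 : 0 < W := by rw [hW]; positivity
  refine ⟨c * c₁ ^ (R + 1) * (1 / 2) ^ R / ((R + 2) ^ R * (4 * W)), by positivity,
    N₂ + N₃ + W * (2 * N₁ + 2), fun n hn hev => ?_⟩
  obtain ⟨ℓ, hℓ⟩ : ∃ ℓ, ℓ = n / W := ⟨_, rfl⟩
  have hℓ1 : 2 * N₁ + 2 ≤ ℓ := by
    rw [hℓ, Nat.le_div_iff_mul_le hW0]
    nlinarith
  have hℓn : W * ℓ ≤ n := by rw [hℓ]; exact Nat.mul_div_le n W
  have hnℓ : n < W * (ℓ + 1) := by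
    rw [hℓ]
    exact Nat.lt_mul_div_succ n hW0
  have hn0 : 0 < n := by nlinarith
  -- the finite set of good polynomials
  have hGf : {D : k[X] | D.Monic ∧ D.natDegree = n ∧ Squarefree D ∧ Gd D}.Finite :=
    (fin_deg k n).subset fun D hD => hD.2.1
  rw [Set.ncard_eq_toFinset_card _ hGf]
  -- the index sets
  let I₁ : Finset (ℕ × (Fin R → ℕ)) := (Finset.Ico (ℓ / 2) ℓ) ×ˢ
    (Fintype.piFinset fun j : Fin R => Finset.Ico (((j : ℕ) + 1) * ℓ) (((j : ℕ) + 2) * ℓ))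
  let I₂ : ℕ × (Fin R → ℕ) → Finset (Σ _ : k[X], Finset k[X]) := fun x =>
    (hfin x.1).toFinset.sigma fun D => (prD D).powerset.filter fun T => φ (prD D) (uT g T) ≤ R
  let mm : ℕ × (Fin R → ℕ) → ℕ := fun x => n - x.1 - ∑ j, x.2 j
  let E : ℕ × (Fin R → ℕ) → (Σ _ : k[X], Finset k[X]) → Finset k[X] := fun x y =>
    EX φ Bad T' (mm x) (List.ofFn x.2) (prD y.1) (uT g y.2) y.1
  -- facts on the indices
  have fI : ∀ x ∈ I₁, ℓ / 2 ≤ x.1 ∧ x.1 < ℓ ∧
      (∀ j : Fin R, x.2 j ∈ Finset.Ico (((j : ℕ) + 1) * ℓ) (((j : ℕ) + 2) * ℓ)) ∧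
      8 * (x.1 + ∑ j, x.2 j) ≤ n ∧ x.1 + ∑ j, x.2 j + mm x = n ∧ n ≤ 2 * mm x ∧ (R + 1) * ℓ ≤ mm x ∧
      mm x ≤ n ∧ 0 < mm x := by
    intro x hx
    rw [Finset.mem_product, Finset.mem_Ico, Fintype.mem_piFinset] at hx
    obtain ⟨⟨h3, h4⟩, h6⟩ := hx
    have h7 : ∑ j, x.2 j ≤ R * ((R + 1) * ℓ) := by
      calc ∑ j, x.2 j ≤ ∑ j : Fin R, (R + 1) * ℓ := by
            refine Finset.sum_le_sum fun j _ => ?_
            have h8 := (Finset.mem_Ico.1 (h6 j)).2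
            have h9 : ((j : ℕ) + 2) * ℓ ≤ (R + 1) * ℓ := Nat.mul_le_mul_right _ (by omega)
            omega
        _ = R * ((R + 1) * ℓ) := by simp
    have h8 : 8 * (x.1 + ∑ j, x.2 j) ≤ n := by
      have : 8 * (ℓ + R * ((R + 1) * ℓ)) ≤ W * ℓ := by rw [hW]; nlinarith
      omega
    have h9 : 8 * ((R + 1) * ℓ) ≤ n := by
      have : 8 * ((R + 1) * ℓ) ≤ W * ℓ := by
        rw [hW, ← mul_assoc]
        refine Nat.mul_le_mul_right _ (Nat.mul_le_mul_left _ ?_)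
        nlinarith
      omega
    refine ⟨h3, h4, h6, h8, ?_, ?_, ?_, ?_, ?_⟩ <;> simp only [mm] <;> omega
  have fD : ∀ x ∈ I₁, ∀ y ∈ I₂ x, y.1 ∈ sqf Bad x.1 ∧ y.2 ⊆ prD y.1 ∧
      φ (prD y.1) (uT g y.2) ≤ R := by
    intro x hx y hy
    rw [Finset.mem_sigma, Set.Finite.mem_toFinset, Finset.mem_filter, Finset.mem_powerset] at hy
    exact hy
  -- the union
  have hU : (I₁.sigma fun x => (I₂ x).sigma fun y => E x y).card ≤ hGf.toFinset.card := by
    refine Finset.card_le_card_of_injOn (fun z => z.2.2) ?_ ?_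
    · rintro ⟨x, ⟨y, D⟩⟩ hz
      rw [Finset.mem_coe, Finset.mem_sigma, Finset.mem_sigma] at hz
      obtain ⟨hx, hy, hD⟩ := hz
      obtain ⟨-, g2, g3, g4, g5, g6, g7, g8⟩ := fI x hx
      obtain ⟨d1, d2, d3⟩ := fD x hx y hy
      have s := spec hI hT _ _ _ _ _ (st0 hg d1.1 d1.2.2.1 d1.2.2.2 y.2) D hD
      rw [Finset.mem_coe, Set.Finite.mem_toFinset]
      have hdeg : D.natDegree = n := by
        rw [s.deg, List.sum_ofFn, d1.2.1]
        exact g5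
      refine ⟨s.mon, hdeg, s.sf, A4 D s.mon s.sf (by rw [hdeg]; exact hev) s.cop s.sq ?_⟩
      have := s.phi
      rw [List.length_ofFn] at this
      have d3' : φ (prD y.1) (uT g y.2) ≤ R := d3
      omega
    · rintro ⟨x, ⟨y, D⟩⟩ hz ⟨x', ⟨y', D'⟩⟩ hz' he
      change D = D' at he
      subst he
      rw [Finset.mem_coe, Finset.mem_sigma, Finset.mem_sigma] at hz hz'
      obtain ⟨hx, hy, hD⟩ := hz
      obtain ⟨hx', hy', hD'⟩ := hz'
      obtain ⟨-, g2, g3, g4, g5, g6, g7, g8⟩ := fI x hx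
      obtain ⟨d1, d2, d3⟩ := fD x hx y hy
      obtain ⟨-, g2', g3', g4', g5', g6', g7', g8'⟩ := fI x' hx'
      obtain ⟨d1', d2', d3'⟩ := fD x' hx' y' hy'
      obtain ⟨e1, e2, e3⟩ := det hI hT hg (ℓ := ℓ) g3 g3' g7 g7' d1.1 d1'.1 d1.2.2.1 d1'.2.2.1
        d1.2.2.2 d1'.2.2.2 (by rw [d1.2.1]; exact g2) (by rw [d1'.2.1]; exact g2') d2 d2' hD hD'
      obtain ⟨x1, x2⟩ := x
      obtain ⟨x1', x2'⟩ := x'
      obtain ⟨y1, y2⟩ := y
      obtain ⟨y1', y2'⟩ := y'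
      change x2 = x2' at e1
      change y1 = y1' at e2
      change y2 = y2' at e3
      subst e1 e2 e3
      have : x1 = x1' := d1.2.1.symm.trans d1'.2.1
      subst this
      rfl
  refine le_trans ?_ (Nat.cast_le.2 hU)
  rw [Finset.card_sigma, Nat.cast_sum]
  -- the lower bound for one index
  have key : ∀ x ∈ I₁, c * c₁ ^ (R + 1) * (1 / 2) ^ R * q ^ n / (((R + 2) * ℓ) ^ R * n) ≤
      ((((I₂ x).sigma fun y => E x y).card : ℕ) : ℝ) := by
    intro x hx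
    obtain ⟨g1, g2, g3, g4, g5, g6, g7, g8, g9⟩ := fI x hx
    rw [Finset.card_sigma, Finset.sum_sigma]
    push_cast
    have hpos : ∀ j : Fin R, 0 < x.2 j := fun j => by
      have h3 := (Finset.mem_Ico.1 (g3 j)).1
      have h4 : 1 * ℓ ≤ ((j : ℕ) + 1) * ℓ := Nat.mul_le_mul_right _ (by omega)
      omega
    have hE : ∀ D ∈ (hfin x.1).toFinset, ∀ T ∈ (prD D).powerset.filter fun T =>
        φ (prD D) (uT g T) ≤ R, (∏ j, (c₁ * q ^ (x.2 j) / (x.2 j : ℝ))) *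
          (c₁ * (1 / 2) ^ ((prD D).card + R) * q ^ (mm x) / (mm x : ℕ)) ≤ ((E x ⟨D, T⟩).card : ℝ) := by
      intro D hD T hTm
      rw [Set.Finite.mem_toFinset] at hD
      have hDc : (prD D).card ≤ x.1 := by
        rw [← hD.2.1]
        exact card_prD hD.1 hD.2.2.1
      have hnd : (List.ofFn x.2).Nodup := by
        rw [List.nodup_ofFn]
        intro j j' hjj
        have i1 := Finset.mem_Ico.1 (g3 j)
        have i2 := Finset.mem_Ico.1 (g3 j')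
        apply Fin.ext
        by_contra hne
        rcases lt_or_gt_of_ne hne with hlt | hlt
        · have : ((j : ℕ) + 2) * ℓ ≤ ((j' : ℕ) + 1) * ℓ := Nat.mul_le_mul_right _ (by omega)
          omega
        · have : ((j' : ℕ) + 2) * ℓ ≤ ((j : ℕ) + 1) * ℓ := Nat.mul_le_mul_right _ (by omega)
          omega
      have hms : ∀ d ∈ List.ofFn x.2, ℓ ≤ d ∧ d < (R + 1) * ℓ := by
        intro d hd
        rw [List.mem_ofFn] at hd
        obtain ⟨j, rfl⟩ := hd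
        have h3 := Finset.mem_Ico.1 (g3 j)
        have h4 : 1 * ℓ ≤ ((j : ℕ) + 1) * ℓ := Nat.mul_le_mul_right _ (by omega)
        have h6 : ((j : ℕ) + 2) * ℓ ≤ (R + 1) * ℓ := Nat.mul_le_mul_right _ (by omega)
        omega
      have hce := card_EX (m := mm x) (n := n) (ℓ := ℓ) (r := (prD D).card + R) (φ := φ) (T' := T')
        hI hT hc₁0 ?_ ?_ (List.ofFn x.2) (prD D) (uT g T) D (st0 hg hD.1 hD.2.2.1 hD.2.2.2 T)
        ?_ (by rw [List.length_ofFn]) hnd (fun h => by have := (hms _ h).2; omega)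
        (fun d hd => (hms d hd).1)
      · rw [List.map_ofFn, List.prod_ofFn] at hce
        exact hce
      · intro S u Y hSt hY m₁ hm₁
        have h3 := h1 S u Y hSt m₁ (by omega)
        have h4 := hN₂ n (by omega) m₁ (by omega) (by nlinarith)
        refine le_trans ?_ h3
        have h6 : c₁ * q ^ m₁ / m₁ ≤ c₀ / 2 * q ^ m₁ / m₁ := by
          have := min_le_left (c₀ / 2) (c₀' / 2)
          gcongr
        have h7 : C₀ * (1 + (Y.natDegree : ℝ)) * √(q ^ m₁) ≤ C₀ * (1 + n) * √(q ^ m₁) := by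
          have : (Y.natDegree : ℝ) ≤ n := by exact_mod_cast hY
          gcongr
        linarith
      · intro S u Y hSt hY hS η
        have h3 := h2 S u Y hSt η (mm x) g9
        have hr : (prD D).card + R ≤ n / 8 + R := by omega
        have h4 := hN₃ n (by omega) (mm x) g9 g6 g8 ((prD D).card + R) hr S.card hS
        refine le_trans ?_ h3
        have h6 : c₁ * (1 / 2) ^ ((prD D).card + R) * q ^ (mm x) / (mm x : ℕ) ≤
            c₀' / 2 * (1 / 2) ^ ((prD D).card + R) * q ^ (mm x) / (mm x : ℕ) := by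
          have := min_le_right (c₀ / 2) (c₀' / 2)
          gcongr
        have h7 : C₀' * (1 + (Y.natDegree : ℝ)) * √(q ^ (mm x)) ≤
            C₀' * (1 + n) * √(q ^ (mm x)) := by
          have : (Y.natDegree : ℝ) ≤ n := by exact_mod_cast hY
          gcongr
        linarith
      · rw [List.sum_ofFn, hD.2.1]
        omega
    have hprod : (∏ j, (c₁ * q ^ (x.2 j) / (x.2 j : ℝ))) =
        c₁ ^ R * q ^ (∑ j, x.2 j) / ∏ j, (x.2 j : ℝ) := by
      rw [Finset.prod_div_distrib, Finset.prod_mul_distrib, Finset.prod_pow_eq_pow_sum]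
      simp
    have hmm0 : (0 : ℝ) < (mm x : ℕ) := by exact_mod_cast g9
    have hP0 : (0 : ℝ) < ∏ j, (x.2 j : ℝ) :=
      Finset.prod_pos fun j _ => by exact_mod_cast hpos j
    calc c * c₁ ^ (R + 1) * (1 / 2) ^ R * q ^ n / (((R + 2) * ℓ) ^ R * n)
        ≤ c * c₁ ^ (R + 1) * (1 / 2) ^ R * q ^ n / ((∏ j, (x.2 j : ℝ)) * (mm x : ℕ)) := by
          have h3 : (∏ j, (x.2 j : ℝ)) ≤ ((R + 2) * ℓ) ^ R := by
            calc (∏ j, (x.2 j : ℝ)) ≤ ∏ j : Fin R, (((R : ℝ) + 2) * ℓ) := by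
                  refine Finset.prod_le_prod (fun j _ => by positivity) fun j _ => ?_
                  have h4 := (Finset.mem_Ico.1 (g3 j)).2
                  have h6 : ((j : ℕ) + 2) * ℓ ≤ (R + 2) * ℓ := Nat.mul_le_mul_right _ (by omega)
                  have h7 : x.2 j ≤ (R + 2) * ℓ := by omega
                  exact_mod_cast h7
              _ = _ := by simp
          have h4 : ((mm x : ℕ) : ℝ) ≤ n := by exact_mod_cast g8
          gcongr
      _ = (∏ j, (c₁ * q ^ (x.2 j) / (x.2 j : ℝ))) * (c₁ * (1 / 2) ^ R * q ^ (mm x) / (mm x : ℕ)) *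
            (c * q ^ x.1) := by
          have hqn : q ^ n = q ^ x.1 * q ^ (∑ j, x.2 j) * q ^ (mm x) := by
            rw [← pow_add, ← pow_add, g5]
          rw [hprod, hqn, pow_succ c₁ R]
          field_simp
      _ ≤ (∏ j, (c₁ * q ^ (x.2 j) / (x.2 j : ℝ))) * (c₁ * (1 / 2) ^ R * q ^ (mm x) / (mm x : ℕ)) *
            (∑ D ∈ (hfin x.1).toFinset, (1 / 2 : ℝ) ^ (prD D).card *
              (((prD D).powerset.filter fun T => φ (prD D) (uT g T) ≤ R).card : ℝ)) := by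
          refine mul_le_mul_of_nonneg_left (h5 x.1 (by omega)) ?_
          rw [hprod]
          positivity
      _ = ∑ D ∈ (hfin x.1).toFinset, ∑ T ∈ (prD D).powerset.filter (fun T =>
            φ (prD D) (uT g T) ≤ R), (∏ j, (c₁ * q ^ (x.2 j) / (x.2 j : ℝ))) *
              (c₁ * (1 / 2) ^ ((prD D).card + R) * q ^ (mm x) / (mm x : ℕ)) := by
          rw [Finset.mul_sum]
          refine Finset.sum_congr rfl fun D _ => ?_
          rw [Finset.sum_const, nsmul_eq_mul, pow_add]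
          ring
      _ ≤ _ := Finset.sum_le_sum fun D hD => Finset.sum_le_sum fun T hT' => hE D hD T hT'
  refine le_trans ?_ (Finset.sum_le_sum key)
  rw [Finset.sum_const, nsmul_eq_mul]
  have hI₁ : (I₁.card : ℝ) = ((ℓ - ℓ / 2 : ℕ) : ℝ) * (ℓ : ℝ) ^ R := by
    simp only [I₁]
    rw [Finset.card_product, Nat.card_Ico, Fintype.card_piFinset]
    push_cast
    congr 1
    have : ∀ j : Fin R, (((Finset.Ico (((j : ℕ) + 1) * ℓ) (((j : ℕ) + 2) * ℓ)).card : ℕ) : ℝ) = ℓ := by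
      intro j
      rw [Nat.card_Ico]
      congr 1
      have : ((j : ℕ) + 2) * ℓ = ((j : ℕ) + 1) * ℓ + ℓ := by ring
      omega
    rw [Finset.prod_congr rfl fun j _ => this j]
    simp
  rw [hI₁]
  have h3 : ((ℓ : ℝ) / 2) ≤ ((ℓ - ℓ / 2 : ℕ) : ℝ) := by
    have : ℓ ≤ 2 * (ℓ - ℓ / 2) := by omega
    have h4 : (ℓ : ℝ) ≤ 2 * ((ℓ - ℓ / 2 : ℕ) : ℝ) := by exact_mod_cast this
    linarith
  have hℓ0 : (0 : ℝ) < ℓ := by
    have : 0 < ℓ := by omega
    exact_mod_cast this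
  have hn0' : (0 : ℝ) < n := by exact_mod_cast hn0
  have hW0' : (0 : ℝ) < W := by exact_mod_cast hW0
  have h4 : (n : ℝ) ≤ 2 * W * ℓ := by
    have : n ≤ 2 * W * ℓ := by nlinarith
    exact_mod_cast this
  have h6 : c * c₁ ^ (R + 1) * (1 / 2) ^ R / ((R + 2) ^ R * (4 * W)) * q ^ n ≤
      (ℓ / 2) * (ℓ : ℝ) ^ R * (c * c₁ ^ (R + 1) * (1 / 2) ^ R * q ^ n / (((R + 2) * ℓ) ^ R * n)) := by
    have h7 : (ℓ / 2) * (ℓ : ℝ) ^ R * (c * c₁ ^ (R + 1) * (1 / 2) ^ R * q ^ n / (((R + 2) * ℓ) ^ R * n))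
        = (c * c₁ ^ (R + 1) * (1 / 2) ^ R * q ^ n / (R + 2) ^ R) * (ℓ / (2 * n)) := by
      rw [mul_pow]
      field_simp
    have h8 : c * c₁ ^ (R + 1) * (1 / 2) ^ R / ((R + 2) ^ R * (4 * W)) * q ^ n =
        (c * c₁ ^ (R + 1) * (1 / 2) ^ R * q ^ n / (R + 2) ^ R) * (1 / (4 * W)) := by
      field_simp
    rw [h7, h8]
    refine mul_le_mul_of_nonneg_left ?_ (by positivity)
    rw [div_le_div_iff₀ (by positivity) (by positivity)]
    nlinarith
  refine le_trans h6 ?_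
  gcongr

end

end Run7.h875.TS
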