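import Pool.Agent.Run7.h875.TS.Stm
import Pool.Agent.N199.PP.GL
import Pool.Agent.N630.PP.GP

/-!
# Simultaneous twists, CONC: the local condition over a general extension
-/

set_option autoImplicit false
set_option linter.all false

open Polynomial IsDedekindDomain WeierstrassCurve WeierstrassCurve.Affine
open Pool.Agent.TH115.GD Pool.Agent.N874.PP Pool.Agent.N199.PP
open scoped Classical

namespace Run7.h875.TS

/-- The product of the polynomial condition. -/
def Cond {F : Type} [Field F] (a b : F) (h : F[X]) : Prop :=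
  (∃ g : F[X], cub a b ∣ h - g ^ 2) ∨
    ∃ x y : F, y ≠ 0 ∧ y ^ 2 = x ^ 3 + a * x + b ∧ ∃ g : F[X], cub a b ∣ (C x - X) * h - g ^ 2

section

variable {K F : Type} [Field K] [Field F] [Algebra K F] {A B : K}

/-- A point which is not killed by four. -/
theorem exists_R (h6 : (6 : K) ≠ 0) (hd : 4 * A ^ 3 + 27 * B ^ 2 ≠ 0)
    (hinf : {z : F | ∃ w, w ≠ 0 ∧ w ^ 2 = z ^ 3 + algebraMap K F A * z + algebraMap K F B}.Infinite) :
    ∃ R : Pt (sW A B) F, (2 : ℕ) • (2 : ℕ) • R ≠ 0 := by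
  have hS := Pool.Agent.N630.PP.isS (Ω := F) h6 hd
  -- the excluded set
  have hroots : {t : F | Rt A B t}.Finite := by
    have hne : cub (algebraMap K F A) (algebraMap K F B) ≠ 0 := (cub_monic _ _).ne_zero
    refine (cub (algebraMap K F A) (algebraMap K F B)).roots.toFinset.finite_toSet.subset ?_
    intro t ht
    rw [Finset.mem_coe, Multiset.mem_toFinset, mem_roots hne, IsRoot.def]
    unfold cub
    have : t ^ 3 + algebraMap K F A * t + algebraMap K F B = 0 := ht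
    simpa using this
  have hexc : (⋃ t ∈ {t : F | Rt A B t}, {z : F | (z - t) ^ 2 = 3 * t ^ 2 + algebraMap K F A}).Finite := by
    refine hroots.biUnion fun t _ => ?_
    have hne : ((X - C t) ^ 2 - C (3 * t ^ 2 + algebraMap K F A) : F[X]) ≠ 0 := by
      intro h0
      have h1 : ((X - C t) ^ 2 - C (3 * t ^ 2 + algebraMap K F A) : F[X]).natDegree = 2 := by
        compute_degree!
      rw [h0, natDegree_zero] at h1
      omega
    refine ((X - C t) ^ 2 - C (3 * t ^ 2 + algebraMap K F A) : F[X]).roots.toFinset.finite_toSet.subset ?_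
    intro z hz
    rw [Finset.mem_coe, Multiset.mem_toFinset, mem_roots hne, IsRoot.def]
    have : (z - t) ^ 2 = 3 * t ^ 2 + algebraMap K F A := hz
    simp [this]
  obtain ⟨z, hz, hz2⟩ := (hinf.diff hexc).nonempty
  obtain ⟨w, hw, hwz⟩ := hz
  have hns : ((sW A B).baseChange F).toAffine.Nonsingular z w := by
    rw [hS.nonsingular]
    exact hwz
  refine ⟨Point.some z w hns, ?_⟩
  have h2R : (2 : ℕ) • (Point.some z w hns : Pt (sW A B) F) ≠ 0 := by
    rw [two_nsmul]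
    intro h0
    exact hw ((Pool.Agent.N630.PP.add_self_eq_zero_iff hS hns).1 h0)
  obtain ⟨x, y, hxy, hQ, hr⟩ := Pool.Agent.N630.PP.gp1 K F A B h6 hd _ h2R
  rw [hQ, two_nsmul]
  intro h0
  have hy := (Pool.Agent.N630.PP.add_self_eq_zero_iff hS hxy).1 h0
  subst hy
  have hx : Rt A B x := by
    have := (hS.nonsingular).1 hxy
    show x ^ 3 + algebraMap K F A * x + algebraMap K F B = 0
    rw [← this]
    ring
  have h3 := hr x hx
  rw [sub_self] at h3
  have h4 : rr x (Point.some z w hns : Pt (sW A B) F) = 0 := pow_eq_zero_iff two_ne_zero |>.1 h3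
  have h5 : ((z - x) ^ 2 - (3 * x ^ 2 + algebraMap K F A)) / (2 * w) = 0 := h4
  rcases div_eq_zero_iff.1 h5 with h6 | h6
  · apply hz2
    simp only [Set.mem_iUnion]
    exact ⟨x, hx, sub_eq_zero.1 h6⟩
  · rcases mul_eq_zero.1 h6 with h7 | h7
    · exact hS.two h7
    · exact hw h7

/-- (GL) the local condition over `F` -/
theorem gl_gen (h6 : (6 : K) ≠ 0) (hD : 4 * A ^ 3 + 27 * B ^ 2 ≠ 0)
    (hinf : {z : F | ∃ w, w ≠ 0 ∧ w ^ 2 = z ^ 3 + algebraMap K F A * z + algebraMap K F B}.Infinite)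
    (f : (Sep K ≃ₐ[K] Sep K) → Pt (sW A B) (Sep K)) (hf2 : ∀ σ, (2 : ℕ) • f σ = 0)
    (β : Sep K → Sep K) (h : K[X]) (hβ : IsBeta A B f β)
    (hh : ∀ t : Sep K, Rt A B t → aeval t h = β t ^ 2)
    (hloc : LocTriv (sW A B) F (Sep F) f) :
    Cond (algebraMap K F A) (algebraMap K F B) (h.map (algebraMap K F)) := by
  have h1 := Pool.Agent.N630.PP.gp1
  have h2 := Pool.Agent.N630.PP.gp2
  have h3 := Pool.Agent.N630.PP.gp3
  have h4 := Pool.Agent.N630.PP.gp4
  obtain ⟨ι, P, hP⟩ := hloc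
  obtain ⟨Z, hZ3, hZ⟩ := exists_Z (Ω := Sep K) A B hD
  obtain ⟨ι', hι'⟩ : ∃ ι' : Sep K →ₐ[K] Sep F, ι' = ι.restrictScalars K := ⟨_, rfl⟩
  have hιx : ∀ x, ι x = ι' x := fun x => by rw [hι']; rfl
  simp only [hιx] at hP
  rw [← hι'] at hP
  have hres : ∀ τ : Sep F ≃ₐ[F] Sep F,
      ∃ σ : Sep K ≃ₐ[K] Sep K, ∀ x, τ (ι' x) = ι' (σ x) := fun τ => exists_res ι' τ
  -- the points of order two
  have hT2 : ∀ σ : Sep K ≃ₐ[K] Sep K, (2 : ℕ) • act (sW A B) ι' (f σ) = 0 := by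
    intro σ
    rw [← map_nsmul, hf2, map_zero]
  -- the values of `h`
  have hval : ∀ t ∈ Z, eval (ι' t) ((h.map (algebraMap K F)).map
      (algebraMap F (Sep F))) = ι' (β t) ^ 2 := by
    intro t ht
    rw [Polynomial.map_map, ← IsScalarTower.algebraMap_eq, ← map_pow,
      ← hh t ((mem_Z hZ t).1 ht), eval_map_algebraMap]
    exact aeval_algHom_apply ι' t h
  by_cases hPP : (2 : ℕ) • P = 0
  · -- the point is of order two
    left
    have hTP : ∀ (τ : Sep F ≃ₐ[F] Sep F)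
        (σ : Sep K ≃ₐ[K] Sep K), (∀ x, τ (ι' x) = ι' (σ x)) →
        act (sW A B) (rs K τ) P = P + act (sW A B) ι' (f σ) := by
      intro τ σ hτσ
      rw [hP τ σ hτσ]
      abel
    refine interp hZ hZ3 ι' hres (fun t => sg P (ι' t) * ι' (β t)) ?_
      (h.map (algebraMap K F)) ?_
    · intro τ σ hτσ t ht
      have hR := (mem_Z hZ t).1 ht
      have hR' : Rt A B (σ t) := Rt_map (σ : Sep K →ₐ[K] Sep K) hR
      have hR'' : Rt A B (ι' (σ t)) := Rt_map ι' hR'
      have e1 : τ (sg P (ι' t)) = sg (P + act (sW A B) ι' (f σ)) (ι' (σ t)) := by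
        rw [← hTP τ σ hτσ, ← hτσ]
        exact ((h4 K _ _ _ _ (rs K τ) P (ι' t)).1).symm
      have e2 : ∀ T : Pt (sW A B) (Sep F),
          (2 : ℕ) • T = 0 → sg (P + T) (ι' (σ t)) = sg P (ι' (σ t)) * sg T (ι' (σ t)) := by
        intro T hT
        obtain ⟨a, b, c, hab, hac, hbc, hZe⟩ := Finset.card_eq_three.1 hZ3
        have ma := Rt_map ι' ((mem_Z hZ a).1 (by rw [hZe]; simp))
        have mb := Rt_map ι' ((mem_Z hZ b).1 (by rw [hZe]; simp))
        have mc := Rt_map ι' ((mem_Z hZ c).1 (by rw [hZe]; simp))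
        exact (h3 K _ _ _ h6 hD (ι' a) (ι' b) (ι' c) ma mb mc
          (fun e => hab (ι'.injective e)) (fun e => hac (ι'.injective e))
          (fun e => hbc (ι'.injective e))).2.1 P T _ hPP hT hR''
      have e3 : sg (act (sW A B) ι' (f σ)) (ι' (σ t)) =
          ι' (sg (f σ) (σ t)) := (h4 K _ _ _ _ ι' (f σ) (σ t)).1
      have e4 : τ (ι' (β t)) = ι' (sg (f σ) (σ t)) * ι' (β (σ t)) := by
        rw [hτσ, (hβ t hR).2 σ, map_mul]
      show τ (sg P (ι' t) * ι' (β t)) = sg P (ι' (σ t)) * ι' (β (σ t))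
      rw [map_mul, e1, e2 _ (hT2 σ), e3, e4]
      have e5 : ι' (sg (f σ) (σ t)) * ι' (sg (f σ) (σ t)) = 1 := by
        rw [← map_mul, sg_sq, map_one]
      linear_combination (sg P (ι' (σ t)) * ι' (β (σ t))) * e5
    · intro t ht
      rw [hval t ht]
      have e5 := sg_sq P (ι' t)
      linear_combination (-(ι' (β t)) ^ 2) * e5
  · -- the general case
    right
    -- replace the point
    obtain ⟨P', hP', h4P⟩ : ∃ P' : Pt (sW A B) (Sep F), (∀ (τ : Sep F ≃ₐ[F] Sep F)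
        (σ : Sep K ≃ₐ[K] Sep K), (∀ x, τ (ι' x) = ι' (σ x)) →
          act (sW A B) ι' (f σ) = act (sW A B) (rs K τ) P' - P') ∧
        (2 : ℕ) • (2 : ℕ) • P' ≠ 0 := by
      by_cases h4P : (2 : ℕ) • (2 : ℕ) • P = 0
      · obtain ⟨R, hR⟩ := exists_R (A := A) (B := B) h6 hD hinf
        refine ⟨P + act (sW A B) (incl K F (Sep F)) R, fun τ σ hτσ => ?_, ?_⟩
        · rw [map_add, rs_act_incl, hP τ σ hτσ]
          abel
        · rw [smul_add, smul_add, h4P, zero_add, ← map_nsmul, ← map_nsmul]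
          intro h0
          apply hR
          apply act_inj (sW A B) (incl K F (Sep F))
          rw [h0, map_zero]
      · exact ⟨P, hP, h4P⟩
    clear hP hPP
    clear P
    have hTP : ∀ (τ : Sep F ≃ₐ[F] Sep F)
        (σ : Sep K ≃ₐ[K] Sep K), (∀ x, τ (ι' x) = ι' (σ x)) →
        act (sW A B) (rs K τ) P' = P' + act (sW A B) ι' (f σ) := by
      intro τ σ hτσ
      rw [hP' τ σ hτσ]
      abel
    have hPP : (2 : ℕ) • P' ≠ 0 := fun h0 => h4P (by rw [h0, smul_zero])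
    obtain ⟨x, y, hxy, h2P, hrr⟩ := h1 K _ _ _ h6 hD P' hPP
    obtain ⟨Q, hQ⟩ := fixed_point (K := K) (F := F)
      (sW A B) ((2 : ℕ) • P') (by
        intro τ
        obtain ⟨σ, hσ⟩ := hres τ
        rw [map_nsmul, hTP τ σ hσ, smul_add, hT2, add_zero])
    rcases Q with _ | ⟨x0, y0, hq⟩
    · exact absurd hQ.symm hPP
    have hy0 : y0 ≠ 0 := by
      intro h0
      subst h0
      apply h4P
      rw [← hQ, ← map_nsmul, Pool.Agent.N630.PP.two_smul_tor h6 hD hq, map_zero]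
    rw [h2P] at hQ
    have hx0 : algebraMap F (Sep F) x0 = x := (Point.some.inj hQ).1
    obtain ⟨H, hH⟩ : ∃ H : F[X], H = (C x0 - X) * h.map (algebraMap K F) := ⟨_, rfl⟩
    suffices key : ∃ g : F[X], cub (algebraMap K F A) (algebraMap K F B) ∣ H - g ^ 2 by
      rw [hH] at key
      exact ⟨x0, y0, hy0, eq_of_nonsing hq, key⟩
    refine interp hZ hZ3 ι' hres (fun t => rr (ι' t) P' * ι' (β t)) ?_ H ?_
    · intro τ σ hτσ t ht
      have hR := (mem_Z hZ t).1 ht
      have hR' : Rt A B (σ t) := Rt_map (σ : Sep K →ₐ[K] Sep K) hR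
      have hR'' : Rt A B (ι' (σ t)) := Rt_map ι' hR'
      have e1 : τ (rr (ι' t) P') = rr (ι' (σ t)) (P' + act (sW A B) ι' (f σ)) := by
        rw [← hTP τ σ hτσ, ← hτσ]
        exact ((h4 K _ _ _ _ (rs K τ) P' (ι' t)).2).symm
      have e2 := h2 K _ _ _ h6 hD P' _ hPP (hT2 σ) (ι' (σ t)) hR''
      have e3 : sg (act (sW A B) ι' (f σ)) (ι' (σ t)) =
          ι' (sg (f σ) (σ t)) := (h4 K _ _ _ _ ι' (f σ) (σ t)).1
      have e4 : τ (ι' (β t)) = ι' (sg (f σ) (σ t)) * ι' (β (σ t)) := by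
        rw [hτσ, (hβ t hR).2 σ, map_mul]
      show τ (rr (ι' t) P' * ι' (β t)) = rr (ι' (σ t)) P' * ι' (β (σ t))
      rw [map_mul, e1, e2, e3, e4]
      have e5 : ι' (sg (f σ) (σ t)) * ι' (sg (f σ) (σ t)) = 1 := by
        rw [← map_mul, sg_sq, map_one]
      linear_combination (rr (ι' (σ t)) P' * ι' (β (σ t))) * e5
    · intro t ht
      rw [hH, Polynomial.map_mul, eval_mul, hval t ht, Polynomial.map_sub, map_C, map_X, eval_sub,
        eval_C, eval_X, hx0]
      have e5 := hrr (ι' t) (Rt_map ι' ((mem_Z hZ t).1 ht))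
      linear_combination (-(ι' (β t)) ^ 2) * e5

end

end Run7.h875.TS
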