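import Pool.Agent.Run7.h875.TS.Stm
import Pool.Agent.N721.PP.GF

/-!
# Simultaneous twists, CONC: descent with all the places
-/

set_option autoImplicit false
set_option linter.all false

open Polynomial IsDedekindDomain WeierstrassCurve WeierstrassCurve.Affine
open Pool.Agent.TH115.GD Pool.Agent.N874.PP Pool.Agent.N721.PP
open scoped Classical

namespace Run7.h875.TS

section descent

variable {k K : Type} [Field k] [Field K] [Algebra k[X] K] [IsFractionRing k[X] K]

/-- The 2-Selmer group is zero. -/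
def SelZ (k : Type) {K : Type} [Field k] [Field K] [Algebra k[X] K] [IsFractionRing k[X] K]
    (W : WeierstrassCurve K) : Prop :=
  ∀ f : (Sep K ≃ₐ[K] Sep K) → Pt W (Sep K), IsCoc W f → (∀ σ, (2 : ℕ) • f σ = 0) →
    LocallyTrivial k W f →
    ∃ T : Pt W (Sep K), (2 : ℕ) • T = 0 ∧ ∀ σ, f σ = act W (rs K σ) T - T

theorem cobL {L : Type} [Field L] [Algebra K L] (W : WeierstrassCurve K) (R : Pt W (Sep K)) :
    LocTriv W L (Sep L) (fun σ : Sep K ≃ₐ[K] Sep K => act W (rs K σ) R - R) := by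
  haveI : Algebra.IsSeparable K (Sep K) := IsSepClosure.separable
  let ι : Sep K →ₐ[K] Sep L := IsSepClosed.lift
  refine ⟨ι, act W (ι.restrictScalars K) R, fun τ σ hτ => ?_⟩
  have h5 : (ι.restrictScalars K).comp (rs K σ) = (rs K τ).comp (ι.restrictScalars K) :=
    AlgHom.ext fun x => (hτ x).symm
  rw [map_sub, act_act, act_act, h5]

theorem tr' {L : Type} [Field L] (a a' : Algebra K L) (h : a' = a)
    (i : @IsScalarTower K K (Sep L) Algebra.toSMul
      (@Algebra.toSMul K (Sep L) _ _ (@sepAlgebra L _ K _ a))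
      (@Algebra.toSMul K (Sep L) _ _ (@sepAlgebra L _ K _ a')))
    (i' : @IsScalarTower K K (Sep L) Algebra.toSMul
      (@Algebra.toSMul K (Sep L) _ _ (@sepAlgebra L _ K _ a))
      (@Algebra.toSMul K (Sep L) _ _ (@sepAlgebra L _ K _ a)))
    {W : WeierstrassCurve K}
    {f : (Sep K ≃ₐ[K] Sep K) → Pt W (Sep K)}
    (H : @LocTriv K K (Sep K) _ _ _ _ _ _ _ W L (Sep L) _ _ a (@sepAlgebra L _ L _ _)
      (@sepAlgebra L _ K _ a) (@sepAlgebra L _ K _ a) (@sepTower L _ K _ a) i' f) :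
    @LocTriv K K (Sep K) _ _ _ _ _ _ _ W L (Sep L) _ _ a' (@sepAlgebra L _ L _ _)
      (@sepAlgebra L _ K _ a') (@sepAlgebra L _ K _ a) (@sepTower L _ K _ a') i f := by
  subst h
  exact H

theorem cobLT (W : WeierstrassCurve K) (R : Pt W (Sep K)) :
    LocallyTrivial k W (fun σ : Sep K ≃ₐ[K] Sep K => act W (rs K σ) R - R) := by
  constructor
  · intro v
    exact tr' (L := Comp k[X] K v) (compAlgebra k[X] K v) (compAlgebra' k[X] K v K)
      (Algebra.algebra_ext _ _ fun r => rfl) _ _ (cobL W R)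
  · exact tr' (L := CompInf k K) (compInfAlgebra k K) (compInfAlgebra' k K K)
      (Algebra.algebra_ext _ _ fun r => rfl) _ _ (cobL W R)

theorem toInf {W : WeierstrassCurve K} {f : (Sep K ≃ₐ[K] Sep K) → Pt W (Sep K)}
    (h : LocallyTrivial k W f) : LocTriv W (CompInf k K) (Sep (CompInf k K)) f :=
  tr (L := CompInf k K) (compInfAlgebra k K) (compInfAlgebra' k K K)
    (Algebra.algebra_ext _ _ fun r => rfl) _ _ h.2

variable {A B : K}

theorem gfz (h6 : (6 : K) ≠ 0) (hd : 4 * A ^ 3 + 27 * B ^ 2 ≠ 0)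
    (hS : SelZ k (sW A B)) :
    (∀ P : Pt (sW A B) K, ∃ Q : Pt (sW A B) K, P = (2 : ℕ) • Q) ∧ ShaTwo k (sW A B) := by
  haveI : Algebra.IsSeparable K (Sep K) := IsSepClosure.separable
  haveI : IsGalois K (Sep K) := inferInstance
  constructor
  · intro P
    obtain ⟨R, hR⟩ := half h6 hd (act (sW A B) (incl K K (Sep K)) P)
    have hfix : ∀ σ : Sep K ≃ₐ[K] Sep K, act (sW A B) (rs K σ) (R + R) = R + R := fun σ => by
      rw [hR]; exact rs_act_incl _ σ P
    obtain ⟨T, hT2, hT⟩ := hS (fun σ => act (sW A B) (rs K σ) R - R) (cob_isCoc _ R)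
      (fun σ => by
        rw [two_nsmul, sub_add_sub_comm, ← map_add, hfix, sub_self])
      (cobLT _ R)
    obtain ⟨Q, hQ⟩ := fixed_point (K := K) (F := K) (sW A B) (R - T) (fun σ => by
      have h1 := hT σ
      rw [map_sub]
      have h2 : act (sW A B) (rs K σ) R = R + (act (sW A B) (rs K σ) T - T) := by
        rw [← h1]; abel
      rw [h2]; abel)
    refine ⟨Q, act_inj (sW A B) (incl K K (Sep K)) ?_⟩
    rw [map_nsmul, hQ, smul_sub, hT2, sub_zero, two_nsmul, hR]
  · have key : ∀ g : (Sep K ≃ₐ[K] Sep K) → Pt (sW A B) (Sep K), IsCoc (sW A B) g →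
        LocallyTrivial k (sW A B) g →
        (∃ R : Pt (sW A B) (Sep K), ∀ σ, 2 • g σ = act (sW A B) (rs K σ) R - R) →
        ∃ R : Pt (sW A B) (Sep K), ∀ σ, g σ = act (sW A B) (rs K σ) R - R := by
      rintro g hg hl ⟨R, hR⟩
      obtain ⟨S, hS'⟩ := half h6 hd R
      obtain ⟨T, -, hT⟩ := hS (fun σ => g σ - (act (sW A B) (rs K σ) S - S))
        (hg.sub _ (cob_isCoc _ _))
        (fun σ => by
          rw [smul_sub, hR, two_nsmul, sub_add_sub_comm, ← map_add, hS', sub_self])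
        (ltSub' hl S)
      refine ⟨T + S, fun σ => ?_⟩
      have h1 := hT σ
      have h2 : g σ = (act (sW A B) (rs K σ) T - T) + (act (sW A B) (rs K σ) S - S) := by
        rw [← h1]; abel
      rw [h2, map_add]
      abel
    intro f hf hl ⟨n, hn⟩
    induction n with
    | zero =>
      obtain ⟨R, hR⟩ := hn
      exact ⟨R, fun σ => by rw [← hR, pow_zero, one_smul]⟩
    | succ n ih =>
      apply ih
      refine key (fun σ => 2 ^ n • f σ) ?_ ?_ ?_
      · refine ⟨hf.lc.comp (fun a => 2 ^ n • a), fun σ τ => ?_⟩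
        show 2 ^ n • f (σ * τ) = 2 ^ n • f σ + act (sW A B) (rs K σ) (2 ^ n • f τ)
        rw [hf.mul, map_nsmul, smul_add]
      · exact ltSmul' hl _
      · obtain ⟨R, hR⟩ := hn
        refine ⟨R, fun σ => ?_⟩
        rw [← hR, pow_succ', mul_smul]

end descent

end Run7.h875.TS
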