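import Pool.Agent.Run7.h875.TS.Conc1
import Pool.Agent.Run7.h875.TS.Conc2
import Pool.Agent.Run7.h225.TS.GRP
import Pool.Agent.Run7.h225.TS.INFP
import Pool.Agent.N187.PP.GN
import Pool.Agent.N187.PP.GB

/-!
# Simultaneous twists, CONC: squares in the completions, change of variables
-/

set_option autoImplicit false
set_option linter.all false

open Polynomial IsDedekindDomain WeierstrassCurve WeierstrassCurve.Affine WithZero
open Pool.Agent.TH115.GD Pool.Agent.N874.PP Pool.Agent.N199.PP
open scoped Classical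

namespace Run7.h875.TS

section cov

variable {F : Type} [Field F]

theorem cub_comp (a b D : F) : (cub (a * D ^ 2) (b * D ^ 3)).comp (C D * X) =
    C (D ^ 3) * (X ^ 3 + C a * X + C b) := by
  unfold cub
  simp only [add_comp, mul_comp, pow_comp, X_comp, C_comp, C_mul, C_pow]
  ring

theorem dvd_comp {a b D : F} (hD : D ≠ 0) {p : F[X]} (h : cub (a * D ^ 2) (b * D ^ 3) ∣ p) :
    X ^ 3 + C a * X + C b ∣ p.comp (C D * X) := by
  obtain ⟨q, rfl⟩ := h
  rw [mul_comp, cub_comp]
  exact ((Dvd.intro_left _ rfl : X ^ 3 + C a * X + C b ∣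
    C (D ^ 3) * (X ^ 3 + C a * X + C b))).mul_right _

theorem cond_locT {a b D : F} (hD : D ≠ 0) {H : F[X]} (hc : Cond (a * D ^ 2) (b * D ^ 3) H) :
    LocT a b D (H.comp (C D * X)) := by
  rcases hc with ⟨g, hg⟩ | ⟨x, y, hy, hxy, g, hg⟩
  · left
    refine ⟨g.comp (C D * X), ?_⟩
    have := dvd_comp hD hg
    rwa [sub_comp, pow_comp] at this
  · right
    refine ⟨x / D, y / D, div_ne_zero hy hD, ?_, g.comp (C D * X), ?_⟩
    · rw [div_pow, hxy]
      field_simp
    · have := dvd_comp hD hg
      rw [sub_comp, pow_comp, mul_comp, sub_comp, X_comp, C_comp] at this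
      have e : C D * (C (x / D) - X) = C x - C D * X := by
        rw [mul_sub, ← C_mul, mul_div_cancel₀ _ hD]
      rwa [e]

theorem locT_scale {a b δ s : F} (hs : s ≠ 0) {H : F[X]} (h : LocT a b (δ * s ^ 2) H) :
    LocT a b δ H := by
  rcases h with h | ⟨z, w, hw, hzw, g, hg⟩
  · exact Or.inl h
  · right
    refine ⟨z, w / s, div_ne_zero hw hs, ?_, C s⁻¹ * g, ?_⟩
    · rw [div_pow, hzw]
      field_simp
    · have e : C δ * (C z - X) * H - (C s⁻¹ * g) ^ 2 =
          C (s⁻¹ ^ 2) * (C (δ * s ^ 2) * (C z - X) * H - g ^ 2) := by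
        have h1 : C (s⁻¹ ^ 2) * C (δ * s ^ 2) = C δ := by
          rw [← C_mul]
          congr 1
          field_simp
        calc C δ * (C z - X) * H - (C s⁻¹ * g) ^ 2 =
            (C (s⁻¹ ^ 2) * C (δ * s ^ 2)) * (C z - X) * H - (C s⁻¹ * g) ^ 2 := by rw [h1]
          _ = _ := by rw [C_pow]; ring
      rw [e]
      exact hg.mul_left _

end cov

section squares

variable {k F : Type} [Field k] [Field F] [Algebra k[X] F] [IsFractionRing k[X] F]

theorem v_two (h2 : (2 : k) ≠ 0) (v : HeightOneSpectrum k[X]) :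
    Valued.v (2 : v.adicCompletion F) = 1 := by
  have em : ∀ x : F, Valued.v (algebraMap F (v.adicCompletion F) x) = v.valuation F x :=
    fun x => v.valuedAdicCompletion_eq_valuation' x
  have e1 : (2 : v.adicCompletion F) = algebraMap F (v.adicCompletion F)
    (algebraMap k[X] F (C 2)) := by
    rw [show (C (2 : k) : k[X]) = 2 from rfl, map_ofNat, map_ofNat]
  have e2 : algebraMap k[X] F (C 2) * algebraMap k[X] F (C (2⁻¹)) = 1 := by
    rw [← map_mul, ← C_mul, mul_inv_cancel₀ h2, C_1, map_one]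
  rw [e1, em]
  have l1 := v.valuation_le_one (K := F) (C (2 : k) : k[X])
  have l2 := v.valuation_le_one (K := F) (C (2⁻¹ : k) : k[X])
  refine le_antisymm l1 ?_
  have := congrArg (v.valuation F) e2
  rw [map_mul, map_one] at this
  rw [← this]
  exact mul_le_of_le_one_right' l2

/-- A polynomial congruent to a nonzero square is a square. -/
theorem sq_of_cong (h2 : (2 : k) ≠ 0) (v : HeightOneSpectrum k[X]) {D z : k[X]}
    (hz : z ∉ v.asIdeal) (hd : z ^ 2 - D ∈ v.asIdeal) :
    ∃ s : v.adicCompletion F, s ≠ 0 ∧ algebraMap F (v.adicCompletion F) (algebraMap k[X] F D) = s ^ 2 := by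
  have em : ∀ x : F, Valued.v (algebraMap F (v.adicCompletion F) x) = v.valuation F x :=
    fun x => v.valuedAdicCompletion_eq_valuation' x
  have hz1 : v.valuation F (algebraMap k[X] F z) = 1 := by
    rw [HeightOneSpectrum.valuation_of_algebraMap]
    refine le_antisymm (v.intValuation_le_one z) ?_
    by_contra h
    push Not at h
    exact hz ((v.intValuation_lt_one_iff_mem z).1 h)
  have hd1 : v.valuation F (algebraMap k[X] F (z ^ 2 - D)) < 1 := by
    rw [HeightOneSpectrum.valuation_of_algebraMap]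
    exact (v.intValuation_lt_one_iff_mem _).2 hd
  set ζ := algebraMap F (v.adicCompletion F) (algebraMap k[X] F z) with hζ
  have hζ1 : Valued.v ζ = 1 := by rw [hζ, em, hz1]
  have hζ0 : ζ ≠ 0 := by
    intro h0
    rw [h0, map_zero] at hζ1
    exact zero_ne_one hζ1
  obtain ⟨t, ht, ht1⟩ := sqrt_one_unit (v_two (F := F) h2 v)
    (algebraMap F (v.adicCompletion F) (algebraMap k[X] F D) / ζ ^ 2) (by
      have e : algebraMap F (v.adicCompletion F) (algebraMap k[X] F D) / ζ ^ 2 - 1 =
          -(algebraMap F (v.adicCompletion F) (algebraMap k[X] F (z ^ 2 - D))) / ζ ^ 2 := by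
        rw [map_sub, map_sub, map_pow, map_pow, ← hζ]
        field_simp
        ring
      rw [e, map_div₀, Valuation.map_neg, em, map_pow, hζ1, one_pow, div_one]
      exact hd1)
  have ht0 : t ≠ 0 := by
    rintro rfl
    rw [zero_sub, Valuation.map_neg, map_one] at ht1
    exact lt_irrefl _ ht1
  refine ⟨t * ζ, mul_ne_zero ht0 hζ0, ?_⟩
  rw [mul_pow, ht]
  field_simp

/-- A monic polynomial of even degree is a square at infinity. -/
theorem sq_inf (h2 : (2 : k) ≠ 0) {D : k[X]} (hD : D.Monic) (he : Even D.natDegree) :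
    ∃ s : CompInf k F, s ≠ 0 ∧ algebraMap F (CompInf k F) (algebraMap k[X] F D) = s ^ 2 := by
  obtain ⟨m, hm⟩ := he
  obtain ⟨s, hs, hs2⟩ : ∃ s : CompInf k F, s ≠ 0 ∧
      algebraMap F (CompInf k F) (infMap k F (reverse D)) = s ^ 2 :=
    sq_of_cong (F := AtInf F) h2 (pl (0 : k)) (D := reverse D) (z := 1)
    (by
      intro h
      exact (pl (0 : k)).isPrime.ne_top ((Ideal.eq_top_iff_one _).2 h))
    (by
      show 1 ^ 2 - reverse D ∈ Ideal.span {X - C 0}
      rw [Ideal.mem_span_singleton, C_0, sub_zero, X_dvd_iff, one_pow, coeff_sub, coeff_zero_reverse,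
        hD.leadingCoeff]
      simp)
  have hX : algebraMap k[X] F X ≠ 0 := by simp
  refine ⟨s * algebraMap F (CompInf k F) (algebraMap k[X] F X) ^ m, ?_, ?_⟩
  · exact mul_ne_zero hs (pow_ne_zero _ ((_root_.map_ne_zero _).2 hX))
  · rw [mul_pow, ← pow_mul, mul_two, ← hm]
    have e := std_inf (k' := k) (F := F) D
    rw [e, map_mul, map_pow, hs2]

end squares

end Run7.h875.TS
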