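import Pool.Agent.N874.PP.Gal

/-!
# Simultaneous twists: definitions

Project TS (helper875), problem MP_48b749_nt.
-/

set_option autoImplicit false
set_option linter.all false

open Polynomial IsDedekindDomain
open Pool.Agent.N874.PP Pool.Agent.TH115.GD
open scoped Classical

namespace Run7.h875.TS

/-- The class of `h(Θ)`, `Θ` the class of `X` in `F[X] / (X ^ 3 + a X + b)`, is a square or the class
`δ (z - Θ)` of a point of the curve `w ^ 2 = δ (z ^ 3 + a z + b)` over `F` with `w ≠ 0`. -/
def LocT {F : Type} [Field F] (a b δ : F) (h : F[X]) : Prop :=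
  (∃ g : F[X], X ^ 3 + C a * X + C b ∣ h - g ^ 2) ∨
  ∃ z w : F, w ≠ 0 ∧ w ^ 2 = δ * (z ^ 3 + a * z + b) ∧
    ∃ g : F[X], X ^ 3 + C a * X + C b ∣ C δ * (C z - X) * h - g ^ 2

section cub

variable {k K L : Type} [Field k] [Field K] [Algebra k[X] K] [IsFractionRing k[X] K]
  [Field L] [Algebra K L] [Algebra k[X] L] {a b : k[X]} {θ : L}

/-- The polynomial of degree at most two with `pol h α (θ) = α`. -/
noncomputable def pol (h : IsCub K a b θ) (α : L) : K[X] :=
  C (h.co 0 α) + C (h.co 1 α) * X + C (h.co 2 α) * X ^ 2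

/-- The local condition over the extension `F` of `K` for the twist by `δ`. -/
def LocAt (h : IsCub K a b θ) (F : Type) [Field F] [Algebra K F] (δ : F) (α : L) : Prop :=
  LocT (algebraMap K F (algebraMap k[X] K a)) (algebraMap K F (algebraMap k[X] K b)) δ
    ((pol h α).map (algebraMap K F))

/-- The ternary form `c₂(x ^ 2 / α)` is isotropic over `F`. `IsoAt h v α` is
`IsoF h (v.adicCompletion K) α`. -/
def IsoF (h : IsCub K a b θ) (F : Type) [Field F] [Algebra K F] (α : L) : Prop :=
  ∃ x : Fin 3 → F, x ≠ 0 ∧ ∑ i : Fin 3, ∑ j : Fin 3,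
    algebraMap K F (h.co 2 (θ ^ (i : ℕ) * θ ^ (j : ℕ) / α)) * x i * x j = 0

theorem isoAt_eq (h : IsCub K a b θ) (v : HeightOneSpectrum k[X]) (α : L) :
    IsoAt h v α = IsoF h (v.adicCompletion K) α := rfl

/-- A finite set `S` of monic irreducible polynomials prime to the discriminant, and for each `P` in
`S` a polynomial `u P` prime to `P` (the local twist at `P` is the one by `P * u P`). -/
structure GoodT (a b : k[X]) (S : Finset k[X]) (u : k[X] → k[X]) : Prop where
  mon : ∀ P ∈ S, P.Monic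
  irr : ∀ P ∈ S, Irreducible P
  nd : ∀ P ∈ S, ¬ P ∣ dsc a b
  nu : ∀ P ∈ S, ¬ P ∣ u P

/-- The Selmer conditions: at the `P` in `S` the local condition of the twist by `P * u P`, at the
place `∞` and at the `P` with `P ^ 2 ∣ dsc a b` the local condition of the curve itself, at the other
places even valuations. -/
structure SelC (h : IsCub K a b θ) (O : Type) [CommRing O] [IsDedekindDomain O] [Algebra O L]
    [IsFractionRing O L] [Algebra k[X] O] (S : Finset k[X]) (u : k[X] → k[X]) (α : L) : Prop where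
  ne : α ≠ 0
  nsq : IsSquare (Algebra.norm K α)
  ev : ∀ P : k[X], P.Monic → Irreducible P → P ∉ S → ¬ P ^ 2 ∣ dsc a b →
    ∀ 𝔓 : HeightOneSpectrum O, Ov P 𝔓 → Ev 𝔓 α
  bad : ∀ (P : k[X]) (v : HeightOneSpectrum k[X]), Irreducible P → v.asIdeal = Ideal.span {P} →
    P ^ 2 ∣ dsc a b → LocAt h (v.adicCompletion K) 1 α
  tw : ∀ P ∈ S, ∀ v : HeightOneSpectrum k[X], v.asIdeal = Ideal.span {P} →
    LocAt h (v.adicCompletion K)
      (algebraMap K (v.adicCompletion K) (algebraMap k[X] K (P * u P))) α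
  inf : LocAt h (CompInf k K) 1 α

/-- The subgroup of the squares. -/
def sqL (L : Type) [Field L] : Subgroup Lˣ := (powMonoidHom 2 : Lˣ →* Lˣ).range

/-- The Selmer group (it contains the squares). -/
def SelG (h : IsCub K a b θ) (O : Type) [CommRing O] [IsDedekindDomain O] [Algebra O L]
    [IsFractionRing O L] [Algebra k[X] O] (S : Finset k[X]) (u : k[X] → k[X]) : Subgroup Lˣ :=
  Subgroup.closure {α : Lˣ | SelC h O S u (α : L)}

/-- The order of the Selmer group modulo squares. -/
noncomputable def sz {L : Type} [Field L] (G : Subgroup Lˣ) : ℕ := (sqL L).relIndex G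

/-- Trivial at the primes over `Q`. -/
def Tr (O : Type) [CommRing O] [IsDedekindDomain O] [Algebra O L]
    [IsFractionRing O L] [Algebra k[X] O] (Q : k[X]) (α : L) : Prop :=
  ∀ 𝔓 : HeightOneSpectrum O, Ov Q 𝔓 → Sq1 𝔓 α

end cub

/-! ### Types of primes -/

section types

variable {k : Type} [Field k]

/-- `c` is a zero of `X ^ 3 + a X + b` modulo `Q`. -/
def RtM (a b Q c : k[X]) : Prop := Q ∣ c ^ 3 + a * c + b

/-- `Q` is inert: no zeros. -/
def Ty3 (a b Q : k[X]) : Prop := ∀ c : k[X], ¬ RtM a b Q c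

/-- Exactly one zero modulo `Q`. -/
def Ty12 (a b Q : k[X]) : Prop := ∃ c : k[X], RtM a b Q c ∧ ∀ c' : k[X], RtM a b Q c' → Q ∣ c' - c

end types

end Run7.h875.TS
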