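import Pool.Agent.Run7.h875.TS.Cnt4
import Pool.Agent.N874.PP.Sel2

/-!
# Simultaneous twists: one curve
-/

set_option autoImplicit false
set_option linter.all false

open Polynomial IsDedekindDomain
open Pool.Agent.N874.PP Pool.Agent.TH115.GD
open scoped Classical

namespace Run7.h875.TS

/-! ### Logarithms of indices -/

theorem log_le_of {G : Type} [Group G] {H A B : Subgroup G} (h : A ≤ B) (hB : H.relIndex B ≠ 0) :
    Nat.log 2 (H.relIndex A) ≤ Nat.log 2 (H.relIndex B) :=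
  Nat.log_mono_right (Subgroup.relIndex_le_of_le_right h hB)

theorem log_lt_of {G : Type} [Group G] {H A B C : Subgroup G} (hHA : H ≤ A) (hHB : H ≤ B) (h : ¬ B ≤ A)
    (hB : H.relIndex B ≠ 0) (hC : C ≤ B ⊓ A) :
    Nat.log 2 (H.relIndex C) + 1 ≤ Nat.log 2 (H.relIndex B) := by
  have h1 : H.relIndex (B ⊓ A) * (B ⊓ A).relIndex B = H.relIndex B :=
    Subgroup.relIndex_mul_relIndex _ _ _ (le_inf hHB hHA) inf_le_left
  have h2 : (B ⊓ A).relIndex B ≠ 1 := by
    intro h2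
    exact h ((Subgroup.relIndex_eq_one.1 h2).trans inf_le_right)
  have h3 : (B ⊓ A).relIndex B ≠ 0 := by
    intro h3
    rw [h3, mul_zero] at h1
    exact hB h1.symm
  have h4 : H.relIndex (B ⊓ A) ≠ 0 := by
    intro h4
    rw [h4, zero_mul] at h1
    exact hB h1.symm
  have h5 : H.relIndex (B ⊓ A) * 2 ≤ H.relIndex B := by
    rw [← h1]
    exact Nat.mul_le_mul_left _ (by omega)
  calc Nat.log 2 (H.relIndex C) + 1 ≤ Nat.log 2 (H.relIndex (B ⊓ A)) + 1 :=
        Nat.add_le_add_right (log_le_of hC h4) 1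
    _ = Nat.log 2 (H.relIndex (B ⊓ A) * 2) := (Nat.log_mul_base (by norm_num) h4).symm
    _ ≤ _ := Nat.log_mono_right h5

section one

variable {k K L O : Type} [Field k] [Finite k] [Field K] [Algebra k[X] K]
  [IsFractionRing k[X] K]
  [Field L] [Algebra K L] [Algebra k[X] L] [IsScalarTower k[X] K L] [CommRing O]
  [IsDedekindDomain O] [Algebra O L] [IsFractionRing O L] [Algebra k[X] O]
  [IsScalarTower k[X] O L] [IsIntegralClosure O k[X] L] {a b : k[X]} {θ : L}

/-- The rank. -/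
noncomputable def psi (h : IsCub K a b θ) (O : Type) [CommRing O]
    [IsDedekindDomain O] [Algebra O L] [IsFractionRing O L] [Algebra k[X] O]
    (S : Finset k[X]) (u : k[X] → k[X]) : ℕ := Nat.log 2 (sz (SelG h O S u))

theorem sz_ne (hREP : S_REP) (hGRP : S_GRP) (h6 : (6 : k) ≠ 0) (h : IsCub K a b θ) {S : Finset k[X]}
    {u : k[X] → k[X]} (hG : GoodT a b S u) : sz (SelG h O S u) ≠ 0 :=
  (hREP k K L O a b θ h6 h).2 S u hG (hGRP k K L O a b θ h6 h S u hG).1

theorem psi_inv (hREP : S_REP) (hGRP : S_GRP) (hCLSU : S_CLSU) (h6 : (6 : k) ≠ 0)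
    (h : IsCub K a b θ) {S : Finset k[X]} {u u' : k[X] → k[X]} (hG : GoodT a b S u)
    (hG' : GoodT a b S u') (hc : ∀ P ∈ S, ∃ z : k[X], P ∣ z ^ 2 * u P - u' P) :
    psi h O S u' ≤ psi h O S u := by
  have hc' : ∀ P ∈ S, ∃ z : k[X], P ∣ z ^ 2 * u' P - u P := by
    intro P hP
    obtain ⟨z, hz⟩ := hc P hP
    have hPi := hG.irr P hP
    have hzP : ¬ P ∣ z := by
      intro h1
      apply hG'.nu P hP
      have h2 : P ∣ z ^ 2 * u P := (dvd_pow h1 two_ne_zero).mul_right _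
      have := dvd_sub h2 hz
      simpa using this
    obtain ⟨r, s, hrs⟩ := (hPi.coprime_iff_not_dvd.2 hzP : IsCoprime P z)
    refine ⟨s, ?_⟩
    have e : s ^ 2 * u' P - u P = -(s ^ 2) * (z ^ 2 * u P - u' P) + (s * z + 1) * (s * z - 1) * u P := by
      ring
    have e2 : s * z - 1 = P * (-r) := by linear_combination hrs
    rw [e, e2]
    exact dvd_add (hz.mul_left _) ⟨(s * z + 1) * (-r) * u P, by ring⟩
  have hle : SelG h O S u' ≤ SelG h O S u := by
    intro α hα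
    rw [(hGRP k K L O a b θ h6 h S u hG).1]
    rw [(hGRP k K L O a b θ h6 h S u' hG').1] at hα
    exact hCLSU k K L O a b θ h6 h S u' u hG' hG hc' _ hα
  exact log_le_of hle (sz_ne hREP hGRP h6 h hG)

theorem psi_inert (hREP : S_REP) (hGRP : S_GRP) (hSTEP : S_STEP) (h6 : (6 : k) ≠ 0)
    (h : IsCub K a b θ) {S : Finset k[X]} {u : k[X] → k[X]} (hG : GoodT a b S u) {Q w : k[X]}
    (hQ : Q.Monic) (hQi : Irreducible Q) (hQS : Q ∉ S) (hQd : ¬ Q ∣ dsc a b) (hw : ¬ Q ∣ w)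
    (ht : Ty3 a b Q) : psi h O (insert Q S) (Function.update u Q w) ≤ psi h O S u := by
  have hs := sz_ne (O := O) hREP hGRP h6 h hG
  obtain ⟨T, -, -, -, h4, -⟩ := hSTEP k K L O a b θ h6 h S u hG hs Q hQ hQi hQS hQd w hw
  exact log_le_of (h4 ht) hs

/-- A small element which is not a square. -/
theorem exists_small (hREP : S_REP) (hGRP : S_GRP) (h6 : (6 : k) ≠ 0) (h : IsCub K a b θ) {C₀ : ℕ}
    (hC : ∀ (S : Finset k[X]) (u : k[X] → k[X]), GoodT a b S u → ∀ α : L, SelC h O S u α →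
      ∃ (r : L) (z : Fin 3 → k[X]), r ≠ 0 ∧ Crd θ z (α * r ^ 2) ∧
        ∀ i, (z i).natDegree ≤ C₀ * (1 + ∑ P ∈ S, P.natDegree))
    {S : Finset k[X]} {u : k[X] → k[X]} (hG : GoodT a b S u) (hp : psi h O S u ≠ 0) :
    ∃ (α : L) (z : Fin 3 → k[X]), SelC h O S u α ∧ IsSquare (Algebra.norm K α) ∧ ¬ IsSquare α ∧
      Crd θ z α ∧ ∀ i, (z i).natDegree ≤ C₀ * (1 + dg S) := by
  have hs := sz_ne (O := O) hREP hGRP h6 h hG
  obtain ⟨hg1, hg2⟩ := hGRP k K L O a b θ h6 h S u hG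
  have h1 : ¬ SelG h O S u ≤ sqL L := by
    intro h1
    apply hp
    unfold psi sz
    rw [Subgroup.relIndex_eq_one.2 h1]
    simp
  obtain ⟨α, hα, hns⟩ := SetLike.not_le_iff_exists.1 h1
  obtain ⟨r, z, hr, hz, hd⟩ := hC S u hG α ((hg1 α).1 hα)
  set β : Lˣ := α * (Units.mk0 r hr) ^ 2 with hβ
  have hβG : β ∈ SelG h O S u := by
    refine Subgroup.mul_mem _ hα (hg2 ?_)
    exact ⟨Units.mk0 r hr, rfl⟩
  have hβv : (β : L) = α * r ^ 2 := by
    rw [hβ]
    simp
  have hβC := (hg1 β).1 hβG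
  refine ⟨β, z, hβC, hβC.nsq, ?_, by rw [hβv]; exact hz, hd⟩
  rintro ⟨y, hy⟩
  apply hns
  have hy0 : y ≠ 0 := by
    rintro rfl
    rw [mul_zero] at hy
    exact β.ne_zero hy
  refine ⟨Units.mk0 y hy0 * (Units.mk0 r hr)⁻¹, ?_⟩
  ext
  rw [powMonoidHom_apply]
  simp only [Units.val_pow_eq_pow_val, Units.val_mul, Units.val_mk0, Units.val_inv_eq_inv_val]
  rw [mul_pow, inv_pow, pow_two y, ← hy, hβv]
  field_simp

theorem psi_kill (hREP : S_REP) (hGRP : S_GRP) (hSTEP : S_STEP) (h6 : (6 : k) ≠ 0)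
    (h : IsCub K a b θ) {S : Finset k[X]} {u : k[X] → k[X]} (hG : GoodT a b S u) {Q w : k[X]}
    (hQ : Q.Monic) (hQi : Irreducible Q) (hQS : Q ∉ S) (hQd : ¬ Q ∣ dsc a b) (hw : ¬ Q ∣ w)
    (ht : Ty12 a b Q) {α : L} (hα : SelC h O S u α) (hn : ¬ Tr O Q α) :
    psi h O (insert Q S) (Function.update u Q w) + 1 ≤ psi h O S u := by
  have hs := sz_ne (O := O) hREP hGRP h6 h hG
  obtain ⟨T, hT1, hT2, -, -, h5, -⟩ := hSTEP k K L O a b θ h6 h S u hG hs Q hQ hQi hQS hQd w hw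
  obtain ⟨hg1, hg2⟩ := hGRP k K L O a b θ h6 h S u hG
  have hnl : ¬ SelG h O S u ≤ T := by
    intro hle
    apply hn
    have h1 : Units.mk0 α hα.ne ∈ SelG h O S u := (hg1 _).2 hα
    exact (hT1 _).1 (hle h1)
  exact log_lt_of hT2 hg2 hnl hs ((h5 ht).1 hnl)

theorem psi_zero (hREP : S_REP) (hGRP : S_GRP) (h6 : (6 : k) ≠ 0) (h : IsCub K a b θ)
    {S : Finset k[X]} {u : k[X] → k[X]} (hG : GoodT a b S u) (hp : psi h O S u = 0) {α : L}
    (hα : SelC h O S u α) : IsSquare α := by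
  have hs := sz_ne (O := O) hREP hGRP h6 h hG
  obtain ⟨hg1, hg2⟩ := hGRP k K L O a b θ h6 h S u hG
  have h1 : sz (SelG h O S u) = 1 := by
    unfold psi at hp
    rw [Nat.log_eq_zero_iff] at hp
    rcases hp with hp | hp
    · omega
    · omega
  have h2 := Subgroup.relIndex_eq_one.1 h1
  have h3 : Units.mk0 α hα.ne ∈ SelG h O S u := (hg1 _).2 hα
  obtain ⟨y, hy⟩ := h2 h3
  refine ⟨y, ?_⟩
  have h4 := congrArg Units.val hy
  rw [powMonoidHom_apply] at h4
  simp only [Units.val_pow_eq_pow_val, Units.val_mk0] at h4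
  rw [← h4, pow_two]

end one

/-! ### The field and its ring of integers -/

/-- The data of one curve. -/
structure Pack (k K : Type) [Field k] [Field K] [Algebra k[X] K] (a b : k[X]) where
  L : Type
  O : Type
  [i1 : Field L]
  [i2 : Algebra K L]
  [i3 : Algebra k[X] L]
  [i4 : IsScalarTower k[X] K L]
  [i5 : CommRing O]
  [i6 : IsDedekindDomain O]
  [i7 : Algebra O L]
  [i8 : IsFractionRing O L]
  [i9 : Algebra k[X] O]
  [i10 : IsScalarTower k[X] O L]
  [i11 : IsIntegralClosure O k[X] L]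
  θ : L
  cub : IsCub K a b θ

attribute [instance] Pack.i1 Pack.i2 Pack.i3 Pack.i4 Pack.i5 Pack.i6 Pack.i7 Pack.i8 Pack.i9
  Pack.i10 Pack.i11

theorem exists_pack (k K : Type) [Field k] [Finite k] [Field K] [Algebra k[X] K]
    [IsFractionRing k[X] K] (a b : k[X]) (h6 : (6 : k) ≠ 0)
    (hirr : Irreducible (X ^ 3 + C a * X + C b : k[X][X])) : Nonempty (Pack k K a b) := by
  have hm : (X ^ 3 + C a * X + C b : k[X][X]).Monic := by monicity!
  have e : (X ^ 3 + C a * X + C b : k[X][X]).map (algebraMap k[X] K) = FF K a b := by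
    unfold FF
    simp
  haveI hfact : Fact (Irreducible (FF K a b)) := ⟨by
    rw [← e]
    exact (hm.irreducible_iff_irreducible_map_fraction_map).1 hirr⟩
  have hc := isCub_adjoinRoot (K := K) a b
  have h6K : (6 : K) ≠ 0 := by
    have : (6 : K) = algebraMap k[X] K (C 6) := by
      rw [show (C (6 : k) : k[X]) = 6 from rfl, map_ofNat]
    rw [this, Ne, IsFractionRing.to_map_eq_zero_iff, C_eq_zero]
    exact h6
  haveI : FiniteDimensional K (AdjoinRoot (FF K a b)) :=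
    (FF_monic (K := K) a b).finite_adjoinRoot
  haveI : Algebra.IsSeparable K (AdjoinRoot (FF K a b)) := sep_adjoinRoot h6K a b
  haveI : IsDedekindDomain (integralClosure k[X] (AdjoinRoot (FF K a b))) :=
    integralClosure.isDedekindDomain k[X] K (AdjoinRoot (FF K a b))
  haveI : IsFractionRing (integralClosure k[X] (AdjoinRoot (FF K a b))) (AdjoinRoot (FF K a b)) :=
    integralClosure.isFractionRing_of_finite_extension K (AdjoinRoot (FF K a b))
  exact ⟨{ L := AdjoinRoot (FF K a b), O := integralClosure k[X] (AdjoinRoot (FF K a b)),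
           θ := AdjoinRoot.root (FF K a b), cub := hc }⟩

end Run7.h875.TS
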