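import Pool.Agent.Run7.h875.TS.Fin2

/-!
# Simultaneous twists: the theorem
-/

set_option autoImplicit false
set_option linter.all false

open Polynomial IsDedekindDomain
open Pool.Agent.N874.PP Pool.Agent.TH115.GD
open scoped Classical

namespace Run7.h875.TS

section family

variable {k : Type} [Field k] [Finite k] {ι : Type} [Fintype ι] {a b p : ι → k[X]}
  {K : Type} [Field K] [Algebra k[X] K] [IsFractionRing k[X] K]
  (pk : ∀ i, Pack k K (a i) (b i))

theorem A4 (hREP : S_REP) (hGRP : S_GRP) (hCONC : S_CONC) (h6 : (6 : k) ≠ 0) (hD : Data a b p)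
    (D : k[X]) (hDm : D.Monic) (hDs : Squarefree D) (hDe : Even D.natDegree)
    (hDc : ∀ P : k[X], Irreducible P → P ∣ D → ¬ P ∣ BadF a b)
    (hDT : ∀ P ∈ TpF a b, ∃ z : k[X], P ∣ z ^ 2 - D)
    (hphi : phiF pk (prD D) (fun P => D / P) = 0) : Good K a b D := by
  intro i
  have hG : GoodT (a i) (b i) (prD D) (fun P => D / P) := by
    refine ⟨fun P hP => ((mem_prD hDm.ne_zero).1 hP).1, fun P hP => ((mem_prD hDm.ne_zero).1 hP).2.1,
      fun P hP h1 => ?_, fun P hP => ?_⟩
    · have h2 := (mem_prD hDm.ne_zero).1 hP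
      exact hDc P h2.2.1 h2.2.2 (h1.trans (dsc_dvd i))
    · have h2 := (mem_prD hDm.ne_zero).1 hP
      exact ndvd_div h2.2.1 hDs h2.2.2
  refine hCONC k K (pk i).L (pk i).O (a i) (b i) (pk i).θ h6 (pk i).cub D hDm hDs hDe
    (fun P hP h1 h2 => hDc P hP h1 (h2.trans (dsc_dvd i))) ?_ ?_
  · intro P hP h2
    have hn : normalize P ∈ TpF a b := by
      unfold TpF
      rw [Finset.mem_filter, mem_prD (BadF_ne hD)]
      have ha : Associated (normalize P) P := normalize_associated P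
      refine ⟨⟨monic_normalize hP.ne_zero, ha.symm.irreducible hP, ?_⟩, i, ?_⟩
      · rw [ha.dvd_iff_dvd_left]
        exact ((dvd_pow_self P two_ne_zero).trans h2).trans (dsc_dvd i)
      · rw [(ha.pow_pow (n := 2)).dvd_iff_dvd_left]
        exact h2
    obtain ⟨z, hz⟩ := hDT _ hn
    refine ⟨z, ?_⟩
    rwa [(normalize_associated P).dvd_iff_dvd_left] at hz
  · intro α hα
    have h1 : psi (pk i).cub (pk i).O (prD D) (fun P => D / P) = 0 := by
      unfold phiF at hphi
      exact (Finset.sum_eq_zero_iff.1 hphi) i (Finset.mem_univ i)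
    exact psi_zero hREP hGRP h6 (pk i).cub hG h1 hα

theorem A5 (hAVG : S_AVG) (hSQF : S_SQF) (h6 : (6 : k) ≠ 0) (hD : Data a b p) {g : k[X] → k[X]}
    (hg : NRs g) :
    ∃ (R : ℕ) (c : ℝ) (N₀ : ℕ), 0 < c ∧ ∀ N ≥ N₀, c * (Nat.card k : ℝ) ^ N ≤
      ∑ D ∈ ((hSQF k h6 (BadF a b) (BadF_ne hD)).1 N).toFinset, (1 / 2 : ℝ) ^ (prD D).card *
        (((prD D).powerset.filter fun T => phiF pk (prD D) (uT g T) ≤ R).card : ℝ) := by
  obtain ⟨hfin, c, hc, N₀, hcN⟩ := hSQF k h6 (BadF a b) (BadF_ne hD)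
  have h1 : ∀ i, ∃ B : ℝ, ∀ N : ℕ, ∑ D ∈ (hfin N).toFinset, (1 / 2 : ℝ) ^ (prD D).card *
      ∑ T ∈ (prD D).powerset, (sz (SelG (pk i).cub (pk i).O (prD D) (uT g T)) : ℝ) ≤
        B * (Nat.card k : ℝ) ^ N := by
    intro i
    obtain ⟨B, hB⟩ := hAVG k K (pk i).L (pk i).O (a i) (b i) (pk i).θ h6 (pk i).cub
      ⟨p i, hD.pirr i, hD.pd i, hD.pnd i⟩ g hg
    refine ⟨B, fun N => le_trans ?_ (hB N)⟩
    have hfi := (hSQF k h6 (dsc (a i) (b i)) (dsc_ne hD i)).1 N
    rw [finsum_mem_eq_finite_toFinset_sum _ hfi]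
    refine Finset.sum_le_sum_of_subset_of_nonneg ?_ fun D _ _ => by positivity
    intro D hDm
    rw [Set.Finite.mem_toFinset] at hDm ⊢
    exact ⟨hDm.1, hDm.2.1, hDm.2.2.1, hDm.2.2.2.of_isCoprime_of_dvd_right (dsc_dvd i)⟩
  choose B hB using h1
  set B₀ : ℝ := ∑ i, |B i| with hB₀
  have hB₀0 : 0 ≤ B₀ := Finset.sum_nonneg fun i _ => abs_nonneg _
  obtain ⟨M, hM⟩ := exists_nat_gt (2 * B₀ / c)
  have hM0 : 0 < M := by
    have : (0 : ℝ) < M := lt_of_le_of_lt (by positivity) hM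
    exact_mod_cast this
  refine ⟨Fintype.card ι * Nat.log 2 M, c / 2, N₀, by positivity, fun N hN => ?_⟩
  set q : ℝ := (Nat.card k : ℝ) with hq
  have hq0 : 0 < q := by
    rw [hq]
    exact_mod_cast (Finite.card_pos : 0 < Nat.card k)
  -- the bad pairs
  have h2 : ∑ D ∈ (hfin N).toFinset, (1 / 2 : ℝ) ^ (prD D).card *
      (((prD D).powerset.filter fun T => ¬ phiF pk (prD D) (uT g T) ≤
        Fintype.card ι * Nat.log 2 M).card : ℝ) ≤ c / 2 * q ^ N := by
    have h3 : ∑ D ∈ (hfin N).toFinset, (1 / 2 : ℝ) ^ (prD D).card *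
        ∑ T ∈ (prD D).powerset, ∑ i, (sz (SelG (pk i).cub (pk i).O (prD D) (uT g T)) : ℝ) ≤
          B₀ * q ^ N := by
      have e : ∑ D ∈ (hfin N).toFinset, (1 / 2 : ℝ) ^ (prD D).card *
          ∑ T ∈ (prD D).powerset, ∑ i, (sz (SelG (pk i).cub (pk i).O (prD D) (uT g T)) : ℝ) =
          ∑ i, ∑ D ∈ (hfin N).toFinset, (1 / 2 : ℝ) ^ (prD D).card *
            ∑ T ∈ (prD D).powerset, (sz (SelG (pk i).cub (pk i).O (prD D) (uT g T)) : ℝ) := by
        rw [Finset.sum_comm]
        refine Finset.sum_congr rfl fun D _ => ?_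
        rw [← Finset.mul_sum, Finset.sum_comm]
      rw [e, hB₀, Finset.sum_mul]
      refine Finset.sum_le_sum fun i _ => (hB i N).trans ?_
      have := le_abs_self (B i)
      gcongr
    have h4 : (M : ℝ) * ∑ D ∈ (hfin N).toFinset, (1 / 2 : ℝ) ^ (prD D).card *
        (((prD D).powerset.filter fun T => ¬ phiF pk (prD D) (uT g T) ≤
          Fintype.card ι * Nat.log 2 M).card : ℝ) ≤ B₀ * q ^ N := by
      refine le_trans ?_ h3
      rw [Finset.mul_sum]
      refine Finset.sum_le_sum fun D hDm => ?_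
      rw [mul_left_comm]
      refine mul_le_mul_of_nonneg_left ?_ (by positivity)
      calc (M : ℝ) * (((prD D).powerset.filter fun T => ¬ phiF pk (prD D) (uT g T) ≤
          Fintype.card ι * Nat.log 2 M).card : ℝ)
          = ∑ T ∈ (prD D).powerset.filter (fun T => ¬ phiF pk (prD D) (uT g T) ≤
          Fintype.card ι * Nat.log 2 M), (M : ℝ) := by
            rw [Finset.sum_const, nsmul_eq_mul, mul_comm]
        _ ≤ ∑ T ∈ (prD D).powerset.filter (fun T => ¬ phiF pk (prD D) (uT g T) ≤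
          Fintype.card ι * Nat.log 2 M),
            ∑ i, (sz (SelG (pk i).cub (pk i).O (prD D) (uT g T)) : ℝ) := by
            refine Finset.sum_le_sum fun T hT => ?_
            have hT2 := (Finset.mem_filter.1 hT).2
            obtain ⟨i, hi⟩ : ∃ i, M ≤ sz (SelG (pk i).cub (pk i).O (prD D) (uT g T)) := by
              by_contra hcon
              push Not at hcon
              apply hT2
              unfold phiF
              calc ∑ i, psi (pk i).cub (pk i).O (prD D) (uT g T) ≤ ∑ i : ι, Nat.log 2 M :=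
                    Finset.sum_le_sum fun i _ => Nat.log_mono_right (hcon i).le
                _ = _ := by simp
            calc (M : ℝ) ≤ (sz (SelG (pk i).cub (pk i).O (prD D) (uT g T)) : ℝ) := by
                  exact_mod_cast hi
              _ ≤ _ := Finset.single_le_sum
                  (f := fun i => (sz (SelG (pk i).cub (pk i).O (prD D) (uT g T)) : ℝ))
                  (fun _ _ => by positivity) (Finset.mem_univ i)
        _ ≤ _ := Finset.sum_le_sum_of_subset_of_nonneg (Finset.filter_subset _ _)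
            fun _ _ _ => Finset.sum_nonneg fun _ _ => by positivity
    have hM1 : (0 : ℝ) < M := by exact_mod_cast hM0
    rw [div_lt_iff₀ hc] at hM
    have h5 : B₀ * q ^ N ≤ M * (c / 2 * q ^ N) := by
      have : (0 : ℝ) < q ^ N := by positivity
      nlinarith
    exact le_of_mul_le_mul_left (h4.trans h5) hM1
  -- all pairs
  have h3 : ∑ D ∈ (hfin N).toFinset, (1 / 2 : ℝ) ^ (prD D).card *
      (((prD D).powerset.card : ℕ) : ℝ) = ((hfin N).toFinset.card : ℝ) := by
    rw [Finset.card_eq_sum_ones, Nat.cast_sum]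
    refine Finset.sum_congr rfl fun D _ => ?_
    rw [Finset.card_powerset]
    push_cast
    rw [← mul_pow]
    norm_num
  have h4 : ∑ D ∈ (hfin N).toFinset, (1 / 2 : ℝ) ^ (prD D).card *
        (((prD D).powerset.card : ℕ) : ℝ) =
      ∑ D ∈ (hfin N).toFinset, (1 / 2 : ℝ) ^ (prD D).card *
        (((prD D).powerset.filter fun T => phiF pk (prD D) (uT g T) ≤
          Fintype.card ι * Nat.log 2 M).card : ℝ) +
      ∑ D ∈ (hfin N).toFinset, (1 / 2 : ℝ) ^ (prD D).card *
        (((prD D).powerset.filter fun T => ¬ phiF pk (prD D) (uT g T) ≤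
          Fintype.card ι * Nat.log 2 M).card : ℝ) := by
    rw [← Finset.sum_add_distrib]
    refine Finset.sum_congr rfl fun D _ => ?_
    rw [← mul_add]
    congr 1
    rw [← Nat.cast_add]
    congr 1
    exact (Finset.card_filter_add_card_filter_not _).symm
  have h5 := hcN N hN
  rw [Set.ncard_eq_toFinset_card _ (hfin N)] at h5
  linarith

end family

theorem fin2 (hAVG : S_AVG) (hKILL : S_KILL) (hLAST : S_LAST) (hSTEP : S_STEP) (hCLSU : S_CLSU)
    (hCONC : S_CONC) (hSQF : S_SQF) (hREP : S_REP) (hGRP : S_GRP) : S_FIN2 := by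
  intro k ι _ _ _ a b p h6 hD K _ _ _
  haveI := Fintype.ofFinite ι
  obtain ⟨g, hg⟩ := exists_NRs k h6
  have pk : ∀ i, Pack k K (a i) (b i) := fun i =>
    (exists_pack k K (a i) (b i) h6 (hD.irr i)).some
  exact count (inv_phiF pk hREP hGRP hCLSU h6)
    (fun P hP => ⟨(TpF_spec hD hP).2.1, (TpF_spec hD hP).2.2.1⟩) hg
    ((hSQF k h6 (BadF a b) (BadF_ne hD)).1) (Good K a b)
    (A1 pk hREP hGRP hSTEP hKILL hLAST h6 hD) (A2 pk hREP hGRP hSTEP hLAST h6 hD)
    (A4 pk hREP hGRP hCONC h6 hD) (A5 pk hAVG hSQF h6 hD hg)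

end Run7.h875.TS
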