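import Pool.Agent.Run7.h875.TS.Fin3

/-!
# Simultaneous twists: the theorem with prescribed local behaviour at finitely many primes
-/

set_option autoImplicit false
set_option linter.all false

open Polynomial IsDedekindDomain
open Pool.Agent.N874.PP Pool.Agent.TH115.GD
open scoped Classical

namespace Run7.h875.TS

theorem St.mono {k : Type} [Field k] [Finite k] {Bad Bad' : k[X]} {S : Finset k[X]}
    {u : k[X] → k[X]} {Y : k[X]} (h : St Bad S u Y) (hd : Bad' ∣ Bad) : St Bad' S u Y :=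
  ⟨h.mon, h.sf, fun P hP h1 h2 => h.cop P hP h1 (h2.trans hd), h.pr, h.nu⟩

section family

variable {k : Type} [Field k] [Finite k] {ι : Type} [Fintype ι] {a b p : ι → k[X]}
  {K : Type} [Field K] [Algebra k[X] K] [IsFractionRing k[X] K]

/-- The discriminants and the primes in `T`. -/
noncomputable def BadT (a b : ι → k[X]) (T : Finset k[X]) : k[X] := BadF a b * ∏ P ∈ T, P

/-- The set of primes is admissible. -/
def AdT (p : ι → k[X]) (T : Finset k[X]) : Prop :=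
  ∀ P ∈ T, P.Monic ∧ Irreducible P ∧ ∀ i, ¬ P ∣ p i

theorem BadF_dvd (T : Finset k[X]) : BadF a b ∣ BadT a b T := Dvd.intro _ rfl

theorem dsc_dvdT (T : Finset k[X]) (i : ι) : dsc (a i) (b i) ∣ BadT a b T :=
  (dsc_dvd i).trans (BadF_dvd T)

theorem BadT_ne (hD : Data a b p) {T : Finset k[X]} (hT : AdT p T) : BadT a b T ≠ 0 :=
  mul_ne_zero (BadF_ne hD) (Finset.prod_ne_zero_iff.2 fun P hP => (hT P hP).2.1.ne_zero)

theorem ndvd_BadT {T : Finset k[X]} (hT : AdT p T) {Q : k[X]} (hQm : Q.Monic) (hQ : Irreducible Q)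
    (h : ∀ i, ¬ Q ∣ dsc (a i) (b i)) (hQT : Q ∉ T) : ¬ Q ∣ BadT a b T := by
  intro h1
  rcases hQ.prime.dvd_or_dvd h1 with h2 | h2
  · exact ndvd_BadF hQ h h2
  · obtain ⟨P, hP, h3⟩ := (Prime.dvd_finset_prod_iff hQ.prime _).1 h2
    have h4 := hQ.associated_of_dvd (hT P hP).2.1 h3
    exact hQT ((eq_of_monic_of_associated hQm (hT P hP).1 h4) ▸ hP)

theorem dvd_BadT {T : Finset k[X]} {P : k[X]} (hP : P ∈ T) : P ∣ BadT a b T :=
  (Finset.dvd_prod_of_mem (fun P : k[X] => P) hP).trans (Dvd.intro_left _ rfl)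

variable (pk : ∀ i, Pack k K (a i) (b i))

theorem inv_phiT (hREP : S_REP) (hGRP : S_GRP) (hCLSU : S_CLSU) (h6 : (6 : k) ≠ 0)
    (T : Finset k[X]) : Inv (phiF pk) (BadT a b T) := by
  intro S u u' h
  refine inv_phiF pk hREP hGRP hCLSU h6 S u u' fun P hP => ?_
  obtain ⟨h1, h2, h3, h4⟩ := h P hP
  exact ⟨h1, h2, fun h5 => h3 (h5.trans (BadF_dvd T)), h4⟩

theorem B1 (hREP : S_REP) (hGRP : S_GRP) (hSTEP : S_STEP) (hKILL : S_KILL) (hLAST : S_LAST)
    (h6 : (6 : k) ≠ 0) (hD : Data a b p) {T : Finset k[X]} (hT : AdT p T) :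
    ∃ c₀ C₀ : ℝ, 0 < c₀ ∧ 0 ≤ C₀ ∧ ∀ (S : Finset k[X]) (u : k[X] → k[X]) (Y : k[X]),
      St (BadT a b T) S u Y → ∀ m : ℕ, 0 < m →
        c₀ * (Nat.card k : ℝ) ^ m / m - C₀ * (1 + Y.natDegree) * √((Nat.card k : ℝ) ^ m) ≤
          ((stS (phiF pk) (BadT a b T) S u m).card : ℝ) := by
  obtain ⟨c₀, C₀, hc₀, hC₀, h1⟩ := A1 pk hREP hGRP hSTEP hKILL hLAST h6 hD
  refine ⟨c₀, C₀ + T.card, hc₀, by positivity, fun S u Y hSt m hm => ?_⟩
  have h2 := h1 S u Y (hSt.mono (BadF_dvd T)) m hm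
  have h3 : ((stS (phiF pk) (BadF a b) S u m).card : ℝ) - T.card ≤
      ((stS (phiF pk) (BadT a b T) S u m).card : ℝ) := by
    have h4 : (stS (phiF pk) (BadF a b) S u m).card ≤
        (stS (phiF pk) (BadT a b T) S u m).card + T.card := by
      calc (stS (phiF pk) (BadF a b) S u m).card ≤
          (stS (phiF pk) (BadT a b T) S u m ∪ T).card := by
            refine Finset.card_le_card fun Q hQ => ?_
            by_cases hQT : Q ∈ T
            · exact Finset.mem_union_right _ hQT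
            · apply Finset.mem_union_left
              unfold stS at hQ ⊢
              rw [Finset.mem_filter] at hQ ⊢
              obtain ⟨h5, h7, h8, h9⟩ := hQ
              have hQ2 := mem_irrD.1 h5
              exact ⟨h5, h7, ndvd_BadT hT hQ2.1 hQ2.2.1 (fun i hi => h8 (hi.trans (dsc_dvd i))) hQT,
                h9⟩
        _ ≤ _ := Finset.card_union_le _ _
    have h5 : ((stS (phiF pk) (BadF a b) S u m).card : ℝ) ≤
        (stS (phiF pk) (BadT a b T) S u m).card + T.card := by exact_mod_cast h4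
    linarith
  have h4 : (T.card : ℝ) ≤ T.card * (1 + Y.natDegree) * √((Nat.card k : ℝ) ^ m) := by
    have h5 := one_le_sqrt_pow (k := k) m
    have h6 : (1 : ℝ) ≤ 1 + Y.natDegree := by
      have : (0 : ℝ) ≤ Y.natDegree := by positivity
      linarith
    have h7 : (0 : ℝ) ≤ T.card := by positivity
    calc (T.card : ℝ) = T.card * 1 * 1 := by ring
      _ ≤ _ := by gcongr
  have h5 : (C₀ + T.card) * (1 + Y.natDegree) * √((Nat.card k : ℝ) ^ m) =
      C₀ * (1 + Y.natDegree) * √((Nat.card k : ℝ) ^ m) +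
        T.card * (1 + Y.natDegree) * √((Nat.card k : ℝ) ^ m) := by ring
  linarith

theorem B2 (hREP : S_REP) (hGRP : S_GRP) (hSTEP : S_STEP) (hLAST : S_LAST)
    (h6 : (6 : k) ≠ 0) (hD : Data a b p) {T : Finset k[X]} (hT : AdT p T) :
    ∃ c₀ C₀ : ℝ, 0 < c₀ ∧ 0 ≤ C₀ ∧ ∀ (S : Finset k[X]) (u : k[X] → k[X]) (Y : k[X]),
      St (BadT a b T) S u Y → ∀ (η : k[X] → Prop) (m : ℕ), 0 < m →
        c₀ * (1 / 2) ^ S.card * (Nat.card k : ℝ) ^ m / m -
          C₀ * (1 + Y.natDegree) * √((Nat.card k : ℝ) ^ m) ≤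
          ((laS (phiF pk) (BadT a b T) (TpF a b ∪ T) S u η m).card : ℝ) := by
  obtain ⟨c₂, C₂, hc₂, h2⟩ := hLAST k ι a b p h6 hD
  obtain ⟨T', hT'⟩ : ∃ T', T' = TpF a b ∪ T := ⟨_, rfl⟩
  rw [← hT']
  refine ⟨c₂ * (1 / 2) ^ T'.card, C₂ * (1 + dg T'), by positivity, by positivity, ?_⟩
  intro S u Y hSt η m hm
  set q : ℝ := (Nat.card k : ℝ) with hq
  have hq0 : 0 < q := by
    rw [hq]
    exact_mod_cast (Finite.card_pos : 0 < Nat.card k)
  have hm0 : (0 : ℝ) < m := by exact_mod_cast hm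
  have hSt' := hSt.mono (BadF_dvd T)
  have h3 := h2 (S ∪ T') η (by
    intro P hP
    rw [Finset.mem_union] at hP
    rcases hP with hP | hP
    · have h4 := hSt.mem.1 hP
      refine ⟨h4.1, h4.2.1, fun i hi => hSt.cop P h4.2.1 h4.2.2 (hi.trans ((hD.pd i).trans (dsc_dvdT T i)))⟩
    · rw [hT', Finset.mem_union] at hP
      rcases hP with hP | hP
      · obtain ⟨h4, h5, h7, j, hj⟩ := TpF_spec hD hP
        refine ⟨h4, h5, fun i hi => ?_⟩
        have h8 := h5.associated_of_dvd (hD.pirr i) hi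
        have h9 : (p i) ^ 2 ∣ dsc (a j) (b j) := ((h8.pow_pow (n := 2)).dvd_iff_dvd_left).1 hj
        by_cases hij : i = j
        · subst hij
          exact hD.pnd i h9
        · exact hD.pne i j hij ((dvd_pow_self _ two_ne_zero).trans h9)
      · exact hT P hP) m hm
  have h4 := h3.trans (le_card' (B := laS (phiF pk) (BadT a b T) T' S u η m)
    fun Q hQ1 hQp => by
      obtain ⟨hQt, hQS, hQη⟩ := hQp
      have hQ2 := mem_irrD.1 hQ1
      rw [Finset.mem_union, not_or] at hQS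
      have hQT : Q ∉ T := fun h => hQS.2 (by rw [hT']; exact Finset.mem_union_right _ h)
      unfold laS
      rw [Finset.mem_filter]
      exact ⟨hQ1, hQS.1, ndvd_BadT hT hQ2.1 hQ2.2.1 (fun i => (hQt i).1) hQT, hQη, fun w hw =>
        phi_inert pk hREP hGRP hSTEP h6 hSt' hQ2.1 hQ2.2.1 hQS.1 hw hQt⟩)
  refine le_trans ?_ h4
  have h5 : c₂ * (1 / 2) ^ T'.card * (1 / 2) ^ S.card * q ^ m / m ≤
      c₂ * (1 / 2) ^ (S ∪ T').card * q ^ m / m := by
    have h7 : (1 / 2 : ℝ) ^ T'.card * (1 / 2) ^ S.card ≤ (1 / 2) ^ (S ∪ T').card := by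
      rw [← pow_add]
      refine pow_le_pow_of_le_one (by norm_num) (by norm_num) ?_
      rw [add_comm]
      exact Finset.card_union_le _ _
    calc c₂ * (1 / 2) ^ T'.card * (1 / 2) ^ S.card * q ^ m / m =
        c₂ * ((1 / 2) ^ T'.card * (1 / 2) ^ S.card) * q ^ m / m := by ring
      _ ≤ _ := by gcongr
  have h7 : (dg (S ∪ T') : ℝ) ≤ Y.natDegree + dg T' := by
    have : dg (S ∪ T') ≤ dg S + dg T' := by
      unfold dg
      have := Finset.sum_union_inter (s₁ := S) (s₂ := T') (f := fun P : k[X] => P.natDegree)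
      omega
    rw [hSt.dg_eq] at this
    exact_mod_cast this
  have h8 : (C₂ : ℝ) * (1 + dg (S ∪ T')) * √(q ^ m) ≤
      C₂ * (1 + dg T') * (1 + Y.natDegree) * √(q ^ m) := by
    have h9 : (1 : ℝ) + dg (S ∪ T') ≤ (1 + dg T') * (1 + Y.natDegree) := by
      have h10 : (0 : ℝ) ≤ (dg T' : ℝ) * Y.natDegree := by positivity
      nlinarith
    calc (C₂ : ℝ) * (1 + dg (S ∪ T')) * √(q ^ m) ≤
        C₂ * ((1 + dg T') * (1 + Y.natDegree)) * √(q ^ m) := by gcongr
      _ = _ := by ring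
  linarith

theorem B5 (hAVG : S_AVG) (hSQF : S_SQF) (h6 : (6 : k) ≠ 0) (hD : Data a b p) {T : Finset k[X]}
    (hT : AdT p T) {g : k[X] → k[X]} (hg : NRs g) :
    ∃ (R : ℕ) (c : ℝ) (N₀ : ℕ), 0 < c ∧ ∀ N ≥ N₀, c * (Nat.card k : ℝ) ^ N ≤
      ∑ D ∈ ((hSQF k h6 (BadT a b T) (BadT_ne hD hT)).1 N).toFinset, (1 / 2 : ℝ) ^ (prD D).card *
        (((prD D).powerset.filter fun T => phiF pk (prD D) (uT g T) ≤ R).card : ℝ) := by
  obtain ⟨hfin, c, hc, N₀, hcN⟩ := hSQF k h6 (BadT a b T) (BadT_ne hD hT)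
  have h1 : ∀ i, ∃ B : ℝ, ∀ N : ℕ, ∑ D ∈ (hfin N).toFinset, (1 / 2 : ℝ) ^ (prD D).card *
      ∑ T ∈ (prD D).powerset, (sz (SelG (pk i).cub (pk i).O (prD D) (uT g T)) : ℝ) ≤
        B * (Nat.card k : ℝ) ^ N := by
    intro i
    obtain ⟨B, hB⟩ := hAVG k K (pk i).L (pk i).O (a i) (b i) (pk i).θ h6 (pk i).cub
      ⟨p i, hD.pirr i, hD.pd i, hD.pnd i⟩ g hg
    refine ⟨B, fun N => le_trans ?_ (hB N)⟩
    have hfi := (hSQF k h6 (dsc (a i) (b i)) (dsc_ne hD i)).1 N
    rw [finsum_mem_eq_finite_toFinset_sum _ hfi]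
    refine Finset.sum_le_sum_of_subset_of_nonneg ?_ fun D _ _ => by positivity
    intro D hDm
    rw [Set.Finite.mem_toFinset] at hDm ⊢
    exact ⟨hDm.1, hDm.2.1, hDm.2.2.1, hDm.2.2.2.of_isCoprime_of_dvd_right (dsc_dvdT T i)⟩
  choose B hB using h1
  set B₀ : ℝ := ∑ i, |B i| with hB₀
  have hB₀0 : 0 ≤ B₀ := Finset.sum_nonneg fun i _ => abs_nonneg _
  obtain ⟨M, hM⟩ := exists_nat_gt (2 * B₀ / c)
  have hM0 : 0 < M := by
    have : (0 : ℝ) < M := lt_of_le_of_lt (by positivity) hM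
    exact_mod_cast this
  refine ⟨Fintype.card ι * Nat.log 2 M, c / 2, N₀, by positivity, fun N hN => ?_⟩
  set q : ℝ := (Nat.card k : ℝ) with hq
  have hq0 : 0 < q := by
    rw [hq]
    exact_mod_cast (Finite.card_pos : 0 < Nat.card k)
  -- the bad pairs
  have h2 : ∑ D ∈ (hfin N).toFinset, (1 / 2 : ℝ) ^ (prD D).card *
      (((prD D).powerset.filter fun T => ¬ phiF pk (prD D) (uT g T) ≤
        Fintype.card ι * Nat.log 2 M).card : ℝ) ≤ c / 2 * q ^ N := by
    have h3 : ∑ D ∈ (hfin N).toFinset, (1 / 2 : ℝ) ^ (prD D).card *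
        ∑ T ∈ (prD D).powerset, ∑ i, (sz (SelG (pk i).cub (pk i).O (prD D) (uT g T)) : ℝ) ≤
          B₀ * q ^ N := by
      have e : ∑ D ∈ (hfin N).toFinset, (1 / 2 : ℝ) ^ (prD D).card *
          ∑ T ∈ (prD D).powerset, ∑ i, (sz (SelG (pk i).cub (pk i).O (prD D) (uT g T)) : ℝ) =
          ∑ i, ∑ D ∈ (hfin N).toFinset, (1 / 2 : ℝ) ^ (prD D).card *
            ∑ T ∈ (prD D).powerset, (sz (SelG (pk i).cub (pk i).O (prD D) (uT g T)) : ℝ) := by
        rw [Finset.sum_comm]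
        refine Finset.sum_congr rfl fun D _ => ?_
        rw [← Finset.mul_sum, Finset.sum_comm]
      rw [e, hB₀, Finset.sum_mul]
      refine Finset.sum_le_sum fun i _ => (hB i N).trans ?_
      have := le_abs_self (B i)
      gcongr
    have h4 : (M : ℝ) * ∑ D ∈ (hfin N).toFinset, (1 / 2 : ℝ) ^ (prD D).card *
        (((prD D).powerset.filter fun T => ¬ phiF pk (prD D) (uT g T) ≤
          Fintype.card ι * Nat.log 2 M).card : ℝ) ≤ B₀ * q ^ N := by
      refine le_trans ?_ h3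
      rw [Finset.mul_sum]
      refine Finset.sum_le_sum fun D hDm => ?_
      rw [mul_left_comm]
      refine mul_le_mul_of_nonneg_left ?_ (by positivity)
      calc (M : ℝ) * (((prD D).powerset.filter fun T => ¬ phiF pk (prD D) (uT g T) ≤
          Fintype.card ι * Nat.log 2 M).card : ℝ)
          = ∑ T ∈ (prD D).powerset.filter (fun T => ¬ phiF pk (prD D) (uT g T) ≤
          Fintype.card ι * Nat.log 2 M), (M : ℝ) := by
            rw [Finset.sum_const, nsmul_eq_mul, mul_comm]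
        _ ≤ ∑ T ∈ (prD D).powerset.filter (fun T => ¬ phiF pk (prD D) (uT g T) ≤
          Fintype.card ι * Nat.log 2 M),
            ∑ i, (sz (SelG (pk i).cub (pk i).O (prD D) (uT g T)) : ℝ) := by
            refine Finset.sum_le_sum fun T hT => ?_
            have hT2 := (Finset.mem_filter.1 hT).2
            obtain ⟨i, hi⟩ : ∃ i, M ≤ sz (SelG (pk i).cub (pk i).O (prD D) (uT g T)) := by
              by_contra hcon
              push Not at hcon
              apply hT2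
              unfold phiF
              calc ∑ i, psi (pk i).cub (pk i).O (prD D) (uT g T) ≤ ∑ i : ι, Nat.log 2 M :=
                    Finset.sum_le_sum fun i _ => Nat.log_mono_right (hcon i).le
                _ = _ := by simp
            calc (M : ℝ) ≤ (sz (SelG (pk i).cub (pk i).O (prD D) (uT g T)) : ℝ) := by
                  exact_mod_cast hi
              _ ≤ _ := Finset.single_le_sum
                  (f := fun i => (sz (SelG (pk i).cub (pk i).O (prD D) (uT g T)) : ℝ))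
                  (fun _ _ => by positivity) (Finset.mem_univ i)
        _ ≤ _ := Finset.sum_le_sum_of_subset_of_nonneg (Finset.filter_subset _ _)
            fun _ _ _ => Finset.sum_nonneg fun _ _ => by positivity
    have hM1 : (0 : ℝ) < M := by exact_mod_cast hM0
    rw [div_lt_iff₀ hc] at hM
    have h5 : B₀ * q ^ N ≤ M * (c / 2 * q ^ N) := by
      have : (0 : ℝ) < q ^ N := by positivity
      nlinarith
    exact le_of_mul_le_mul_left (h4.trans h5) hM1
  -- all pairs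
  have h3 : ∑ D ∈ (hfin N).toFinset, (1 / 2 : ℝ) ^ (prD D).card *
      (((prD D).powerset.card : ℕ) : ℝ) = ((hfin N).toFinset.card : ℝ) := by
    rw [Finset.card_eq_sum_ones, Nat.cast_sum]
    refine Finset.sum_congr rfl fun D _ => ?_
    rw [Finset.card_powerset]
    push_cast
    rw [← mul_pow]
    norm_num
  have h4 : ∑ D ∈ (hfin N).toFinset, (1 / 2 : ℝ) ^ (prD D).card *
        (((prD D).powerset.card : ℕ) : ℝ) =
      ∑ D ∈ (hfin N).toFinset, (1 / 2 : ℝ) ^ (prD D).card *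
        (((prD D).powerset.filter fun T => phiF pk (prD D) (uT g T) ≤
          Fintype.card ι * Nat.log 2 M).card : ℝ) +
      ∑ D ∈ (hfin N).toFinset, (1 / 2 : ℝ) ^ (prD D).card *
        (((prD D).powerset.filter fun T => ¬ phiF pk (prD D) (uT g T) ≤
          Fintype.card ι * Nat.log 2 M).card : ℝ) := by
    rw [← Finset.sum_add_distrib]
    refine Finset.sum_congr rfl fun D _ => ?_
    rw [← mul_add]
    congr 1
    rw [← Nat.cast_add]
    congr 1
    exact (Finset.card_filter_add_card_filter_not _).symm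
  have h5 := hcN N hN
  rw [Set.ncard_eq_toFinset_card _ (hfin N)] at h5
  linarith

end family

/-- The theorem with prescribed local behaviour. -/
theorem finT (hAVG : S_AVG) (hKILL : S_KILL) (hLAST : S_LAST) (hSTEP : S_STEP) (hCLSU : S_CLSU)
    (hCONC : S_CONC) (hSQF : S_SQF) (hREP : S_REP) (hGRP : S_GRP) (k ι : Type) [Field k] [Finite k]
    [Finite ι] (a b p : ι → k[X]) (h6 : (6 : k) ≠ 0) (hD : Data a b p) (T : Finset k[X])
    (hT : AdT p T) (K : Type) [Field K] [Algebra k[X] K] [IsFractionRing k[X] K] :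
    ∃ c : ℝ, 0 < c ∧ ∃ N₀ : ℕ, ∀ n ≥ N₀, Even n →
      c * (Nat.card k : ℝ) ^ n ≤
        ({D : k[X] | D.Monic ∧ D.natDegree = n ∧ Squarefree D ∧ Good K a b D ∧
          (∀ P : k[X], Irreducible P → P ∣ D → ∀ i, ¬ P ∣ dsc (a i) (b i)) ∧
          ∀ P ∈ T, ∃ z : k[X], ¬ P ∣ z ∧ P ∣ z ^ 2 - D}.ncard : ℝ) := by
  haveI := Fintype.ofFinite ι
  obtain ⟨g, hg⟩ := exists_NRs k h6
  have pk : ∀ i, Pack k K (a i) (b i) := fun i =>
    (exists_pack k K (a i) (b i) h6 (hD.irr i)).some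
  refine count (inv_phiT pk hREP hGRP hCLSU h6 T)
    (T' := TpF a b ∪ T) ?_ hg
    ((hSQF k h6 (BadT a b T) (BadT_ne hD hT)).1) (fun D => Good K a b D ∧
      (∀ P : k[X], Irreducible P → P ∣ D → ∀ i, ¬ P ∣ dsc (a i) (b i)) ∧
          ∀ P ∈ T, ∃ z : k[X], ¬ P ∣ z ∧ P ∣ z ^ 2 - D)
    (B1 pk hREP hGRP hSTEP hKILL hLAST h6 hD hT) (B2 pk hREP hGRP hSTEP hLAST h6 hD hT)
    ?_ (B5 pk hAVG hSQF h6 hD hT hg)
  · intro P hP
    rw [Finset.mem_union] at hP
    rcases hP with hP | hP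
    · exact ⟨(TpF_spec hD hP).2.1, (TpF_spec hD hP).2.2.1.trans (BadF_dvd T)⟩
    · exact ⟨(hT P hP).2.1, dvd_BadT hP⟩
  · intro D hDm hDs hDe hDc hDT hphi
    refine ⟨A4 pk hREP hGRP hCONC h6 hD D hDm hDs hDe
      (fun P hP h1 h2 => hDc P hP h1 (h2.trans (BadF_dvd T)))
      (fun P hP => hDT P (Finset.mem_union_left _ hP)) hphi,
      fun P hP h1 i h2 => hDc P hP h1 (h2.trans (dsc_dvdT T i)), fun P hP => ?_⟩
    obtain ⟨z, hz⟩ := hDT P (Finset.mem_union_right _ hP)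
    refine ⟨z, fun h1 => ?_, hz⟩
    have h2 : P ∣ D := by
      have h3 := dvd_sub (dvd_pow h1 two_ne_zero) hz
      simpa using h3
    exact hDc P (hT P hP).2.1 h2 (dvd_BadT hP)

end Run7.h875.TS
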