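import Pool.Agent.Run7.h875.TS.StmA
import Mathlib.RingTheory.LaurentSeries

/-!
# Simultaneous twists: parts of MODEL
-/

set_option autoImplicit false
set_option linter.all false

open Polynomial
open Pool.Agent.N874.PP
open scoped Classical

namespace Run7.h875.TS

/-- **M1** (about 120 lines). `X ^ 3 + a X + b` stays irreducible over `k'(X)`.

Proof: a cubic; else it has a zero in `k'(X)`, so in `k'[X]` (integrally closed). If it had all its zeros
there then `- dsc` would be the square of the product of the differences; but `dsc` has a simple zero at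
the zeros of `p` (`k` is perfect, so `p` is separable; `dsc = p c`, `p ∤ c`). So exactly one zero `r`, and
the Frobenius map of the coefficients (`c ↦ c ^ |k|`) fixes it; so `r` has coefficients in `k` and is a
zero over `k[X]`. -/
def S_M1 : Prop := ∀ (k k' K' : Type) [Field k] [Finite k] [Field k'] [IsAlgClosed k'] [Algebra k k']
  [Algebra.IsAlgebraic k k'] [Field K'] [Algebra k'[X] K'] [IsFractionRing k'[X] K'] (a b p : k[X]),
  (6 : k) ≠ 0 → Irreducible (X ^ 3 + C a * X + C b : k[X][X]) → Irreducible p → p ∣ dsc a b →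
  ¬ p ^ 2 ∣ dsc a b →
  Irreducible (X ^ 3 + C (algebraMap k'[X] K' (a.map (algebraMap k k'))) * X +
    C (algebraMap k'[X] K' (b.map (algebraMap k k'))) : K'[X])

/-- **M2** (about 120 lines). The embedding `X ↦ τ + T` of `k'(X)` in `k'((T))`.

Proof: `k'[X] → k'⟦T⟧`, injective, extends to the fractions. The cubic has three different zeros modulo
`T`, which lift by Hensel's lemma (`Pool.Agent.N400.AW.HENS.hensel_nm`). The order of a square is even,
that of `d(τ + T)` is one if `d(τ) = 0`, `d'(τ) ≠ 0`. -/
def S_M2 : Prop := ∀ (k' K' : Type) [Field k'] [IsAlgClosed k'] [Field K'] [Algebra k'[X] K']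
  [IsFractionRing k'[X] K'] (τ : k'), (6 : k') ≠ 0 →
  ∃ φ : K' →+* LaurentSeries k',
    (∀ A B : k'[X], (4 * A ^ 3 + 27 * B ^ 2).eval τ ≠ 0 →
      ((X ^ 3 + C (algebraMap k'[X] K' A) * X + C (algebraMap k'[X] K' B) : K'[X]).map φ).Splits) ∧
    ∀ d : k'[X], d.eval τ = 0 → (derivative d).eval τ ≠ 0 → ¬ IsSquare (φ (algebraMap k'[X] K' d))

end Run7.h875.TS
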