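import Pool.Agent.Run7.h875.TS.Mod
import Pool.Agent.N199.PP.GL

/-!
# Simultaneous twists, MODEL: composita of cubic fields
-/

set_option autoImplicit false
set_option linter.all false

open Polynomial IntermediateField
open Pool.Agent.N199.PP
open scoped Classical

namespace Run7.h875.TS

theorem disc_split {E : Type} [Field E] {A B : E} (h : (cub A B).Splits) :
    IsSquare (-(4 * A ^ 3 + 27 * B ^ 2)) := by
  have hcard : (cub A B).roots.card = 3 := by rw [← h.natDegree_eq_card_roots, cub_natDegree]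
  obtain ⟨t₁, t₂, t₃, hr⟩ := Multiset.card_eq_three.1 hcard
  have hprod := h.eq_prod_roots_of_monic (cub_monic A B)
  rw [hr] at hprod
  simp only [Multiset.insert_eq_cons, Multiset.map_cons, Multiset.map_singleton, Multiset.prod_cons,
    Multiset.prod_singleton] at hprod
  have hexp : (X - C t₁) * ((X - C t₂) * (X - C t₃)) = X ^ 3 + C (-(t₁ + t₂ + t₃)) * X ^ 2 +
      C (t₁ * t₂ + t₁ * t₃ + t₂ * t₃) * X + C (-(t₁ * t₂ * t₃)) := by
    simp only [C_neg, C_add, C_mul]
    ring
  rw [hexp] at hprod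
  unfold cub at hprod
  have c2 := congrArg (fun q => q.coeff 2) hprod
  have c1 := congrArg (fun q => q.coeff 1) hprod
  have c0 := congrArg (fun q => q.coeff 0) hprod
  simp only [coeff_add, coeff_C_mul, coeff_X_pow, coeff_X, coeff_C] at c2 c1 c0
  norm_num at c2 c1 c0
  refine ⟨(t₁ - t₂) * (t₁ - t₃) * (t₂ - t₃), ?_⟩
  have e3 : t₃ = -t₁ - t₂ := by linear_combination c2
  rw [c1, c0, e3]
  ring

section gen

variable {F Ω ι : Type} [Field F] [Field Ω] [Algebra F Ω]

theorem minpoly_dvd_cub {A B : F} {x : Ω} (h : aeval x (cub A B) = 0) : minpoly F x ∣ cub A B :=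
  minpoly.dvd F x h

theorem integral_cub {A B : F} {x : Ω} (h : aeval x (cub A B) = 0) : IsIntegral F x :=
  ⟨cub A B, cub_monic A B, h⟩

/-- No new root. -/
theorem no_root_adjoin [IsAlgClosed Ω] {A B : ι → F} {J₀ : Finset ι} {j₀ : ι} {E : Type} [Field E]
    (φ : F →+* E) (hirr : Irreducible (cub (A j₀) (B j₀)))
    (hspl : ∀ i ∈ J₀, ((cub (A i) (B i)).map φ).Splits)
    (hnsq : ¬ IsSquare (φ (-(4 * A j₀ ^ 3 + 27 * B j₀ ^ 2)))) {ρ : Ω}
    (hρ : ρ ∈ adjoin F {x : Ω | ∃ i ∈ J₀, aeval x (cub (A i) (B i)) = 0}) :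
    aeval ρ (cub (A j₀) (B j₀)) ≠ 0 := by
  intro h0
  letI := φ.toAlgebra
  set g : F[X] := ∏ i ∈ J₀, cub (A i) (B i) with hg
  have hg0 : g ≠ 0 := Finset.prod_ne_zero_iff.2 fun i _ => (cub_monic _ _).ne_zero
  have hset : {x : Ω | ∃ i ∈ J₀, aeval x (cub (A i) (B i)) = 0} = g.rootSet Ω := by
    ext x
    rw [mem_rootSet_of_ne hg0, Set.mem_setOf_eq, hg, map_prod, Finset.prod_eq_zero_iff]
  rw [hset] at hρ
  haveI hsf : g.IsSplittingField F (adjoin F (g.rootSet Ω)) :=
    adjoin_rootSet_isSplittingField (IsAlgClosed.splits _)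
  haveI : Normal F (adjoin F (g.rootSet Ω)) := Normal.of_isSplittingField g
  obtain ⟨ψ⟩ : Nonempty (adjoin F (g.rootSet Ω) →ₐ[F] E) := by
    apply nonempty_algHom_adjoin_of_splits
    intro s hs
    rw [← hset] at hs
    obtain ⟨i, hi, hs⟩ := hs
    refine ⟨integral_cub hs, ?_⟩
    have h1 := hspl i hi
    refine h1.of_dvd ?_ (Polynomial.map_dvd _ (minpoly_dvd_cub hs))
    exact ((cub_monic (A i) (B i)).map φ).ne_zero
  -- the minimal polynomial of `ρ`
  have hmin : minpoly F (⟨ρ, hρ⟩ : adjoin F (g.rootSet Ω)) = cub (A j₀) (B j₀) := by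
    refine (minpoly.eq_of_irreducible_of_monic hirr ?_ (cub_monic _ _)).symm
    apply (algebraMap (adjoin F (g.rootSet Ω)) Ω).injective
    rw [map_zero, ← aeval_algebraMap_apply]
    exact h0
  have hsp := Normal.splits (F := F) (K := adjoin F (g.rootSet Ω)) inferInstance ⟨ρ, hρ⟩
  rw [hmin] at hsp
  have hsp2 := hsp.map ψ.toRingHom
  rw [Polynomial.map_map] at hsp2
  have e : ψ.toRingHom.comp (algebraMap F (adjoin F (g.rootSet Ω))) = φ := by
    ext x
    exact ψ.commutes x
  rw [e, cub_map] at hsp2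
  have hsq := disc_split hsp2
  apply hnsq
  rw [map_neg, map_add, map_mul, map_mul, map_pow, map_pow, map_ofNat, map_ofNat]
  exact hsq

/-- The degree of the compositum. -/
theorem finrank_adjoin {A B : ι → F} {c : ι → Ω} (hc : ∀ i, aeval (c i) (cub (A i) (B i)) = 0)
    (hno : ∀ (J₀ : Finset ι) (j : ι), j ∉ J₀ → ∀ ρ ∈ adjoin F (c '' (J₀ : Set ι)),
      aeval ρ (cub (A j) (B j)) ≠ 0) (J : Finset ι) :
    FiniteDimensional F (adjoin F (c '' (J : Set ι))) ∧
      Module.finrank F (adjoin F (c '' (J : Set ι))) = 3 ^ J.card := by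
  induction J using Finset.induction_on with
  | empty =>
    rw [Finset.coe_empty, Set.image_empty, adjoin_empty]
    exact ⟨inferInstance, by simp⟩
  | insert j J hj ih =>
    obtain ⟨ih1, ih2⟩ := ih
    haveI := ih1
    set F₀ := adjoin F (c '' (J : Set ι)) with hF₀
    have e : (adjoin F₀ {c j}).restrictScalars F = adjoin F (c '' ((insert j J : Finset ι) : Set ι)) := by
      rw [hF₀, adjoin_adjoin_left]
      congr 1
      ext x
      simp [or_comm, eq_comm]
    have hint : IsIntegral F₀ (c j) := (integral_cub (hc j)).tower_top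
    haveI : FiniteDimensional F₀ (adjoin F₀ {c j}) := adjoin.finiteDimensional hint
    have hmin : minpoly F₀ (c j) = cub (algebraMap F F₀ (A j)) (algebraMap F F₀ (B j)) := by
      refine (minpoly.eq_of_irreducible_of_monic ?_ ?_ (cub_monic _ _)).symm
      · rw [(cub_monic _ _).irreducible_iff_roots_eq_zero_of_degree_le_three
          (by rw [cub_natDegree]; norm_num) (by rw [cub_natDegree])]
        rw [Multiset.eq_zero_iff_forall_notMem]
        intro r hr
        rw [mem_roots (cub_monic _ _).ne_zero, IsRoot.def] at hr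
        apply hno J j hj (r : Ω) r.2
        have h1 := congrArg (algebraMap F₀ Ω) hr
        rw [map_zero] at h1
        rw [← h1]
        unfold cub
        simp only [map_add, map_mul, map_pow, aeval_X, aeval_C, eval_add, eval_mul, eval_pow,
          eval_X, eval_C]
        rfl
      · rw [← cub_map, aeval_map_algebraMap]
        exact hc j
    have hfr : Module.finrank F₀ (adjoin F₀ {c j}) = 3 := by
      rw [adjoin.finrank hint, hmin, cub_natDegree]
    have htot : Module.finrank F (adjoin F₀ {c j}) = 3 ^ J.card * 3 := by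
      rw [← Module.finrank_mul_finrank F F₀ (adjoin F₀ {c j}), ih2, hfr]
    haveI hfd : FiniteDimensional F (adjoin F₀ {c j}) := FiniteDimensional.trans F F₀ _
    rw [← e]
    refine ⟨hfd, ?_⟩
    rw [Finset.card_insert_of_notMem hj, pow_succ]
    exact htot

/-- The upper bound. -/
theorem finrank_adjoin_le {A B : ι → F} {c : ι → Ω} (hc : ∀ i, aeval (c i) (cub (A i) (B i)) = 0)
    (J : Finset ι) :
    FiniteDimensional F (adjoin F (c '' (J : Set ι))) ∧
      Module.finrank F (adjoin F (c '' (J : Set ι))) ≤ 3 ^ J.card := by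
  induction J using Finset.induction_on with
  | empty =>
    rw [Finset.coe_empty, Set.image_empty, adjoin_empty]
    exact ⟨inferInstance, by simp⟩
  | insert j J hj ih =>
    obtain ⟨ih1, ih2⟩ := ih
    haveI := ih1
    set F₀ := adjoin F (c '' (J : Set ι)) with hF₀
    have e : (adjoin F₀ {c j}).restrictScalars F = adjoin F (c '' ((insert j J : Finset ι) : Set ι)) := by
      rw [hF₀, adjoin_adjoin_left]
      congr 1
      ext x
      simp [or_comm, eq_comm]
    have hint : IsIntegral F₀ (c j) := (integral_cub (hc j)).tower_top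
    haveI : FiniteDimensional F₀ (adjoin F₀ {c j}) := adjoin.finiteDimensional hint
    have hfr : Module.finrank F₀ (adjoin F₀ {c j}) ≤ 3 := by
      rw [adjoin.finrank hint]
      have h1 : minpoly F₀ (c j) ∣ cub (algebraMap F F₀ (A j)) (algebraMap F F₀ (B j)) := by
        apply minpoly.dvd
        rw [← cub_map, aeval_map_algebraMap]
        exact hc j
      exact (natDegree_le_of_dvd h1 (cub_monic _ _).ne_zero).trans_eq (cub_natDegree _ _)
    have htot : Module.finrank F (adjoin F₀ {c j}) ≤ 3 ^ J.card * 3 := by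
      rw [← Module.finrank_mul_finrank F F₀ (adjoin F₀ {c j})]
      exact Nat.mul_le_mul ih2 hfr
    haveI hfd : FiniteDimensional F (adjoin F₀ {c j}) := FiniteDimensional.trans F F₀ _
    rw [← e]
    refine ⟨hfd, ?_⟩
    rw [Finset.card_insert_of_notMem hj, pow_succ]
    exact htot

end gen

end Run7.h875.TS
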