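import Pool.Agent.Run7.h875.TS.Mod2

/-!
# Simultaneous twists, MODEL: the primitive element
-/

set_option autoImplicit false
set_option linter.all false

open Polynomial IntermediateField
open Pool.Agent.N199.PP
open scoped Classical

namespace Run7.h875.TS

/-- Separating coefficients. -/
theorem exists_mu {R Ω ι : Type} [CommRing R] [IsDomain R] [Infinite R] [Field Ω] [Algebra R Ω]
    (hinj : Function.Injective (algebraMap R Ω)) (J : Finset ι) (d : ι → ℕ)
    (hd : Set.InjOn d (J : Set ι)) (V : Set (ι → Ω)) (hV : V.Finite)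
    (hV0 : ∀ v ∈ V, ∃ j ∈ J, v j ≠ 0) :
    ∃ μ : R, ∀ v ∈ V, ∑ j ∈ J, algebraMap R Ω (μ ^ d j) * v j ≠ 0 := by
  set P : (ι → Ω) → Polynomial Ω := fun v => ∑ j ∈ J, C (v j) * X ^ d j with hP
  have hP0 : ∀ v ∈ V, P v ≠ 0 := by
    intro v hv h0
    obtain ⟨j, hj, hvj⟩ := hV0 v hv
    apply hvj
    have h1 := congrArg (fun p => coeff p (d j)) h0
    simp only [hP, finset_sum_coeff, coeff_C_mul, coeff_X_pow, coeff_zero] at h1
    rw [Finset.sum_eq_single j] at h1
    · simpa using h1
    · intro i hi hij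
      rw [if_neg, mul_zero]
      intro h2
      exact hij (hd hi hj h2.symm)
    · intro h2
      exact absurd hj h2
  have hfin : (⋃ v ∈ V, {x : Ω | IsRoot (P v) x}).Finite := by
    refine hV.biUnion fun v hv => ?_
    refine (P v).roots.toFinset.finite_toSet.subset fun x hx => ?_
    rw [Finset.mem_coe, Multiset.mem_toFinset, mem_roots (hP0 v hv)]
    exact hx
  obtain ⟨μ, hμ⟩ : ∃ μ : R, algebraMap R Ω μ ∉ ⋃ v ∈ V, {x : Ω | IsRoot (P v) x} := by
    by_contra hcon
    push Not at hcon
    have h1 : (Set.range (algebraMap R Ω)).Finite := hfin.subset (by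
      rintro _ ⟨r, rfl⟩
      exact hcon r)
    exact Set.infinite_range_of_injective hinj h1
  refine ⟨μ, fun v hv h0 => hμ ?_⟩
  simp only [Set.mem_iUnion]
  refine ⟨v, hv, ?_⟩
  show eval _ (P v) = 0
  rw [hP]
  simp only [eval_finset_sum, eval_mul, eval_C, eval_pow, eval_X]
  rw [← h0]
  refine Finset.sum_congr rfl fun j _ => ?_
  rw [map_pow, mul_comm]

section lower

variable {F Ω ι : Type} [Field F] [Field Ω] [Algebra F Ω] [IsAlgClosed Ω]

/-- The degree of the separating element. -/
theorem natDegree_ge {A B : ι → F} {c : ι → Ω} (hc : ∀ i, aeval (c i) (cub (A i) (B i)) = 0)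
    (hd : ∀ i, 4 * A i ^ 3 + 27 * B i ^ 2 ≠ 0) {J : Finset ι}
    (hfd : FiniteDimensional F (adjoin F (c '' (J : Set ι))))
    (hfr : Module.finrank F (adjoin F (c '' (J : Set ι))) = 3 ^ J.card) (l : ι → F)
    (hl : ∀ z z' : ι → Ω, (∀ j ∈ J, aeval (z j) (cub (A j) (B j)) = 0) →
      (∀ j ∈ J, aeval (z' j) (cub (A j) (B j)) = 0) →
      ∑ j ∈ J, algebraMap F Ω (l j) * z j = ∑ j ∈ J, algebraMap F Ω (l j) * z' j →
      ∀ j ∈ J, z j = z' j) :
    3 ^ J.card ≤ (minpoly F (∑ j ∈ J, algebraMap F Ω (l j) * c j)).natDegree := by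
  haveI := hfd
  set F' := adjoin F (c '' (J : Set ι)) with hF'
  have hmem : ∀ j ∈ J, c j ∈ F' := fun j hj => subset_adjoin F _ ⟨j, hj, rfl⟩
  haveI : Algebra.IsSeparable F F' := by
    rw [hF', isSeparable_adjoin_iff_isSeparable]
    rintro x ⟨j, hj, rfl⟩
    exact (cub_separable (A j) (B j) (hd j)).of_dvd (minpoly_dvd_cub (hc j))
  set y : F' := ∑ j ∈ J, if h : j ∈ J then algebraMap F F' (l j) * ⟨c j, hmem j h⟩ else 0 with hy
  have hyv : (y : Ω) = ∑ j ∈ J, algebraMap F Ω (l j) * c j := by
    rw [hy]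
    push_cast
    refine Finset.sum_congr rfl fun j hj => ?_
    rw [dif_pos hj]
    rfl
  have hmin : minpoly F (∑ j ∈ J, algebraMap F Ω (l j) * c j) = minpoly F y := by
    rw [← hyv]
    exact minpoly.algebraMap_eq (algebraMap F' Ω).injective y
  rw [hmin, ← hfr, ← AlgHom.card F F' Ω]
  have hy0 : minpoly F y ≠ 0 := minpoly.ne_zero (Algebra.IsIntegral.isIntegral y)
  calc Fintype.card (F' →ₐ[F] Ω) ≤ ((minpoly F y).aroots Ω).toFinset.card := by
        rw [← Finset.card_univ]
        refine Finset.card_le_card_of_injOn (fun σ => σ y) ?_ ?_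
        · intro σ _
          rw [Finset.mem_coe, Multiset.mem_toFinset, mem_aroots]
          refine ⟨hy0, ?_⟩
          rw [aeval_algHom_apply, minpoly.aeval, map_zero]
        · intro σ _ σ' _ h
          have h' : σ y = σ' y := h
          have hval : ∀ τ : F' →ₐ[F] Ω, τ y = ∑ j ∈ J, algebraMap F Ω (l j) *
              (if h : j ∈ J then τ ⟨c j, hmem j h⟩ else 0) := by
            intro τ
            rw [hy, map_sum]
            refine Finset.sum_congr rfl fun j hj => ?_
            rw [dif_pos hj, dif_pos hj, map_mul, AlgHom.commutes]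
          rw [hval, hval] at h'
          have hroot : ∀ τ : F' →ₐ[F] Ω, ∀ j ∈ J,
              aeval (if h : j ∈ J then τ ⟨c j, hmem j h⟩ else 0 : Ω) (cub (A j) (B j)) = 0 := by
            intro τ j hj
            rw [dif_pos hj, aeval_algHom_apply]
            have : aeval (⟨c j, hmem j hj⟩ : F') (cub (A j) (B j)) = 0 := by
              apply (algebraMap F' Ω).injective
              rw [map_zero, ← aeval_algebraMap_apply]
              exact hc j
            rw [this, map_zero]
          have heq := hl _ _ (hroot σ) (hroot σ') h'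
          apply algHom_ext_of_eq_adjoin F hF'
          rintro x ⟨j, hj, rfl⟩
          have hj' : j ∈ J := hj
          have h3 := heq j hj'
          rw [dif_pos hj', dif_pos hj'] at h3
          exact h3
    _ ≤ ((minpoly F y).aroots Ω).card := Multiset.toFinset_card_le _
    _ ≤ ((minpoly F y).map (algebraMap F Ω)).natDegree := card_roots' _
    _ = _ := natDegree_map _

end lower

end Run7.h875.TS
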