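import Pool.Agent.Run7.h875.TS.Mod3
import Pool.Agent.Run7.h984.TS.Bij

/-!
# Simultaneous twists, MODEL: the model
-/

set_option autoImplicit false
set_option linter.all false

open Polynomial IntermediateField
open Pool.Agent.N199.PP Pool.Agent.N874.PP
open scoped Classical

namespace Run7.h875.TS

/-- Clearing denominators of finitely many polynomials. -/
theorem clear_den {R K : Type} [CommRing R] [IsDomain R] [Field K] [Algebra R K] [IsFractionRing R K]
    (s : Finset K[X]) : ∃ D : R, D ≠ 0 ∧ ∀ g ∈ s, ∃ e : R[X],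
      e.map (algebraMap R K) = C (algebraMap R K D) * g := by
  induction s using Finset.induction_on with
  | empty => exact ⟨1, one_ne_zero, fun g hg => absurd hg (by simp)⟩
  | insert g s _ ih =>
    obtain ⟨D, hD, h⟩ := ih
    obtain ⟨b, hb, hbe⟩ := IsLocalization.integerNormalization_spec (nonZeroDivisors R) g
    refine ⟨D * b, mul_ne_zero hD (nonZeroDivisors.ne_zero hb), ?_⟩
    intro f hf
    rcases Finset.mem_insert.1 hf with rfl | hf
    · refine ⟨C D * IsLocalization.integerNormalization (nonZeroDivisors R) f, ?_⟩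
      rw [Polynomial.map_mul, hbe, map_C, map_mul, C_mul, Algebra.smul_def, mul_assoc]
      rfl
    · obtain ⟨e, he⟩ := h f hf
      refine ⟨C b * e, ?_⟩
      rw [Polynomial.map_mul, he, map_C, map_mul, C_mul]
      ring

/-- Elements of `K(y)` are polynomials in `y` of small degree. -/
theorem small_rep {K Ω : Type} [Field K] [Field Ω] [Algebra K Ω] {y x : Ω} (hy : IsIntegral K y)
    (hx : x ∈ K⟮y⟯) : ∃ g : K[X], aeval y g = x ∧ g.natDegree < (minpoly K y).natDegree := by
  have h1 : x ∈ (K⟮y⟯.toSubalgebra : Subalgebra K Ω) := hx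
  rw [adjoin_simple_toSubalgebra_of_isAlgebraic hy.isAlgebraic,
    Algebra.adjoin_singleton_eq_range_aeval] at h1
  obtain ⟨g, hg⟩ := h1
  have hg' : aeval y g = x := hg
  refine ⟨g %ₘ minpoly K y, ?_, natDegree_modByMonic_lt g (minpoly.monic hy) (minpoly.ne_one K y)⟩
  rw [aeval_modByMonic_eq_self_of_root (minpoly.aeval K y), hg']

/-- The irreducibility over all algebraic closures. -/
theorem irr_all {k : Type} [Field k] {H : k[X][X]} (k' : Type) [Field k'] [IsAlgClosed k']
    [Algebra k k'] [Algebra.IsAlgebraic k k']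
    (h : Irreducible (H.map (mapRingHom (algebraMap k k')))) (k'' : Type) [Field k'']
    [IsAlgClosed k''] [Algebra k k''] [Algebra.IsAlgebraic k k''] :
    Irreducible (H.map (mapRingHom (algebraMap k k''))) := by
  haveI : IsAlgClosure k k' := ⟨inferInstance, inferInstance⟩
  haveI : IsAlgClosure k k'' := ⟨inferInstance, inferInstance⟩
  set ε : k' ≃ₐ[k] k'' := IsAlgClosure.equiv k k' k''
  set E : k'[X][X] ≃+* k''[X][X] := mapEquiv (mapEquiv ε.toRingEquiv)
  have h1 : H.map (mapRingHom (algebraMap k k'')) = E (H.map (mapRingHom (algebraMap k k'))) := by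
    show _ = (H.map (mapRingHom (algebraMap k k'))).map (mapEquiv ε.toRingEquiv : k'[X] →+* k''[X])
    rw [Polynomial.map_map]
    congr 1
    ext x
    · simp [mapEquiv]
    · simp [mapEquiv]
  rw [h1]
  exact (MulEquiv.irreducible_iff E).2 h

end Run7.h875.TS
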