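import Pool.Agent.Run7.h875.TS.Def

/-!
# Simultaneous twists: statements of the pieces (algebraic side)

Project TS (helper875), problem MP_48b749_nt. Everywhere `K = Frac k[X]`, `L = K(θ)` is a cubic field,
`θ ^ 3 + a θ + b = 0`, `O` is the integral closure of `k[X]` in `L`.
-/

set_option autoImplicit false
set_option linter.all false

open Polynomial IsDedekindDomain
open Pool.Agent.N874.PP Pool.Agent.TH115.GD
open scoped Classical

namespace Run7.h875.TS

/-! ### Local conditions -/

/-- **LTM** (about 300 lines). The local conditions are closed under multiplication.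

Proof. Write `f = X ^ 3 + a X + b`, work modulo `f`; `[z] = δ (z - X)`. If `z₁ = z₂` then `h₁ h₂` is
the square of `g₁ g₂ / (δ (z - X))` (`z - X` is a unit modulo `f` since `f(z) ≠ 0`). Otherwise take the
line `w = m z + c` through `(z₁, w₁)`, `(z₂, w₂)`; `δ f(z) - (m z + c) ^ 2 = δ (z - z₁) (z - z₂) (z - z₃)`,
so `δ (z₁ - X) (z₂ - X) (z₃ - X) = (m X + c) ^ 2` modulo `f`. If `w₃ = m z₃ + c ≠ 0`, then
`δ (z₃ - X) h₁ h₂ = (g₁ g₂ (z₃ - X) / (m X + c)) ^ 2` (all these are units). If `w₃ = 0`, i.e. `P₁ + P₂` is a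
point `T` of order two: choose a point `R` of the curve (there are infinitely many) with `4 R ≠ 0`,
`2 (P₁ + 2 R) ≠ 0`, `P₁ ± 2 R ≠ 0`, ... and replace `P₁` by `P₁ + 2 R`: the class of `2 R` is a square
(`x(2 R) - t` is a square, see `S_GP1` in N874/PP/Gal and N630/PP/GP, or the explicit duplication
formula), so by the line through `P₁` and `2 R` the classes of `P₁` and `P₁ + 2 R` agree, and
`(P₁ + 2 R) + P₂ = T + 2 R` is not of order two as `4 R ≠ 0`. -/
def S_LTM : Prop := ∀ (F : Type) [Field F] (a b δ : F), (6 : F) ≠ 0 → 4 * a ^ 3 + 27 * b ^ 2 ≠ 0 →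
  δ ≠ 0 → {z : F | ∃ w : F, w ≠ 0 ∧ w ^ 2 = δ * (z ^ 3 + a * z + b)}.Infinite →
  ∀ h₁ h₂ : F[X], IsCoprime (X ^ 3 + C a * X + C b) h₁ → IsCoprime (X ^ 3 + C a * X + C b) h₂ →
    LocT a b δ h₁ → LocT a b δ h₂ → LocT a b δ (h₁ * h₂)

/-- **INFP** (about 150 lines). The twisted curves have infinitely many points over the completions.

Proof: `z = δ r ^ 2` with `|r|` large: `δ f(z) = (δ ^ 2 r ^ 3) ^ 2 (1 + small)`, and `1 + small` is a
square (`Pool.Agent.TH115.GD.sqrt_one_unit`, see its use in N765/PP/Comp.lean, `lift_quad`). -/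
def S_INFP : Prop := ∀ (k K : Type) [Field k] [Field K] [Algebra k[X] K] [IsFractionRing k[X] K],
  (2 : k) ≠ 0 →
  (∀ (v : HeightOneSpectrum k[X]) (a b δ : v.adicCompletion K), δ ≠ 0 →
    {z : v.adicCompletion K | ∃ w, w ≠ 0 ∧ w ^ 2 = δ * (z ^ 3 + a * z + b)}.Infinite) ∧
  ∀ a b δ : CompInf k K, δ ≠ 0 →
    {z : CompInf k K | ∃ w, w ≠ 0 ∧ w ^ 2 = δ * (z ^ 3 + a * z + b)}.Infinite

/-- **ISO** (about 150 lines). The local condition implies isotropy.

Proof: in `A = F[X] / (f)` the form is `ξ ↦ c₂(ξ ^ 2 / α)`. If `α = g ^ 2` take `ξ = g`; if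
`δ (z - Θ) α = g ^ 2` take `ξ = g`: `g ^ 2 / α = δ (z - Θ)` has `c₂ = 0`. (`A` need not be a field.) -/
def S_ISO : Prop := ∀ (k K L : Type) [Field k] [Field K] [Algebra k[X] K] [IsFractionRing k[X] K]
  [Field L] [Algebra K L] [Algebra k[X] L] [IsScalarTower k[X] K L] (a b : k[X]) (θ : L),
  (6 : k) ≠ 0 → ∀ h : IsCub K a b θ, ∀ (F : Type) [Field F] [Algebra K F] (δ : F) (α : L),
  α ≠ 0 → LocAt h F δ α → IsoF h F α

/-- **UNI** (about 350 lines, adapt N765/PP/Unim.lean, N833/PP/Int.lean). Even valuations at a prime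
`P` with `P ^ 2 ∤ dsc`: the form is isotropic. In N765 the whole discriminant is squarefree and
`S_INT` says that integral elements have coordinates in `k[X]`; now one only has: for integral `x`
there is `s` in `k[X]` prime to `P` such that `s x` has coordinates in `k[X]` (local version of
`N833.PP.int`: `t ^ 2 dsc` is integral at `P` and `P ^ 2 ∤ dsc`, so `t` is integral at `P`). The proof
of `N765.PP.unim` uses `S_INT` only up to such an `s`. -/
def S_UNI : Prop := ∀ (k K L O : Type) [Field k] [Finite k] [Field K] [Algebra k[X] K]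
  [IsFractionRing k[X] K]
  [Field L] [Algebra K L] [Algebra k[X] L] [IsScalarTower k[X] K L] [CommRing O]
  [IsDedekindDomain O] [Algebra O L] [IsFractionRing O L] [Algebra k[X] O]
  [IsScalarTower k[X] O L] [IsIntegralClosure O k[X] L] (a b : k[X]) (θ : L),
  (6 : k) ≠ 0 → ∀ h : IsCub K a b θ,
  ∀ (P : k[X]) (v : HeightOneSpectrum k[X]), Irreducible P → v.asIdeal = Ideal.span {P} →
  ¬ P ^ 2 ∣ dsc a b →
  ∀ α : L, α ≠ 0 → (∀ 𝔓 : HeightOneSpectrum O, Ov P 𝔓 → Ev 𝔓 α) → IsoAt h v α

/-- **REC** (about 350 lines). Reciprocity: if the form is isotropic at `∞` then it is anisotropic at an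
even number of finite places.

Proof. A nondegenerate isotropic form over `CompInf k K` represents `1`; by density of `L` (that is of
`K ^ 3`) there is `v₀` in `L` with `c₂(v₀ ^ 2 / α)` close to `1` at `∞`, hence equal to `d g ^ 2` with `d`
monic squarefree of even degree (an element of `K` close to `1` at `∞` is a quotient of polynomials with
the same degree and leading coefficient). Complete `v₀` to an orthogonal basis (`orth` in
N26/PP/DiagA.lean, see the second half of N26/PP/Diag.lean, which also does the determinant): the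
form becomes `d x ^ 2 + e y ^ 2 - d e z ^ 2`. Now `N141.PP.iso_iff`, `S_TAME` (`N352.PP.tame`) and `S_HP`
(`N368.PP.hp`) as in `N141.PP.rec`. -/
def S_REC2 : Prop := ∀ (k K L : Type) [Field k] [Finite k] [Field K] [Algebra k[X] K]
  [IsFractionRing k[X] K] [Field L] [Algebra K L] [Algebra k[X] L] [IsScalarTower k[X] K L]
  (a b : k[X]) (θ : L), (6 : k) ≠ 0 → ∀ h : IsCub K a b θ, ∀ α : L, α ≠ 0 →
  IsSquare (Algebra.norm K α) → IsoF h (CompInf k K) α →
  {P : k[X] | P.Monic ∧ Irreducible P ∧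
    ∀ v : HeightOneSpectrum k[X], v.asIdeal = Ideal.span {P} → ¬ IsoAt h v α}.Finite ∧
  Even {P : k[X] | P.Monic ∧ Irreducible P ∧
    ∀ v : HeightOneSpectrum k[X], v.asIdeal = Ideal.span {P} → ¬ IsoAt h v α}.ncard

/-- **L2** (about 300 lines, see N704/PP/Loc.lean, Loc2.lean). The classes at a prime `Q ∤ dsc` of the
points of the twist by `Q u`.

Proof. `δ = Q u`, `v(δ) = 1`. If `α` is a square in `K_Q[X]/(f)`, it is a square in all `L_𝔓`: `Tr`. Let
`w ^ 2 = δ f(z)`, `δ (z - Θ) α = g ^ 2`. If `v(z) < 0`, then `f(z) = z ^ 3 (1 + small)`,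
`z - θ = z (1 + small)` in `L_𝔓`, so `δ (z - θ) = δ z (1 + small)` and `δ z = (w / z) ^ 2 (1 + small)`, so `α`
is trivial at all `𝔓`. If `v(z) ≥ 0`, then `v(f(z))` is odd, so `f(z)` is not a unit: `z ≡ c` modulo `Q`,
`c` in `k[X]`, `Q ∣ f(c)`, and at `𝔓` with `θ - c` a unit, `z - θ = (c - θ) (1 + small)`. -/
def S_L2 : Prop := ∀ (k K L O : Type) [Field k] [Finite k] [Field K] [Algebra k[X] K]
  [IsFractionRing k[X] K]
  [Field L] [Algebra K L] [Algebra k[X] L] [IsScalarTower k[X] K L] [CommRing O]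
  [IsDedekindDomain O] [Algebra O L] [IsFractionRing O L] [Algebra k[X] O]
  [IsScalarTower k[X] O L] [IsIntegralClosure O k[X] L] (a b : k[X]) (θ : L),
  (6 : k) ≠ 0 → ∀ h : IsCub K a b θ,
  ∀ (Q : k[X]) (v : HeightOneSpectrum k[X]), Irreducible Q → v.asIdeal = Ideal.span {Q} →
  ¬ Q ∣ dsc a b → ∀ u : k[X], ¬ Q ∣ u → ∀ α : L, α ≠ 0 →
    LocAt h (v.adicCompletion K)
      (algebraMap K (v.adicCompletion K) (algebraMap k[X] K (Q * u))) α →
    Tr O Q α ∨ ∃ c : k[X], RtM a b Q c ∧ ∀ 𝔓 : HeightOneSpectrum O, Ov Q 𝔓 →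
      𝔓.valuation L (θ - algebraMap k[X] L c) = 1 →
      Sq1 𝔓 (α * (algebraMap k[X] L (Q * u) * (algebraMap k[X] L c - θ)))

/-- **R2** (about 250 lines). At a prime `Q ∤ dsc` with exactly one zero `c` modulo `Q`: if the form is
isotropic and the valuation of `α` at the prime `𝔮` of degree two is odd, then the class at `𝔮` is that
of `Q (c - θ)`.

Proof. An isotropic vector `ξ` in `A = K_Q[X]/(f)`: `ξ ^ 2 / α = r + s Θ`. If `s = 0`: `α = r □`, with the
norm `r` is a square, so `α` is a square at `𝔮`, contradiction. So with `δ = - s`, `z = - r / s`: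
`δ (z - Θ) α = □` and (norms) `δ f(z) = □`. At `𝔮` (unramified over `Q`, residue degree two):
`v(δ) + v_𝔮(z - θ)` is odd. If `v(z) < 0` then `v_𝔮(z - θ) = v(z)`, `v(δ) + 3 v(z)` is even: contradiction. So
`v(z) ≥ 0`, `v_𝔮(z - θ) = 0` since `θ` is not congruent to a polynomial modulo `𝔮`, `v(δ)` is odd, `v(f(z))` is
odd, so `z ≡ c`, and `α δ (c - θ)` is a square at `𝔮` (up to `1 + small`). Finally `δ = Q ^ (odd)` times a
unit of `K_Q`, and the units of `K_Q` are squares at `𝔮`. See N765/PP/Ram.lean, N862/PP/Exq.lean for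
`𝔮` (the residue field of `𝔮` has degree two: `N862.PP`); `-` signs do not matter at `𝔮`. -/
def S_R2 : Prop := ∀ (k K L O : Type) [Field k] [Finite k] [Field K] [Algebra k[X] K]
  [IsFractionRing k[X] K]
  [Field L] [Algebra K L] [Algebra k[X] L] [IsScalarTower k[X] K L] [CommRing O]
  [IsDedekindDomain O] [Algebra O L] [IsFractionRing O L] [Algebra k[X] O]
  [IsScalarTower k[X] O L] [IsIntegralClosure O k[X] L] (a b : k[X]) (θ : L),
  (6 : k) ≠ 0 → ∀ h : IsCub K a b θ,
  ∀ (Q : k[X]) (v : HeightOneSpectrum k[X]), Irreducible Q → v.asIdeal = Ideal.span {Q} →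
  ¬ Q ∣ dsc a b → ∀ c : k[X], RtM a b Q c → (∀ c' : k[X], RtM a b Q c' → Q ∣ c' - c) →
  ∀ α : L, α ≠ 0 → IsSquare (Algebra.norm K α) → IsoAt h v α →
  ∀ 𝔮 : HeightOneSpectrum O, Ov Q 𝔮 → 𝔮.valuation L (θ - algebraMap k[X] L c) = 1 → ¬ Ev 𝔮 α →
    Sq1 𝔮 (α * (algebraMap k[X] L Q * (algebraMap k[X] L c - θ)))

/-- **LOCE** (about 350 lines, adapt N704/PP/Loc1.lean). At the primes `P` with `P ^ 2 ∤ dsc` not dividing
the twist the local condition implies even valuations.

Proof. `w ^ 2 = D f(z)`, `D (z - θ) α = □`, `D` a unit. If `v(z) < 0`: `v(f(z)) = 3 v(z)` is even, and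
`v_𝔓(z - θ) = v_𝔓(z)` is even. If `v(z) ≥ 0`, let `z ≡ c`. At the `𝔓` with `θ - c` a unit fine. If `c` is a
simple zero of `f` modulo `P` (or no zero), only one `𝔓`, of degree one, has `θ ≡ c`, and the norm
(`N862/PP/Par.lean`, `S_PAR`: parity at a prime of degree one from the norm; it uses squarefreeness only
through uniqueness of `𝔓`) gives the result. If `c` is a double zero of `f` modulo `P` then `P ∣ dsc`,
`v(dsc) = 1` and `dsc = (27 f(c) + 108 c ^ 3 - 54 c f'(c)) f(c) + (4 f'(c) - 9 c ^ 2) f'(c) ^ 2` show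
`v(f(c)) = 1` for every `c` in this class; so `v(f(z)) = 1`, which is odd: contradiction. -/
def S_LOCE : Prop := ∀ (k K L O : Type) [Field k] [Finite k] [Field K] [Algebra k[X] K]
  [IsFractionRing k[X] K]
  [Field L] [Algebra K L] [Algebra k[X] L] [IsScalarTower k[X] K L] [CommRing O]
  [IsDedekindDomain O] [Algebra O L] [IsFractionRing O L] [Algebra k[X] O]
  [IsScalarTower k[X] O L] [IsIntegralClosure O k[X] L] (a b : k[X]) (θ : L),
  (6 : k) ≠ 0 → ∀ h : IsCub K a b θ,
  ∀ (P : k[X]) (v : HeightOneSpectrum k[X]), Irreducible P → v.asIdeal = Ideal.span {P} →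
  ¬ P ^ 2 ∣ dsc a b → ∀ D : k[X], ¬ P ∣ D → ∀ α : L, α ≠ 0 → IsSquare (Algebra.norm K α) →
    LocAt h (v.adicCompletion K)
      (algebraMap K (v.adicCompletion K) (algebraMap k[X] K D)) α →
    ∀ 𝔓 : HeightOneSpectrum O, Ov P 𝔓 → Ev 𝔓 α

/-- **CLSU** (about 120 lines). The conditions depend only on the classes of the `u P` modulo `P` up to
squares. Proof: `P u' P = P u P * s ^ 2` with `s` in the completion (`sqrt_one_unit`), and `LocT` for
`δ s ^ 2` follows from that for `δ` (`w ↦ s w`, `g ↦ s g`). -/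
def S_CLSU : Prop := ∀ (k K L O : Type) [Field k] [Finite k] [Field K] [Algebra k[X] K]
  [IsFractionRing k[X] K]
  [Field L] [Algebra K L] [Algebra k[X] L] [IsScalarTower k[X] K L] [CommRing O]
  [IsDedekindDomain O] [Algebra O L] [IsFractionRing O L] [Algebra k[X] O]
  [IsScalarTower k[X] O L] [IsIntegralClosure O k[X] L] (a b : k[X]) (θ : L),
  (6 : k) ≠ 0 → ∀ h : IsCub K a b θ, ∀ (S : Finset k[X]) (u u' : k[X] → k[X]),
  GoodT a b S u → GoodT a b S u' → (∀ P ∈ S, ∃ z : k[X], P ∣ z ^ 2 * u P - u' P) →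
  ∀ α : L, SelC h O S u α → SelC h O S u' α

/-! ### The Selmer groups -/

/-- **GRP** (about 150 lines, from LTM, INFP). `SelC` is closed under multiplication, the squares satisfy
it, so `SelG` is the set of all `α` with `SelC`. -/
def S_GRP : Prop := ∀ (k K L O : Type) [Field k] [Finite k] [Field K] [Algebra k[X] K]
  [IsFractionRing k[X] K]
  [Field L] [Algebra K L] [Algebra k[X] L] [IsScalarTower k[X] K L] [CommRing O]
  [IsDedekindDomain O] [Algebra O L] [IsFractionRing O L] [Algebra k[X] O]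
  [IsScalarTower k[X] O L] [IsIntegralClosure O k[X] L] (a b : k[X]) (θ : L),
  (6 : k) ≠ 0 → ∀ h : IsCub K a b θ, ∀ (S : Finset k[X]) (u : k[X] → k[X]), GoodT a b S u →
  (∀ α : Lˣ, α ∈ SelG h O S u ↔ SelC h O S u (α : L)) ∧ sqL L ≤ SelG h O S u

/-- **STEP** (about 500 lines, from GRP, ISO, UNI, REC, L2, R2 and the lemmas on classes at primes,
`N539.PP.cls` = `S_CLS`, and N862/PP/Ns.lean). The effect of one more prime `Q` on the Selmer group
`G = SelG S u`, `G' = SelG (insert Q S) (update u Q w)`; `T` = the elements trivial at `Q`.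

* always: an element of `G'` trivial at `Q` is in `G` (it is even at the primes over `Q`).
* `Q` inert: `G' ≤ G` since the norm gives the parity at the only prime over `Q`.
* `Q` with one zero `c`, `𝔭` of degree one, `𝔮` of degree two: by L2 an element of `G'` is trivial at `Q` or
  its class at `𝔮` is that of `Q w (c - θ)` (odd valuation). The product of two elements of the second kind
  is trivial at `𝔮`, hence at `𝔭` by the norm: index at most two. An element `s` of `G` which is not trivial at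
  `Q` is a nonsquare unit (times a square) at `𝔮`, again by the norm; the product of two such elements
  is trivial. If there is such an `s`, there is no `x` in `G'` of the second kind: `x`, `s x` are
  isotropic at all places different from `Q`: at the `P` in `S`, the `P` with `P ^ 2 ∣ dsc` and `∞`, since they
  satisfy the local condition (ISO and multiplicativity), at the others by UNI; so by REC also at `Q`,
  and R2 for `x` and `s x` shows that `s` is a square at `𝔮`.
* `Q` with three zeros: by L2 there are at most four classes in `G'` modulo `T`: for the same `c` the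
  product is trivial at the two primes with `θ - c` a unit, and then at the third by the norm. -/
def S_STEP : Prop := ∀ (k K L O : Type) [Field k] [Finite k] [Field K] [Algebra k[X] K]
  [IsFractionRing k[X] K]
  [Field L] [Algebra K L] [Algebra k[X] L] [IsScalarTower k[X] K L] [CommRing O]
  [IsDedekindDomain O] [Algebra O L] [IsFractionRing O L] [Algebra k[X] O]
  [IsScalarTower k[X] O L] [IsIntegralClosure O k[X] L] (a b : k[X]) (θ : L),
  (6 : k) ≠ 0 → ∀ h : IsCub K a b θ, ∀ (S : Finset k[X]) (u : k[X] → k[X]), GoodT a b S u →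
  sz (SelG h O S u) ≠ 0 →
  ∀ Q : k[X], Q.Monic → Irreducible Q → Q ∉ S → ¬ Q ∣ dsc a b → ∀ w : k[X], ¬ Q ∣ w →
  ∃ T : Subgroup Lˣ, (∀ α : Lˣ, α ∈ T ↔ Tr O Q (α : L)) ∧ sqL L ≤ T ∧
    SelG h O (insert Q S) (Function.update u Q w) ⊓ T ≤ SelG h O S u ∧
    (Ty3 a b Q → SelG h O (insert Q S) (Function.update u Q w) ≤ SelG h O S u) ∧
    (Ty12 a b Q → (¬ SelG h O S u ≤ T →
        SelG h O (insert Q S) (Function.update u Q w) ≤ SelG h O S u ⊓ T) ∧
      sz (SelG h O (insert Q S) (Function.update u Q w)) ≤ 2 * sz (SelG h O S u ⊓ T) ∧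
      sz (SelG h O S u) ≤ 2 * sz (SelG h O S u ⊓ T)) ∧
    sz (SelG h O (insert Q S) (Function.update u Q w)) ≤ 4 * sz (SelG h O S u ⊓ T)

/-- **REP** (about 400 lines). Small representatives; finiteness.

Proof: Riemann's inequality for the function field `L / k` (library `FF`: places, divisors, `LL`, `ell`,
`FF.riemann`, see R410/PW/Rie.lean and Num.lean; `IsFF k L`). Let `div α = 2 A + B`, `B` reduced and
effective; `B` is supported at the infinite places and the places over `S` and the `P` with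
`P ^ 2 ∣ dsc`, so `deg B ≤ 3 (∑ deg P) + const`, `deg A = - deg B / 2`. Let `V` be the pole divisor of `X`. For
`n ≥ const (1 + ∑ deg P)` there is `r ≠ 0` with `div r ≥ - A - n V`, so `α r ^ 2` has the pole divisor at
most `2 n V`: it is integral over `k[X]`, and its coordinates with respect to `1`, `θ`, `θ ^ 2`, times
`dsc`, are polynomials of degree at most `const (1 + ∑ deg P)` (Cramer, or the dual basis); multiply by
`dsc ^ 2`. For the finiteness: finitely many triples of polynomials of bounded degree, and every class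
has one (`relIndex_ne_zero`). -/
def S_REP : Prop := ∀ (k K L O : Type) [Field k] [Finite k] [Field K] [Algebra k[X] K]
  [IsFractionRing k[X] K]
  [Field L] [Algebra K L] [Algebra k[X] L] [IsScalarTower k[X] K L] [CommRing O]
  [IsDedekindDomain O] [Algebra O L] [IsFractionRing O L] [Algebra k[X] O]
  [IsScalarTower k[X] O L] [IsIntegralClosure O k[X] L] (a b : k[X]) (θ : L),
  (6 : k) ≠ 0 → ∀ h : IsCub K a b θ,
  (∃ C₀ : ℕ, ∀ (S : Finset k[X]) (u : k[X] → k[X]), GoodT a b S u → ∀ α : L, SelC h O S u α →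
    ∃ (r : L) (z : Fin 3 → k[X]), r ≠ 0 ∧ Crd θ z (α * r ^ 2) ∧
      ∀ i, (z i).natDegree ≤ C₀ * (1 + ∑ P ∈ S, P.natDegree)) ∧
  ∀ (S : Finset k[X]) (u : k[X] → k[X]), GoodT a b S u →
    (∀ α : Lˣ, α ∈ SelG h O S u ↔ SelC h O S u (α : L)) → sz (SelG h O S u) ≠ 0

/-- The monic prime divisors of `D`. -/
noncomputable def prD {k : Type} [Field k] (D : k[X]) : Finset k[X] :=
  (UniqueFactorizationMonoid.normalizedFactors D).toFinset

/-- **CONC** (about 600 lines, from `S_GB`, `S_GN`, `S_GT` of N874/PP/Gal (proved in N187), LOCE). From the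
Selmer conditions to the curve `y ^ 2 = x ^ 3 + a D ^ 2 x + b D ^ 3`.

Proof. (i) As in `N721.PP` (GF): it suffices that every cocycle `f` with `2 f = 0` which is locally
trivial at all places, also at `∞`, is the coboundary of a point of order two (GF with `LocallyTrivial`
instead of the finite places only). `S_FIN` = `N273`: finiteness, and `N874.PP.Final.odd_card`: odd order.
(ii) `β`, `h` from `S_GB`, `S_GN` for `A = a D ^ 2`, `B = b D ^ 3`; `α = h(D θ)` in `L`, its norm is a square;
if `α` is a square, `S_GT` finishes. (iii) Local conditions: N199/PP/GL.lean shows that `LocTriv` over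
the completion `F` gives: `h(Θ)` or `(x - Θ) h(Θ)` is a square, `(x, y)` a point of the curve over `F`; do
this for a general extension `F` of `K` (also `CompInf k K`), and with `y ≠ 0`: the point is `2 P` with
`P` in `W(Sep F)`, `f σ = σ P - P`; replace `P` by `P + R`, `R` in `W(F)`, such that `4 (P + R) ≠ 0`
(possible as `W(F)` is infinite: INFP). Put `x = D z`, `y = D w`: `w ^ 2 = D (z ^ 3 + a z + b)`, and
`(x - D X) h(D X) = D (z - X) h(D X)`: `LocT a b D (pol h α)`. (iv) At `∞` and at the `P` with `P ^ 2 ∣ dsc` `D` is a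
square in the completion: divide. At `P ∣ D`: `D = P * (D / P)`. At the others LOCE. -/
def S_CONC : Prop := ∀ (k K L O : Type) [Field k] [Finite k] [Field K] [Algebra k[X] K]
  [IsFractionRing k[X] K]
  [Field L] [Algebra K L] [Algebra k[X] L] [IsScalarTower k[X] K L] [CommRing O]
  [IsDedekindDomain O] [Algebra O L] [IsFractionRing O L] [Algebra k[X] O]
  [IsScalarTower k[X] O L] [IsIntegralClosure O k[X] L] (a b : k[X]) (θ : L),
  (6 : k) ≠ 0 → ∀ h : IsCub K a b θ, ∀ D : k[X], D.Monic → Squarefree D → Even D.natDegree →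
  (∀ P : k[X], Irreducible P → P ∣ D → ¬ P ∣ dsc a b) →
  (∀ P : k[X], Irreducible P → P ^ 2 ∣ dsc a b → ∃ z : k[X], P ∣ z ^ 2 - D) →
  (∀ α : L, SelC h O (prD D) (fun P => D / P) α → IsSquare α) →
  Finite (Pt (sW (algebraMap k[X] K (a * D ^ 2)) (algebraMap k[X] K (b * D ^ 3))) K) ∧
  Odd (Nat.card (Pt (sW (algebraMap k[X] K (a * D ^ 2)) (algebraMap k[X] K (b * D ^ 3))) K)) ∧
  ShaTwo k (sW (algebraMap k[X] K (a * D ^ 2)) (algebraMap k[X] K (b * D ^ 3)))

end Run7.h875.TS
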